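import Pool.Agent.Lib.MP_37d555_gt.Defs

/-! Common lemmas on norms `g : E n → ℝ` (MP_37d555_gt). -/

set_option autoImplicit false

namespace Pool.Agent.Lib.MP_37d555_gt

open MeasureTheory Filter Topology

variable {n : ℕ} {g : E n → ℝ}

namespace IsNormF

theorem zero (hg : IsNormF g) : g 0 = 0 := by
  have := hg.smul 0 0
  simpa using this

theorem nonneg (hg : IsNormF g) (x : E n) : 0 ≤ g x := by
  by_cases h : x = 0
  · rw [h, hg.zero]
  · exact (hg.pos x h).le

theorem neg (hg : IsNormF g) (x : E n) : g (-x) = g x := by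
  have := hg.smul (-1) x
  simpa using this

theorem smul_pos (hg : IsNormF g) {t : ℝ} (ht : 0 ≤ t) (x : E n) : g (t • x) = t * g x := by
  rw [hg.smul, abs_of_nonneg ht]

theorem eq_zero_iff (hg : IsNormF g) (x : E n) : g x = 0 ↔ x = 0 := by
  constructor
  · intro h
    by_contra hx
    exact (hg.pos x hx).ne' h
  · rintro rfl
    exact hg.zero

theorem sub_le (hg : IsNormF g) (x y : E n) : g x - g y ≤ g (x - y) := by
  have := hg.add (x - y) y
  rw [sub_add_cancel] at this
  linarith

theorem abs_sub_le (hg : IsNormF g) (x y : E n) : |g x - g y| ≤ g (x - y) := by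
  rw [abs_le]
  constructor
  · have := hg.sub_le y x
    rw [← hg.neg (y - x), neg_sub] at this
    linarith
  · exact hg.sub_le x y

theorem sum_le (hg : IsNormF g) {ι : Type*} (s : Finset ι) (f : ι → E n) :
    g (∑ i ∈ s, f i) ≤ ∑ i ∈ s, g (f i) := by
  classical
  induction s using Finset.induction_on with
  | empty => simp [hg.zero]
  | insert a s ha ih =>
    rw [Finset.sum_insert ha, Finset.sum_insert ha]
    exact (hg.add _ _).trans (by linarith)

/-- Upper bound by the Euclidean norm. -/
theorem exists_upper (hg : IsNormF g) : ∃ C : ℝ, 0 < C ∧ ∀ x, g x ≤ C * ‖x‖ := by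
  classical
  let b := EuclideanSpace.basisFun (Fin n) ℝ
  refine ⟨(∑ i, g (b i)) + 1, ?_, ?_⟩
  · have : 0 ≤ ∑ i, g (b i) := Finset.sum_nonneg fun i _ => hg.nonneg _
    linarith
  · intro x
    have h1 : x = ∑ i, (x i) • b i := by
      have := b.sum_repr x
      conv_lhs => rw [← this]
      rfl
    have h2 : g x ≤ ∑ i, g ((x i) • b i) := by
      conv_lhs => rw [h1]
      exact hg.sum_le _ _
    refine h2.trans ?_
    have h3 : ∀ i ∈ Finset.univ, g ((x i) • b i) ≤ ‖x‖ * g (b i) := by
      intro i _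
      rw [hg.smul]
      refine mul_le_mul_of_nonneg_right ?_ (hg.nonneg _)
      have := EuclideanSpace.norm_eq x
      have h4 := PiLp.norm_apply_le x i
      simpa [Real.norm_eq_abs] using h4
    refine (Finset.sum_le_sum h3).trans ?_
    rw [← Finset.mul_sum]
    nlinarith [norm_nonneg x]

theorem exists_lipschitz (hg : IsNormF g) : ∃ C : NNReal, LipschitzWith C g := by
  obtain ⟨C, hC, h⟩ := hg.exists_upper
  refine ⟨⟨C, hC.le⟩, LipschitzWith.of_dist_le_mul fun x y => ?_⟩
  rw [Real.dist_eq, dist_eq_norm]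
  exact (hg.abs_sub_le x y).trans (h _)

theorem continuous (hg : IsNormF g) : Continuous g := by
  obtain ⟨C, h⟩ := hg.exists_lipschitz
  exact h.continuous

theorem ae_differentiableAt (hg : IsNormF g) : ∀ᵐ x : E n, DifferentiableAt ℝ g x := by
  obtain ⟨C, h⟩ := hg.exists_lipschitz
  exact h.ae_differentiableAt

theorem dense_differentiableAt (hg : IsNormF g) : Dense {x : E n | DifferentiableAt ℝ g x} :=
  Measure.dense_of_ae hg.ae_differentiableAt

/-- Lower bound by the Euclidean norm. -/
theorem exists_lower (hg : IsNormF g) : ∃ c : ℝ, 0 < c ∧ ∀ x, c * ‖x‖ ≤ g x := by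
  by_cases hne : (Metric.sphere (0 : E n) 1).Nonempty
  · obtain ⟨x0, hx0, hmin⟩ := (isCompact_sphere (0 : E n) 1).exists_isMinOn hne
      hg.continuous.continuousOn
    have hx0' : x0 ≠ 0 := by
      rintro rfl
      simp at hx0
    refine ⟨g x0, hg.pos _ hx0', fun x => ?_⟩
    by_cases hx : x = 0
    · subst hx; simp [hg.zero]
    · have hn : 0 < ‖x‖ := norm_pos_iff.mpr hx
      have h1 : ‖x‖⁻¹ • x ∈ Metric.sphere (0 : E n) 1 := by
        simp [norm_smul, hn.ne']
      have h2 : g x0 ≤ g (‖x‖⁻¹ • x) := hmin h1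
      rw [hg.smul_pos (by positivity)] at h2
      rw [← div_eq_inv_mul, le_div_iff₀ hn] at h2
      exact h2
  · refine ⟨1, one_pos, fun x => ?_⟩
    by_cases hx : x = 0
    · subst hx; simp [hg.zero]
    · exfalso
      apply hne
      have hn : 0 < ‖x‖ := norm_pos_iff.mpr hx
      exact ⟨‖x‖⁻¹ • x, by simp [norm_smul, hn.ne']⟩

theorem convexOn (hg : IsNormF g) : ConvexOn ℝ Set.univ g := by
  refine ⟨convex_univ, fun x _ y _ a b ha hb _ => ?_⟩
  refine (hg.add _ _).trans ?_
  rw [hg.smul_pos ha, hg.smul_pos hb]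
  simp

theorem mem_ball {x : E n} : x ∈ ball g ↔ g x ≤ 1 := Iff.rfl

theorem convex_ball (hg : IsNormF g) : Convex ℝ (ball g) := by
  have := hg.convexOn.convex_le 1
  simpa [ball] using this

theorem isClosed_ball (hg : IsNormF g) : IsClosed (ball g) :=
  isClosed_le hg.continuous continuous_const

theorem measurableSet_ball (hg : IsNormF g) : MeasurableSet (ball g) :=
  hg.isClosed_ball.measurableSet

theorem isCompact_ball (hg : IsNormF g) : IsCompact (ball g) := by
  obtain ⟨c, hc, h⟩ := hg.exists_lower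
  refine (isCompact_closedBall (0 : E n) (1 / c)).of_isClosed_subset hg.isClosed_ball ?_
  intro x hx
  rw [mem_closedBall_zero_iff, le_div_iff₀ hc]
  have := (h x).trans hx
  linarith

theorem measure_ball_lt_top (hg : IsNormF g) : volume (ball g) < ⊤ :=
  hg.isCompact_ball.measure_lt_top

theorem isOpen_lt (hg : IsNormF g) : IsOpen {x : E n | g x < 1} :=
  _root_.isOpen_lt hg.continuous continuous_const

theorem measure_ball_pos (hg : IsNormF g) : 0 < volume (ball g) := by
  have h1 : {x : E n | g x < 1} ⊆ ball g := fun x hx => mem_ball.2 (le_of_lt hx)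
  refine lt_of_lt_of_le ?_ (measure_mono h1)
  exact hg.isOpen_lt.measure_pos _ ⟨0, by simp [hg.zero]⟩

theorem interior_ball (hg : IsNormF g) : {x : E n | g x < 1} ⊆ interior (ball g) :=
  interior_maximal (fun _ hx => mem_ball.2 (le_of_lt hx)) hg.isOpen_lt

/-! ### derivatives -/

theorem hasDerivAt_line (_hg : IsNormF g) {x : E n} (hx : DifferentiableAt ℝ g x) (v : E n) :
    HasDerivAt (fun t : ℝ => g (x + t • v)) (fderiv ℝ g x v) 0 := by
  have h1 : HasDerivAt (fun t : ℝ => x + t • v) v 0 := by
    have := ((hasDerivAt_id (0 : ℝ)).smul_const v).const_add x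
    simpa using this
  have h2 : HasFDerivAt g (fderiv ℝ g x) (x + (0 : ℝ) • v) := by
    simpa using hx.hasFDerivAt
  exact h2.comp_hasDerivAt (0 : ℝ) h1

/-- Euler's relation. -/
theorem fderiv_self (hg : IsNormF g) {x : E n} (hx : DifferentiableAt ℝ g x) :
    fderiv ℝ g x x = g x := by
  have h1 := hg.hasDerivAt_line hx x
  have h2 : HasDerivAt (fun t : ℝ => (1 + t) * g x) (g x) 0 := by
    have := ((hasDerivAt_id (0 : ℝ)).const_add 1).mul_const (g x)
    simpa using this
  have h3 : (fun t : ℝ => g (x + t • x)) =ᶠ[𝓝 0] fun t => (1 + t) * g x := by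
    have : ∀ᶠ t : ℝ in 𝓝 0, -1 < t := lt_mem_nhds (by norm_num)
    filter_upwards [this] with t ht
    have h4 : x + t • x = (1 + t) • x := by rw [add_smul, one_smul]
    rw [h4, hg.smul_pos (by linarith)]
  exact (h1.congr_of_eventuallyEq h3.symm).unique h2

/-- The derivative is a subgradient. -/
theorem add_fderiv_le (hg : IsNormF g) {x : E n} (hx : DifferentiableAt ℝ g x) (v : E n) :
    g x + fderiv ℝ g x v ≤ g (x + v) := by
  have h1 := hg.hasDerivAt_line hx v
  have hconv : ConvexOn ℝ Set.univ (fun t : ℝ => g (x + t • v)) := by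
    refine ⟨convex_univ, fun s _ t _ a b ha hb hab => ?_⟩
    have h2 : x + (a • s + b • t) • v = a • (x + s • v) + b • (x + t • v) := by
      have h3 : x = a • x + b • x := by rw [← add_smul, hab, one_smul]
      conv_lhs => rw [h3]
      simp only [smul_eq_mul, add_smul, smul_add, mul_smul]
      abel
    simp only [h2]
    exact hg.convexOn.2 (Set.mem_univ _) (Set.mem_univ _) ha hb hab
  have h4 := hconv.le_slope_of_hasDerivAt (Set.mem_univ (0:ℝ)) (Set.mem_univ (1:ℝ)) one_pos h1
  rw [slope_def_field] at h4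
  simp only [one_smul, zero_smul, add_zero, sub_zero, div_one] at h4
  linarith

theorem fderiv_le (hg : IsNormF g) (x v : E n) : fderiv ℝ g x v ≤ g v := by
  by_cases hx : DifferentiableAt ℝ g x
  · have h1 := hg.add_fderiv_le hx v
    have h2 := hg.add x v
    linarith
  · rw [fderiv_zero_of_not_differentiableAt hx]
    exact hg.nonneg v

theorem abs_fderiv_le (hg : IsNormF g) (x v : E n) : |fderiv ℝ g x v| ≤ g v := by
  rw [abs_le]
  constructor
  · have h1 := hg.fderiv_le x (-v)
    rw [hg.neg, map_neg] at h1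
    linarith
  · exact hg.fderiv_le x v

/-- Uniqueness of the subgradient at a point of differentiability. -/
theorem eq_fderiv (hg : IsNormF g) {x : E n} (hx : DifferentiableAt ℝ g x) (p : E n →L[ℝ] ℝ)
    (h1 : ∀ z, p z ≤ g z) (h2 : p x = g x) : p = fderiv ℝ g x := by
  ext v
  have h3 : HasDerivAt (fun t : ℝ => g (x + t • v) - p (x + t • v)) (fderiv ℝ g x v - p v) 0 := by
    have h4 : HasDerivAt (fun t : ℝ => p (x + t • v)) (p v) 0 := by
      have h5 : (fun t : ℝ => p (x + t • v)) = fun t => p x + t * p v := by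
        funext t; simp
      rw [h5]
      have := ((hasDerivAt_id (0 : ℝ)).mul_const (p v)).const_add (p x)
      simpa using this
    exact (hg.hasDerivAt_line hx v).sub h4
  have h6 : IsLocalMin (fun t : ℝ => g (x + t • v) - p (x + t • v)) 0 := by
    refine Filter.Eventually.of_forall fun t => ?_
    have := h1 (x + t • v)
    simp only [zero_smul, add_zero, h2]
    linarith
  have h7 := h6.hasDerivAt_eq_zero h3
  linarith

/-- Linear version of the uniqueness. -/
theorem eq_fderiv' (hg : IsNormF g) {x : E n} (hx : DifferentiableAt ℝ g x) (p : E n →ₗ[ℝ] ℝ)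
    (h1 : ∀ z, p z ≤ g z) (h2 : p x = g x) (v : E n) : p v = fderiv ℝ g x v := by
  have := hg.eq_fderiv hx (LinearMap.toContinuousLinearMap p) h1 h2
  rw [← this]
  rfl

/-- Homogeneity of the derivative. -/
theorem hasFDerivAt_smul (hg : IsNormF g) {x : E n} (hx : DifferentiableAt ℝ g x) {t : ℝ}
    (ht : 0 < t) : HasFDerivAt g (fderiv ℝ g x) (t • x) := by
  have h1 : g = fun y => t * g (t⁻¹ • y) := by
    funext y
    rw [hg.smul_pos (by positivity)]
    field_simp
  have h2 : HasFDerivAt (fun y : E n => t⁻¹ • y) (t⁻¹ • ContinuousLinearMap.id ℝ (E n)) (t • x) :=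
    (ContinuousLinearMap.id ℝ (E n)).hasFDerivAt.const_smul t⁻¹
  have h3 : HasFDerivAt g (fderiv ℝ g x) (t⁻¹ • (t • x)) := by
    rw [smul_smul, inv_mul_cancel₀ ht.ne', one_smul]
    exact hx.hasFDerivAt
  have h4 := (h3.comp (t • x) h2).const_mul t
  have h5 : HasFDerivAt g (t • ((fderiv ℝ g x).comp (t⁻¹ • ContinuousLinearMap.id ℝ (E n))))
      (t • x) := by
    refine h4.congr_of_eventuallyEq (Eventually.of_forall fun y => ?_)
    exact congrFun h1 y
  refine h5.congr_fderiv ?_
  ext v
  simp only [_root_.smul_apply, ContinuousLinearMap.comp_apply,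
    ContinuousLinearMap.id_apply, map_smul, smul_eq_mul]
  rw [← mul_assoc, mul_inv_cancel₀ ht.ne', one_mul]

theorem differentiableAt_smul (hg : IsNormF g) {x : E n} (hx : DifferentiableAt ℝ g x) {t : ℝ}
    (ht : 0 < t) : DifferentiableAt ℝ g (t • x) :=
  (hg.hasFDerivAt_smul hx ht).differentiableAt

theorem fderiv_smul_pos (hg : IsNormF g) {x : E n} (hx : DifferentiableAt ℝ g x) {t : ℝ}
    (ht : 0 < t) : fderiv ℝ g (t • x) = fderiv ℝ g x :=
  (hg.hasFDerivAt_smul hx ht).fderiv

theorem hasFDerivAt_neg (hg : IsNormF g) {x : E n} (hx : DifferentiableAt ℝ g x) :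
    HasFDerivAt g (-fderiv ℝ g x) (-x) := by
  have h1 : g = fun y => g (-y) := by
    funext y
    rw [hg.neg]
  have h2 : HasFDerivAt (fun y : E n => -y) (-ContinuousLinearMap.id ℝ (E n)) (-x) :=
    (hasFDerivAt_id (-x)).neg
  have h3 : HasFDerivAt g (fderiv ℝ g x) (-(-x)) := by
    rw [neg_neg]
    exact hx.hasFDerivAt
  have h4 := h3.comp (-x) h2
  have h5 : HasFDerivAt g ((fderiv ℝ g x).comp (-ContinuousLinearMap.id ℝ (E n))) (-x) := by
    refine h4.congr_of_eventuallyEq (Eventually.of_forall fun y => ?_)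
    exact congrFun h1 y
  refine h5.congr_fderiv ?_
  ext v
  simp

theorem fderiv_neg (hg : IsNormF g) {x : E n} (hx : DifferentiableAt ℝ g x) :
    fderiv ℝ g (-x) = -fderiv ℝ g x :=
  (hg.hasFDerivAt_neg hx).fderiv

/-- `g` is not differentiable at the origin (if `n ≥ 1`). -/
theorem ne_zero_of_differentiableAt (hg : IsNormF g) (hn : 1 ≤ n) {x : E n}
    (hx : DifferentiableAt ℝ g x) : x ≠ 0 := by
  rintro rfl
  have : Nonempty (Fin n) := ⟨⟨0, hn⟩⟩
  obtain ⟨v, hv⟩ := exists_ne (0 : E n)
  have h1 := hg.add_fderiv_le hx v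
  have h2 := hg.fderiv_neg hx
  rw [neg_zero] at h2
  have h3 : fderiv ℝ g 0 v = 0 := by
    have : fderiv ℝ g 0 v = -fderiv ℝ g 0 v := by
      conv_lhs => rw [h2]
      rfl
    linarith
  have h4 := hg.hasDerivAt_line hx v
  rw [h3] at h4
  have h5 : HasDerivWithinAt (fun t : ℝ => g (0 + t • v)) 0 (Set.Ici 0) 0 := h4.hasDerivWithinAt
  have h6 : HasDerivWithinAt (fun t : ℝ => g (0 + t • v)) (g v) (Set.Ici 0) 0 := by
    have h7 : HasDerivWithinAt (fun t : ℝ => t * g v) (g v) (Set.Ici 0) 0 := by
      have := ((hasDerivAt_id (0 : ℝ)).mul_const (g v)).hasDerivWithinAt (s := Set.Ici 0)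
      simpa using this
    refine h7.congr (fun t ht => ?_) ?_
    · rw [zero_add, hg.smul_pos ht]
    · simp [hg.zero]
  have h8 := (uniqueDiffOn_Ici (0:ℝ)).eq (x := 0) (by simp) h5.hasFDerivWithinAt h6.hasFDerivWithinAt
  have h9 := congrArg (fun L : ℝ →L[ℝ] ℝ => L 1) h8
  simp at h9
  exact (hg.pos v hv).ne' h9.symm

/-- Convergence of derivatives at a point of differentiability. -/
theorem tendsto_fderiv (hg : IsNormF g) {ι : Type*} {l : Filter ι} {x : E n}
    (hx : DifferentiableAt ℝ g x) {u : ι → E n} (hu : Tendsto u l (𝓝 x))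
    (hd : ∀ᶠ i in l, DifferentiableAt ℝ g (u i)) (v : E n) :
    Tendsto (fun i => fderiv ℝ g (u i) v) l (𝓝 (fderiv ℝ g x v)) := by
  -- upper bound in every direction
  have key : ∀ v : E n, ∀ ε > 0, ∀ᶠ i in l, fderiv ℝ g (u i) v < fderiv ℝ g x v + ε := by
    intro v ε hε
    have h1 := hg.hasDerivAt_line hx v
    rw [hasDerivAt_iff_tendsto_slope] at h1
    have h2 : ∀ᶠ t in 𝓝[≠] (0:ℝ), slope (fun t : ℝ => g (x + t • v)) 0 t
        < fderiv ℝ g x v + ε / 2 :=
      h1.eventually_lt_const (by linarith)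
    have h3 : ∀ᶠ t in 𝓝[>] (0:ℝ), slope (fun t : ℝ => g (x + t • v)) 0 t
        < fderiv ℝ g x v + ε / 2 :=
      h2.filter_mono (nhdsWithin_mono _ (fun t ht => (ne_of_gt ht)))
    obtain ⟨t, ht1, ht2⟩ := (h3.and self_mem_nhdsWithin).exists
    have ht : 0 < t := ht2
    rw [slope_def_field] at ht1
    simp only [zero_smul, add_zero, sub_zero] at ht1
    have h4 : Tendsto (fun i => (g (u i + t • v) - g (u i)) / t) l
        (𝓝 ((g (x + t • v) - g x) / t)) := by
      refine Tendsto.div_const ?_ _
      exact ((hg.continuous.tendsto _).comp (hu.add_const _)).sub ((hg.continuous.tendsto _).comp hu)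
    have h5 : ∀ᶠ i in l, (g (u i + t • v) - g (u i)) / t < fderiv ℝ g x v + ε :=
      h4.eventually_lt_const (by linarith)
    filter_upwards [h5, hd] with i hi hdi
    have h6 := hg.add_fderiv_le hdi (t • v)
    rw [map_smul, smul_eq_mul] at h6
    have h7 : fderiv ℝ g (u i) v ≤ (g (u i + t • v) - g (u i)) / t := by
      rw [le_div_iff₀ ht]
      linarith
    linarith
  rw [Metric.tendsto_nhds]
  intro ε hε
  filter_upwards [key v ε hε, key (-v) ε hε] with i h1 h2
  rw [map_neg, map_neg] at h2
  rw [Real.dist_eq, abs_lt]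
  constructor <;> linarith

/-! ### measurability and integrability -/

theorem measurable_fderiv_apply (_hg : IsNormF g) (v : E n) :
    Measurable (fun x => fderiv ℝ g x v) :=
  measurable_fderiv_apply_const ℝ g v

theorem integrableOn_fderiv (hg : IsNormF g) (v : E n) :
    IntegrableOn (fun x => fderiv ℝ g x v) (ball g) := by
  refine Measure.integrableOn_of_bounded (M := g v) hg.measure_ball_lt_top.ne
    (hg.measurable_fderiv_apply v).aestronglyMeasurable ?_
  exact Filter.Eventually.of_forall fun x => by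
    rw [Real.norm_eq_abs]
    exact hg.abs_fderiv_le x v

theorem integrableOn_abs_fderiv (hg : IsNormF g) (v : E n) :
    IntegrableOn (fun x => |fderiv ℝ g x v|) (ball g) :=
  (hg.integrableOn_fderiv v).abs

theorem M_nonneg (_hg : IsNormF g) (u : E n) : 0 ≤ M g u :=
  integral_nonneg fun _ => abs_nonneg _

theorem M_neg (_hg : IsNormF g) (u : E n) : M g (-u) = M g u := by
  unfold M
  congr 1
  funext x
  rw [map_neg, abs_neg]

theorem M_smul (_hg : IsNormF g) (t : ℝ) (u : E n) : M g (t • u) = |t| * M g u := by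
  unfold M
  rw [← integral_const_mul]
  congr 1
  funext x
  rw [map_smul, smul_eq_mul, abs_mul]

theorem M_add (hg : IsNormF g) (u v : E n) : M g (u + v) ≤ M g u + M g v := by
  unfold M
  rw [← integral_add (hg.integrableOn_abs_fderiv u) (hg.integrableOn_abs_fderiv v)]
  refine integral_mono (hg.integrableOn_abs_fderiv _)
    ((hg.integrableOn_abs_fderiv u).add (hg.integrableOn_abs_fderiv v)) fun x => ?_
  simp only [map_add]
  exact abs_add_le _ _

theorem M_le (hg : IsNormF g) (u : E n) : M g u ≤ volume.real (ball g) * g u := by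
  unfold M
  have h1 : IntegrableOn (fun _ : E n => g u) (ball g) :=
    integrableOn_const hg.measure_ball_lt_top.ne
  have h2 := integral_mono (hg.integrableOn_abs_fderiv u) h1 (fun x => hg.abs_fderiv_le x u)
  refine h2.trans ?_
  rw [integral_const]
  simp

theorem M_continuous (hg : IsNormF g) : Continuous (M g) := by
  obtain ⟨C, hC, h⟩ := hg.exists_upper
  have hL : LipschitzWith (Real.toNNReal (volume.real (ball g) * C)) (M g) := by
    refine LipschitzWith.of_dist_le_mul fun x y => ?_
    rw [Real.dist_eq, dist_eq_norm, Real.coe_toNNReal _ (by positivity)]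
    have hb : ∀ a b : E n, M g a - M g b ≤ volume.real (ball g) * C * ‖a - b‖ := by
      intro a b
      have h1 := hg.M_add (a - b) b
      rw [sub_add_cancel] at h1
      have h2 := hg.M_le (a - b)
      have h3 := h (a - b)
      have h4 : (0:ℝ) ≤ volume.real (ball g) := by positivity
      have h5 := mul_le_mul_of_nonneg_left h3 h4
      have h6 : volume.real (ball g) * (C * ‖a - b‖) = volume.real (ball g) * C * ‖a - b‖ := by ring
      linarith
    rw [abs_le]
    constructor
    · have := hb y x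
      rw [norm_sub_rev] at this
      linarith
    · exact hb x y
  exact hL.continuous

end IsNormF

end Pool.Agent.Lib.MP_37d555_gt
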