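import Mathlib

/-!
# MP_37d555_gt: centered convex bodies whose projection body is homothetic to the polar

Definitions. `E n` is Euclidean `n`-space, `g` is a norm on it (the gauge of the body `K`),
`ball g = {g ≤ 1}` is the body, `M g u = ∫_K |∂_u g|` is (up to a constant depending only on `n`) the
support function of the projection body, and `Star g y` says that `g` is differentiable at `y` and that
the projection along `y` onto the hyperplane parallel to the tangent hyperplane at `y` does not increase `g`.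
-/

set_option autoImplicit false

namespace Pool.Agent.Lib.MP_37d555_gt

open MeasureTheory

/-- Euclidean `n`-space. -/
abbrev E (n : ℕ) : Type := EuclideanSpace ℝ (Fin n)

/-- `g` is a norm on `ℝ^n`. -/
structure IsNormF {n : ℕ} (g : E n → ℝ) : Prop where
  smul : ∀ (t : ℝ) (x : E n), g (t • x) = |t| * g x
  add : ∀ x y : E n, g (x + y) ≤ g x + g y
  pos : ∀ x : E n, x ≠ 0 → 0 < g x

/-- The unit ball of `g`. -/
def ball {n : ℕ} (g : E n → ℝ) : Set (E n) := {x | g x ≤ 1}

/-- `M g u = ∫_{g ≤ 1} |∂_u g|`. -/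
noncomputable def M {n : ℕ} (g : E n → ℝ) (u : E n) : ℝ :=
  ∫ x in ball g, |fderiv ℝ g x u|

/-- `g` is differentiable at `y` and `g w ≤ g (w + s y)` for all `w` in the kernel of the derivative at `y`. -/
def Star {n : ℕ} (g : E n → ℝ) (y : E n) : Prop :=
  DifferentiableAt ℝ g y ∧ ∀ w : E n, fderiv ℝ g y w = 0 → ∀ s : ℝ, g w ≤ g (w + s • y)

/-- `g` is differentiable away from the origin. -/
def Smooth {n : ℕ} (g : E n → ℝ) : Prop := ∀ x : E n, x ≠ 0 → DifferentiableAt ℝ g x

/-- Birkhoff orthogonality for `g` is symmetric. -/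
def Symm {n : ℕ} (g : E n → ℝ) : Prop :=
  ∀ x y : E n, x ≠ 0 → y ≠ 0 → fderiv ℝ g x y = 0 → fderiv ℝ g y x = 0

/-- Pythagoras for orthogonal pairs. -/
def Pyth {n : ℕ} (g : E n → ℝ) : Prop :=
  ∀ x y : E n, x ≠ 0 → fderiv ℝ g x y = 0 → g (x + y) ^ 2 = g x ^ 2 + g y ^ 2

end Pool.Agent.Lib.MP_37d555_gt
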