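import Pool.Agent.Lib.MP_37d555_gt.Symm

/-!
# Module ELL
-/

set_option autoImplicit false

namespace Pool.Agent.Lib.MP_37d555_gt

open MeasureTheory Filter Topology

namespace Ell

variable {n : ℕ} {g : E n → ℝ}

/-- Scaling the base point keeps orthogonality. -/
theorem orth_smul (hsym : Symm g) {x y : E n} (hx : x ≠ 0) {t : ℝ} (ht : t ≠ 0)
    (h : fderiv ℝ g x y = 0) : fderiv ℝ g (t • x) y = 0 := by
  by_cases hy : y = 0
  · rw [hy, map_zero]
  · have h1 := hsym x y hx hy h
    have h2 : fderiv ℝ g y (t • x) = 0 := by rw [map_smul, h1, smul_zero]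
    exact hsym y (t • x) hy (smul_ne_zero ht hx) h2

/-- Orthonormal systems. -/
theorem exists_system (hg : IsNormF g) (hsym : Symm g) :
    ∀ k : ℕ, k ≤ n → ∃ e : Fin k → E n, (∀ i, g (e i) = 1) ∧
      ∀ i j, i ≠ j → fderiv ℝ g (e i) (e j) = 0 := by
  intro k
  induction k with
  | zero => intro _; exact ⟨fun i => i.elim0, fun i => i.elim0, fun i => i.elim0⟩
  | succ k ih =>
    intro hk
    obtain ⟨e, he1, he2⟩ := ih (by omega)
    have hne : ∀ i, e i ≠ 0 := by
      intro i h
      have := he1 i
      rw [h, Symm.zero hg] at this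
      exact zero_ne_one this
    let F : E n →ₗ[ℝ] (Fin k → ℝ) := LinearMap.pi fun i => (fderiv ℝ g (e i) : E n →ₗ[ℝ] ℝ)
    have hF : LinearMap.ker F ≠ ⊥ := by
      apply LinearMap.ker_ne_bot_of_finrank_lt
      rw [Module.finrank_fin_fun, finrank_euclideanSpace_fin]
      omega
    obtain ⟨w, hw, hw0⟩ := Submodule.exists_mem_ne_zero_of_ne_bot hF
    have hwk : ∀ i, fderiv ℝ g (e i) w = 0 := by
      intro i
      have := LinearMap.mem_ker.mp hw
      exact congrFun this i
    have hgw := hg.pos w hw0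
    set w' : E n := (g w)⁻¹ • w with hw'
    have hw'0 : w' ≠ 0 := smul_ne_zero (inv_ne_zero hgw.ne') hw0
    have hgw' : g w' = 1 := by
      rw [hw', hg.smul, abs_of_pos (inv_pos.mpr hgw), inv_mul_cancel₀ hgw.ne']
    have hwk' : ∀ i, fderiv ℝ g (e i) w' = 0 := by
      intro i
      rw [hw', map_smul, hwk i, smul_zero]
    refine ⟨Fin.cons w' e, ?_, ?_⟩
    · intro i
      refine Fin.cases ?_ (fun i => ?_) i
      · simpa using hgw'
      · simpa using he1 i
    · intro i
      refine Fin.cases ?_ (fun i => ?_) i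
      · intro j
        refine Fin.cases ?_ (fun j => ?_) j
        · intro h; exact absurd rfl h
        · intro _
          simp only [Fin.cons_zero, Fin.cons_succ]
          exact hsym (e j) w' (hne j) hw'0 (hwk' j)
      · intro j
        refine Fin.cases ?_ (fun j => ?_) j
        · intro _
          simp only [Fin.cons_zero, Fin.cons_succ]
          exact hwk' i
        · intro h
          simp only [Fin.cons_succ]
          exact he2 i j (fun h' => h (by rw [h']))

theorem sum_sq (hg : IsNormF g) (hsym : Symm g) (hp : Pyth g) {k : ℕ} (e : Fin k → E n)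
    (he1 : ∀ i, g (e i) = 1) (he2 : ∀ i j, i ≠ j → fderiv ℝ g (e i) (e j) = 0)
    (t : Fin k → ℝ) (s : Finset (Fin k)) :
    g (∑ i ∈ s, t i • e i) ^ 2 = ∑ i ∈ s, t i ^ 2 := by
  classical
  have hne : ∀ i, e i ≠ 0 := by
    intro i h
    have := he1 i
    rw [h, Symm.zero hg] at this
    exact zero_ne_one this
  induction s using Finset.induction_on with
  | empty => simp [Symm.zero hg]
  | insert j s hj ih =>
    rw [Finset.sum_insert hj, Finset.sum_insert hj]
    by_cases ht : t j = 0
    · rw [ht, zero_smul, zero_add, ih]; simp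
    · have h1 : fderiv ℝ g (e j) (∑ i ∈ s, t i • e i) = 0 := by
        rw [map_sum]
        apply Finset.sum_eq_zero
        intro i hi
        rw [map_smul, he2 j i (fun h => hj (h ▸ hi)), smul_zero]
      have h2 := orth_smul hsym (hne j) ht h1
      rw [hp (t j • e j) _ (smul_ne_zero ht (hne j)) h2, ih, hg.smul, he1, mul_one, sq_abs]

end Ell

open Ell in
theorem specEll : SpecEll := by
  intro n g _ hg _ hsym hp
  obtain ⟨e, he1, he2⟩ := exists_system hg hsym n le_rfl
  let A₀ : E n →ₗ[ℝ] E n := 
    { toFun := fun x => ∑ i, x i • e i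
      map_add' := by
        intro x y
        simp only [PiLp.add_apply, add_smul, Finset.sum_add_distrib]
      map_smul' := by
        intro c x
        simp only [PiLp.smul_apply, smul_eq_mul, mul_smul, RingHom.id_apply, Finset.smul_sum] }
  have hA₀ : ∀ x : E n, g (A₀ x) ^ 2 = ‖x‖ ^ 2 := by
    intro x
    rw [EuclideanSpace.real_norm_sq_eq]
    exact sum_sq hg hsym hp e he1 he2 (fun i => x i) Finset.univ
  have hinj : Function.Injective A₀ := by
    rw [← LinearMap.ker_eq_bot, LinearMap.ker_eq_bot']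
    intro x hx
    have := hA₀ x
    rw [hx, Symm.zero hg] at this
    have h0 : ‖x‖ = 0 := by nlinarith [norm_nonneg x]
    exact norm_eq_zero.mp h0
  refine ⟨(LinearEquiv.ofInjectiveEndo A₀ hinj).toContinuousLinearEquiv, ?_⟩
  intro x
  have h1 := hA₀ x
  have h2 : g (A₀ x) = ‖x‖ := by
    have h3 := Symm.nonneg hg (A₀ x)
    nlinarith [norm_nonneg x, sq_nonneg (g (A₀ x) - ‖x‖), sq_nonneg (g (A₀ x) + ‖x‖)]
  exact h2

end Pool.Agent.Lib.MP_37d555_gt
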