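import Pool.Agent.Lib.MP_37d555_gt.Spec
import Pool.Agent.Lib.MP_37d555_gt.Basic

/-! MP_37d555_gt: the final assembly from the module statements. -/

set_option autoImplicit false

namespace Pool.Agent.Lib.MP_37d555_gt

open MeasureTheory

theorem assemble (hGauge : SpecGauge) (hProj : SpecProj) (hWulff : SpecWulff) (hSign : SpecSign)
    (hSmooth : SpecSmooth) (hSymm : SpecSymm) (hPyth : SpecPyth) (hEll : SpecEll) :
    ∀ n : ℕ, 3 ≤ n →
      ∀ K : Set (EuclideanSpace ℝ (Fin n)),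
        IsCompact K → Convex ℝ K → (interior K).Nonempty → (∀ x ∈ K, -x ∈ K) →
        (∃ c : ℝ, 0 < c ∧ ∃ t : EuclideanSpace ℝ (Fin n),
          {y : EuclideanSpace ℝ (Fin n) |
              ∀ u : EuclideanSpace ℝ (Fin n), ‖u‖ = 1 →
                inner ℝ y u ≤
                  (MeasureTheory.Measure.hausdorffMeasure ((n : ℝ) - 1)
                    ((fun x : EuclideanSpace ℝ (Fin n) => x - inner ℝ x u • u) '' K)).toReal}
            = (fun y : EuclideanSpace ℝ (Fin n) => c • y + t) ''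
                {y : EuclideanSpace ℝ (Fin n) | ∀ x ∈ K, inner ℝ x y ≤ 1}) →
        ∃ A : EuclideanSpace ℝ (Fin n) ≃L[ℝ] EuclideanSpace ℝ (Fin n),
          ∃ v : EuclideanSpace ℝ (Fin n),
            K = (fun x : EuclideanSpace ℝ (Fin n) => A x + v) '' Metric.closedBall 0 1 := by
  intro n hn K hKc hKconv hKint hKsymm hyp
  have hn1 : 1 ≤ n := by omega
  obtain ⟨hg, hball⟩ := hGauge n K hKc hKconv hKint hKsymm
  obtain ⟨κ, hκ, hP⟩ := hProj n hn1
  obtain ⟨c, hc, t, hW⟩ := hyp
  have hW' : {y : E n | ∀ u : E n, ‖u‖ = 1 → inner ℝ y u ≤ κ * M (gauge K) u}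
      = (fun y : E n => c • y + t) '' {y : E n | ∀ x ∈ ball (gauge K), inner ℝ x y ≤ 1} := by
    rw [hball, ← hW]
    ext y
    simp only [Set.mem_ofPred_eq]
    refine forall_congr' fun u => forall_congr' fun hu => ?_
    rw [← hP (gauge K) hg u hu, hball]
  have hM := hWulff n (gauge K) hn1 hg κ c t hκ hc hW'
  have hD := hSign n (gauge K) hn1 hg hM
  have hS := hSmooth n (gauge K) hn hg hD
  have hY := hSymm n (gauge K) hn1 hg hD hS
  have hPy := hPyth n (gauge K) hn hg hS hY
  obtain ⟨A, hA⟩ := hEll n (gauge K) hn1 hg hS hY hPy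
  refine ⟨A, 0, ?_⟩
  ext x
  constructor
  · intro hx
    refine ⟨A.symm x, ?_, by simp⟩
    rw [mem_closedBall_zero_iff, ← hA]
    rw [← hball] at hx
    simpa [ball] using hx
  · rintro ⟨y, hy, rfl⟩
    rw [mem_closedBall_zero_iff, ← hA] at hy
    rw [← hball]
    simpa [ball] using hy

end Pool.Agent.Lib.MP_37d555_gt
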