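import Pool.Agent.Lib.MP_37d555_gt.Spec

/-!
# GAUGE: the gauge of a centered convex body is a norm
-/

set_option autoImplicit false

namespace Pool.Agent.Lib.MP_37d555_gt

open Topology

theorem specGauge : SpecGauge := by
  intro n K hK hconv hint hsymm
  obtain ⟨x, hx⟩ := hint
  have h0 : (0 : E n) ∈ interior K := by
    have h1 := hconv.openSegment_interior_self_subset_interior hx (hsymm x (interior_subset hx))
    apply h1
    refine ⟨1 / 2, 1 / 2, by norm_num, by norm_num, by norm_num, ?_⟩
    rw [smul_neg, add_neg_cancel]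
  have hnhds : K ∈ 𝓝 (0 : E n) := mem_interior_iff_mem_nhds.1 h0
  have habs : Absorbent ℝ K := absorbent_nhds_zero hnhds
  have hbdd : Bornology.IsVonNBounded ℝ K :=
    NormedSpace.isVonNBounded_of_isBounded ℝ hK.isBounded
  refine ⟨⟨fun t y => ?_, fun y z => gauge_add_le hconv habs y z, fun y hy => ?_⟩, ?_⟩
  · rcases le_total 0 t with ht | ht
    · rw [gauge_smul_of_nonneg ht, abs_of_nonneg ht, smul_eq_mul]
    · have h1 : t • y = |t| • (-y) := by
        rw [abs_of_nonpos ht, smul_neg, neg_smul, neg_neg]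
      rw [h1, gauge_smul_of_nonneg (abs_nonneg t), gauge_neg hsymm, smul_eq_mul]
  · exact (gauge_pos habs hbdd).2 hy
  · ext y
    show gauge K y ≤ 1 ↔ y ∈ K
    rw [gauge_le_one_iff_mem_closure hconv hnhds, hK.isClosed.closure_eq]

end Pool.Agent.Lib.MP_37d555_gt
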