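import Pool.Agent.Lib.MP_37d555_gt.Spec

/-!
Module HALF (MP_37d555_gt), with the elementary facts on norms it needs.
-/

set_option autoImplicit false

open MeasureTheory Filter Topology Set
open scoped NNReal

namespace Pool.Agent.Lib.MP_37d555_gt

namespace Half

variable {n : ℕ} {g : E n → ℝ}

lemma g_zero (hg : IsNormF g) : g 0 = 0 := by
  have := hg.smul 0 0
  simpa using this

lemma g_nonneg (hg : IsNormF g) (x : E n) : 0 ≤ g x := by
  by_cases h : x = 0
  · rw [h, g_zero hg]
  · exact (hg.pos x h).le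

lemma g_neg (hg : IsNormF g) (x : E n) : g (-x) = g x := by
  have := hg.smul (-1) x
  simpa using this

lemma g_sum_le (hg : IsNormF g) {ι : Type*} (s : Finset ι) (v : ι → E n) :
    g (∑ i ∈ s, v i) ≤ ∑ i ∈ s, g (v i) := by
  classical
  induction s using Finset.induction_on with
  | empty => simp [g_zero hg]
  | insert a s ha ih =>
    rw [Finset.sum_insert ha, Finset.sum_insert ha]
    exact (hg.add _ _).trans (by linarith)

/-- the upper bound -/
lemma exists_upper (hg : IsNormF g) : ∃ C : ℝ≥0, ∀ x : E n, g x ≤ C * ‖x‖ := by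
  have h0 : 0 ≤ ∑ i : Fin n, g (EuclideanSpace.single i (1 : ℝ)) :=
    Finset.sum_nonneg fun i _ => g_nonneg hg _
  refine ⟨⟨_, h0⟩, fun x => ?_⟩
  have hx : x = ∑ i : Fin n, x i • EuclideanSpace.single i (1 : ℝ) := by
    ext j
    simp [Finset.sum_apply, Pi.single_apply]
  calc g x = g (∑ i : Fin n, x i • EuclideanSpace.single i (1 : ℝ)) := by rw [← hx]
    _ ≤ ∑ i : Fin n, g (x i • EuclideanSpace.single i (1 : ℝ)) := g_sum_le hg _ _
    _ = ∑ i : Fin n, |x i| * g (EuclideanSpace.single i (1 : ℝ)) :=
        Finset.sum_congr rfl fun i _ => hg.smul _ _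
    _ ≤ ∑ i : Fin n, ‖x‖ * g (EuclideanSpace.single i (1 : ℝ)) := by
        refine Finset.sum_le_sum fun i _ => mul_le_mul_of_nonneg_right ?_ (g_nonneg hg _)
        exact PiLp.norm_apply_le x i
    _ = (⟨_, h0⟩ : ℝ≥0) * ‖x‖ := by
        rw [← Finset.mul_sum, mul_comm]

lemma exists_lipschitz (hg : IsNormF g) : ∃ C : ℝ≥0, LipschitzWith C g := by
  obtain ⟨C, hC⟩ := exists_upper hg
  refine ⟨C, LipschitzWith.of_dist_le_mul fun x y => ?_⟩
  rw [Real.dist_eq, dist_eq_norm, abs_le]
  constructor
  · have h1 := hg.add x (y - x)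
    rw [add_sub_cancel] at h1
    have h2 := hC (y - x)
    rw [norm_sub_rev] at h2
    linarith
  · have h1 := hg.add y (x - y)
    rw [add_sub_cancel] at h1
    have h2 := hC (x - y)
    linarith

lemma continuous_g (hg : IsNormF g) : Continuous g := by
  obtain ⟨C, hC⟩ := exists_lipschitz hg
  exact hC.continuous

/-- the lower bound -/
lemma exists_lower (hg : IsNormF g) : ∃ a : ℝ, 0 < a ∧ ∀ x : E n, a * ‖x‖ ≤ g x := by
  by_cases hs : (Metric.sphere (0 : E n) 1).Nonempty
  · obtain ⟨y, hy, hmin⟩ := (isCompact_sphere (0 : E n) 1).exists_isMinOn hs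
      (continuous_g hg).continuousOn
    have hy1 : ‖y‖ = 1 := by simpa using hy
    have hy0 : y ≠ 0 := by
      rintro rfl
      simp at hy1
    refine ⟨g y, hg.pos y hy0, fun x => ?_⟩
    by_cases hx : x = 0
    · simp [hx, g_zero hg]
    · have hx' : ‖x‖ ≠ 0 := norm_ne_zero_iff.2 hx
      have h1 : (‖x‖⁻¹ • x) ∈ Metric.sphere (0 : E n) 1 := by
        simp [norm_smul, hx']
      have h2 := hmin h1
      simp only [mem_ofPred_eq] at h2
      rw [hg.smul, abs_of_nonneg (by positivity)] at h2
      calc g y * ‖x‖ ≤ (‖x‖⁻¹ * g x) * ‖x‖ := mul_le_mul_of_nonneg_right h2 (norm_nonneg x)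
        _ = g x := by field_simp
  · refine ⟨1, one_pos, fun x => ?_⟩
    have hx : x = 0 := by
      by_contra hx
      apply hs
      have hx' : ‖x‖ ≠ 0 := norm_ne_zero_iff.2 hx
      exact ⟨‖x‖⁻¹ • x, by simp [norm_smul, hx']⟩
    simp [hx, g_zero hg]

lemma convexOn_g (hg : IsNormF g) : ConvexOn ℝ univ g := by
  refine ⟨convex_univ, fun x _ y _ a b ha hb _ => ?_⟩
  calc g (a • x + b • y) ≤ g (a • x) + g (b • y) := hg.add _ _
    _ = a • g x + b • g y := by
        rw [hg.smul, hg.smul, abs_of_nonneg ha, abs_of_nonneg hb]; rfl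

lemma isClosed_ball (hg : IsNormF g) : IsClosed (ball g) :=
  isClosed_le (continuous_g hg) continuous_const

lemma isCompact_ball (hg : IsNormF g) : IsCompact (ball g) := by
  obtain ⟨a, ha, h⟩ := exists_lower hg
  refine (isCompact_closedBall (0 : E n) a⁻¹).of_isClosed_subset (isClosed_ball hg) fun x hx => ?_
  rw [mem_closedBall_zero_iff]
  have h1 : g x ≤ 1 := hx
  have h2 := h x
  rw [← one_div, le_div_iff₀ ha]
  linarith

lemma measurableSet_ball (hg : IsNormF g) : MeasurableSet (ball g) := (isClosed_ball hg).measurableSet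

lemma volume_ball_lt (hg : IsNormF g) : volume (ball g) < ⊤ := (isCompact_ball hg).measure_lt_top

lemma isFiniteMeasure_restrict (hg : IsNormF g) : IsFiniteMeasure (volume.restrict (ball g)) :=
  ⟨by rw [Measure.restrict_apply_univ]; exact volume_ball_lt hg⟩

lemma convex_ball (hg : IsNormF g) : Convex ℝ (ball g) := by
  have := (convexOn_g hg).convex_le 1
  simpa [ball] using this

/-- the unit sphere of the norm is a null set -/
lemma volume_sphere (hg : IsNormF g) : volume {x : E n | g x = 1} = 0 := by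
  refine measure_mono_null (fun x hx => ?_) ((convex_ball hg).addHaar_frontier volume)
  have hx1 : g x = 1 := hx
  have hc := continuous_g hg
  rw [frontier_eq_closure_inter_closure]
  refine ⟨subset_closure (le_of_eq hx1), ?_⟩
  -- points slightly outside
  have h1 : Tendsto (fun t : ℝ => (1 + t) • x) (𝓝[>] 0) (𝓝 x) := by
    have : ContinuousWithinAt (fun t : ℝ => (1 + t) • x) (Ioi 0) 0 := by fun_prop
    have h2 := this.tendsto
    simpa using h2
  refine mem_closure_of_tendsto h1 ?_
  filter_upwards [self_mem_nhdsWithin] with t ht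
  intro h
  have h2 : g ((1 + t) • x) ≤ 1 := h
  rw [hg.smul, hx1, abs_of_pos (by have := mem_Ioi.1 ht; linarith)] at h2
  have := mem_Ioi.1 ht
  linarith

/-- the bump function -/
noncomputable def bump (g : E n → ℝ) (x : E n) : ℝ := max (1 - g x) 0

lemma exists_lipschitz_bump (hg : IsNormF g) : ∃ C : ℝ≥0, LipschitzWith C (bump g) := by
  obtain ⟨C, hC⟩ := exists_lipschitz hg
  refine ⟨C, LipschitzWith.of_dist_le_mul fun x y => ?_⟩
  have h1 := hC.dist_le_mul x y
  refine le_trans ?_ h1
  rw [Real.dist_eq, Real.dist_eq]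
  unfold bump
  have h2 := abs_max_sub_max_le_abs (1 - g x) (1 - g y) 0
  refine h2.trans (le_of_eq ?_)
  rw [← abs_neg]
  congr 1
  ring

lemma hasCompactSupport_bump (hg : IsNormF g) : HasCompactSupport (bump g) := by
  refine HasCompactSupport.of_support_subset_isCompact (isCompact_ball hg) fun x hx => ?_
  by_contra h
  apply hx
  have h1 : 1 < g x := not_le.1 h
  exact max_eq_right (by linarith)

lemma abs_fderiv_le (hg : IsNormF g) (x v : E n) : |fderiv ℝ g x v| ≤ g v := by
  by_cases hd : DifferentiableAt ℝ g x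
  · have key : ∀ v : E n, fderiv ℝ g x v ≤ g v := by
      intro v
      have h1 : HasLineDerivAt ℝ g (fderiv ℝ g x v) x v := hd.hasFDerivAt.hasLineDerivAt v
      have h2 : Tendsto (fun t : ℝ => t⁻¹ • (g (x + t • v) - g x)) (𝓝[>] 0)
          (𝓝 (fderiv ℝ g x v)) := by
        have h3 := (hasDerivAt_iff_tendsto_slope_zero.1 h1)
        simp only [zero_smul, add_zero, zero_add] at h3
        exact h3.mono_left (nhdsWithin_mono _ fun t ht => ne_of_gt ht)
      refine le_of_tendsto h2 ?_
      filter_upwards [self_mem_nhdsWithin] with t ht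
      have ht' : 0 < t := ht
      rw [smul_eq_mul, inv_mul_le_iff₀ ht']
      have h3 := hg.add x (t • v)
      rw [hg.smul, abs_of_pos ht'] at h3
      linarith
    rw [abs_le]
    refine ⟨?_, key v⟩
    have := key (-v)
    rw [map_neg, g_neg hg] at this
    linarith
  · rw [fderiv_zero_of_not_differentiableAt hd]
    simpa using g_nonneg hg v

lemma measurable_fderiv_apply (g : E n → ℝ) (v : E n) : Measurable fun x => fderiv ℝ g x v :=
  measurable_fderiv_apply_const ℝ g v

lemma lineDeriv_bump (hg : IsNormF g) (e : E n) {x : E n} (hd : DifferentiableAt ℝ g x)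
    (hx : g x ≠ 1) :
    lineDeriv ℝ (bump g) x e = -(ball g).indicator (fun x => fderiv ℝ g x e) x := by
  have hc := continuous_g hg
  rcases lt_or_gt_of_ne hx with h | h
  · rw [indicator_of_mem (show x ∈ ball g from h.le)]
    have h1 : bump g =ᶠ[𝓝 x] fun y => 1 - g y := by
      filter_upwards [(isOpen_lt hc continuous_const).mem_nhds h] with y hy
      have hy' : g y < 1 := hy
      exact max_eq_left (by linarith)
    have h2 : HasFDerivAt (bump g) (-fderiv ℝ g x) x := by
      have h3 : HasFDerivAt (fun y => 1 - g y) (-fderiv ℝ g x) x := hd.hasFDerivAt.const_sub 1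
      exact h3.congr_of_eventuallyEq h1
    rw [(h2.hasLineDerivAt e).lineDeriv]
    rfl
  · rw [indicator_of_notMem (show x ∉ ball g from not_le.2 h)]
    have h1 : bump g =ᶠ[𝓝 x] fun _ => 0 := by
      filter_upwards [(isOpen_lt continuous_const hc).mem_nhds h] with y hy
      have hy' : 1 < g y := hy
      exact max_eq_right (by linarith)
    have h2 : HasFDerivAt (bump g) (0 : E n →L[ℝ] ℝ) x :=
      (hasFDerivAt_const (0 : ℝ) x).congr_of_eventuallyEq h1
    rw [(h2.hasLineDerivAt e).lineDeriv]
    simp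

/-- Lipschitz approximations of the sign -/
noncomputable def hk (k : ℕ) (s : ℝ) : ℝ := max (-1) (min 1 (k * s))

lemma hk_abs_le (k : ℕ) (s : ℝ) : |hk k s| ≤ 1 := by
  unfold hk
  rw [abs_le]
  exact ⟨le_max_left _ _, max_le (by norm_num) (min_le_left _ _)⟩

lemma hk_tendsto (s : ℝ) : Tendsto (fun k => hk k s) atTop (𝓝 (Real.sign s)) := by
  rcases lt_trichotomy s 0 with h | h | h
  · rw [Real.sign_of_neg h]
    refine tendsto_const_nhds.congr' ?_
    filter_upwards [eventually_ge_atTop ⌈(-s)⁻¹⌉₊] with k hk'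
    have h1 : (-s)⁻¹ ≤ k := (Nat.le_ceil _).trans (Nat.cast_le.2 hk')
    have h2 : 1 ≤ k * (-s) := by
      rw [inv_le_iff_one_le_mul₀ (by linarith)] at h1
      linarith
    unfold hk
    rw [min_eq_right (by linarith), max_eq_left (by linarith)]
  · subst h
    rw [Real.sign_zero]
    refine tendsto_const_nhds.congr fun k => ?_
    unfold hk
    simp
  · rw [Real.sign_of_pos h]
    refine tendsto_const_nhds.congr' ?_
    filter_upwards [eventually_ge_atTop ⌈s⁻¹⌉₊] with k hk'
    have h1 : s⁻¹ ≤ k := (Nat.le_ceil _).trans (Nat.cast_le.2 hk')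
    have h2 : 1 ≤ k * s := by
      rw [inv_le_iff_one_le_mul₀ h] at h1
      linarith
    unfold hk
    rw [min_eq_left h2, max_eq_right (by norm_num)]

lemma hk_lipschitz (k : ℕ) : LipschitzWith k (hk k) := by
  refine LipschitzWith.of_dist_le_mul fun s t => ?_
  rw [Real.dist_eq, Real.dist_eq]
  unfold hk
  have h1 := abs_max_sub_max_le_abs (min 1 (k * s)) (min 1 (k * t)) (-1)
  rw [max_comm (-1), max_comm (-1)]
  refine h1.trans ?_
  have h2 := abs_min_sub_min_le_max 1 (k * s) 1 (k * t)
  refine h2.trans ?_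
  rw [sub_self, abs_zero, ← mul_sub, abs_mul, Nat.abs_cast]
  exact max_le (by positivity) le_rfl

end Half

theorem specHalf : SpecHalf := by
  intro n g hg L e hLe
  rcases Nat.eq_zero_or_pos n with hn | hn
  · subst hn
    have : e = 0 := Subsingleton.elim _ _
    simp [this]
  obtain ⟨C, hC⟩ := Half.exists_lipschitz hg
  obtain ⟨D, hD⟩ := Half.exists_lipschitz_bump hg
  have hcs := Half.hasCompactSupport_bump hg
  have hae : ∀ᵐ x : E n, lineDeriv ℝ (Half.bump g) x (-e) =
      (ball g).indicator (fun x => fderiv ℝ g x e) x := by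
    have h1 : ∀ᵐ x : E n, DifferentiableAt ℝ g x := hC.ae_differentiableAt
    have h2 : ∀ᵐ x : E n, g x ≠ 1 := by
      rw [ae_iff]
      simpa using Half.volume_sphere hg
    filter_upwards [h1, h2] with x hx hx'
    rw [Half.lineDeriv_bump hg (-e) hx hx']
    by_cases hm : x ∈ ball g
    · rw [indicator_of_mem hm, indicator_of_mem hm, map_neg, neg_neg]
    · rw [indicator_of_notMem hm, indicator_of_notMem hm, neg_zero]
  have hk0 : ∀ k : ℕ, ∫ x in ball g, fderiv ℝ g x e * Half.hk k (L x) = 0 := by
    intro k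
    have hlip : LipschitzWith (k * ‖L‖₊) (fun x : E n => Half.hk k (L x)) :=
      (Half.hk_lipschitz k).comp L.lipschitz
    have h1 := LipschitzWith.integral_lineDeriv_mul_eq (μ := volume) hlip hD hcs e
    have h2 : ∀ x : E n, lineDeriv ℝ (fun x : E n => Half.hk k (L x)) x e = 0 := by
      intro x
      have h3 : (fun t : ℝ => Half.hk k (L (x + t • e))) = fun _ => Half.hk k (L x) := by
        funext t
        rw [map_add, map_smul, hLe, smul_zero, add_zero]
      unfold lineDeriv
      rw [h3]
      exact deriv_const _ _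
    simp only [h2, zero_mul, integral_zero] at h1
    rw [← integral_indicator (Half.measurableSet_ball hg), h1]
    refine integral_congr_ae ?_
    filter_upwards [hae] with x hx
    rw [hx]
    by_cases hm : x ∈ ball g
    · rw [indicator_of_mem hm, indicator_of_mem hm]
    · rw [indicator_of_notMem hm, indicator_of_notMem hm, zero_mul]
  have hfin := Half.isFiniteMeasure_restrict hg
  have hlim : Tendsto (fun k : ℕ => ∫ x in ball g, fderiv ℝ g x e * Half.hk k (L x)) atTop
      (𝓝 (∫ x in ball g, fderiv ℝ g x e * Real.sign (L x))) := by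
    refine tendsto_integral_of_dominated_convergence (fun _ => g e) ?_ ?_ ?_ ?_
    · intro k
      exact ((Half.measurable_fderiv_apply g e).mul
        ((Half.hk_lipschitz k).continuous.measurable.comp L.continuous.measurable)).aestronglyMeasurable
    · exact integrable_const _
    · intro k
      refine Eventually.of_forall fun x => ?_
      rw [norm_mul, Real.norm_eq_abs, Real.norm_eq_abs]
      calc |fderiv ℝ g x e| * |Half.hk k (L x)| ≤ g e * 1 :=
            mul_le_mul (Half.abs_fderiv_le hg x e) (Half.hk_abs_le k _) (abs_nonneg _)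
              (Half.g_nonneg hg e)
        _ = g e := mul_one _
    · refine Eventually.of_forall fun x => ?_
      exact (Half.hk_tendsto (L x)).const_mul _
  simp only [hk0] at hlim
  have h1 := tendsto_nhds_unique hlim tendsto_const_nhds
  rw [← h1]
  refine integral_congr_ae (Eventually.of_forall fun x => ?_)
  exact mul_comm _ _

end Pool.Agent.Lib.MP_37d555_gt
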