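import Pool.Agent.Lib.MP_37d555_gt.Spec
import Pool.Agent.Lib.MP_37d555_gt.Basic

/-! Module PROJ: the projection formula (MP_37d555_gt). -/

set_option autoImplicit false

namespace Pool.Agent.Lib.MP_37d555_gt

namespace Proj

open MeasureTheory Set
open scoped ENNReal NNReal Pointwise

/-- One-dimensional computation: a convex Lipschitz coercive function with minimum `φ ts`. -/
theorem oneD (φ : ℝ → ℝ) (hc : ConvexOn ℝ univ φ) (C : ℝ≥0) (hL : LipschitzWith C φ)
    (ts : ℝ) (hmin : ∀ t, φ ts ≤ φ t) (hb : ∃ A : ℝ, ∀ t, φ t ≤ 1 → |t| ≤ A) :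
    ∫⁻ t, ({t | φ t ≤ 1} : Set ℝ).indicator (fun t => ENNReal.ofReal |deriv φ t|) t
      = ENNReal.ofReal (2 * max (1 - φ ts) 0) := by
  have hcont : Continuous φ := hL.continuous
  by_cases hm : φ ts ≤ 1
  swap
  · have h1 : ({t | φ t ≤ 1} : Set ℝ) = ∅ := by
      ext t; simp only [mem_ofPred_eq, mem_empty_iff_false, iff_false, not_le]
      exact lt_of_lt_of_le (not_le.1 hm) (hmin t)
    rw [h1]
    have h2 : max (1 - φ ts) 0 = 0 := max_eq_right (by linarith [not_le.1 hm])
    simp [h2]
  have hmax : max (1 - φ ts) 0 = 1 - φ ts := max_eq_left (by linarith)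
  rw [hmax]
  obtain ⟨A, hA⟩ := hb
  set S : Set ℝ := {t | φ t ≤ 1} with hS
  have hSclosed : IsClosed S := isClosed_le hcont continuous_const
  have hSb : S ⊆ Icc (-A) A := fun t ht => abs_le.1 (hA t ht)
  have hSc : IsCompact S := isCompact_Icc.of_isClosed_subset hSclosed hSb
  have hSne : S.Nonempty := ⟨ts, hm⟩
  have hSconv : S.OrdConnected := by
    have : Convex ℝ S := by
      have := hc.convex_le 1
      simpa [hS] using this
    exact this.ordConnected
  set a := sInf S with ha
  set b := sSup S with hbdef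
  have haS : a ∈ S := hSc.sInf_mem hSne
  have hbS : b ∈ S := hSc.sSup_mem hSne
  have hats : a ≤ ts := csInf_le hSc.bddBelow hm
  have htsb : ts ≤ b := le_csSup hSc.bddAbove hm
  have hSIcc : S = Icc a b := by
    ext t
    constructor
    · intro ht; exact ⟨csInf_le hSc.bddBelow ht, le_csSup hSc.bddAbove ht⟩
    · intro ht; exact hSconv.out haS hbS ht
  have hφb : φ b = 1 := by
    apply le_antisymm hbS
    have h1 : ∀ᶠ t in nhdsWithin b (Ioi b), 1 ≤ φ t := by
      filter_upwards [self_mem_nhdsWithin] with t ht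
      by_contra hcon
      have : t ∈ S := (not_le.1 hcon).le
      exact absurd (le_csSup hSc.bddAbove this) (not_le.2 ht)
    have h2 : Filter.Tendsto φ (nhdsWithin b (Ioi b)) (nhds (φ b)) :=
      (hcont.tendsto b).mono_left nhdsWithin_le_nhds
    exact ge_of_tendsto h2 h1
  have hφa : φ a = 1 := by
    apply le_antisymm haS
    have h1 : ∀ᶠ t in nhdsWithin a (Iio a), 1 ≤ φ t := by
      filter_upwards [self_mem_nhdsWithin] with t ht
      by_contra hcon
      have : t ∈ S := (not_le.1 hcon).le
      exact absurd (csInf_le hSc.bddBelow this) (not_le.2 ht)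
    have h2 : Filter.Tendsto φ (nhdsWithin a (Iio a)) (nhds (φ a)) :=
      (hcont.tendsto a).mono_left nhdsWithin_le_nhds
    exact ge_of_tendsto h2 h1
  have hpos : ∀ t, ts < t → 0 ≤ deriv φ t := by
    intro t ht
    by_cases hd : DifferentiableAt ℝ φ t
    · have h1 := hc.slope_le_of_hasDerivAt (mem_univ ts) (mem_univ t) ht hd.hasDerivAt
      refine le_trans ?_ h1
      rw [slope_def_field]
      exact div_nonneg (by linarith [hmin t]) (by linarith)
    · rw [deriv_zero_of_not_differentiableAt hd]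
  have hneg : ∀ t, t < ts → deriv φ t ≤ 0 := by
    intro t ht
    by_cases hd : DifferentiableAt ℝ φ t
    · have h1 := hc.le_slope_of_hasDerivAt (mem_univ t) (mem_univ ts) ht hd.hasDerivAt
      refine le_trans h1 ?_
      rw [slope_def_field]
      exact div_nonpos_of_nonpos_of_nonneg (by linarith [hmin t]) (by linarith)
    · rw [deriv_zero_of_not_differentiableAt hd]
  have hint : ∀ x y : ℝ, ∫ t in x..y, deriv φ t = φ y - φ x := fun x y =>
    (hL.lipschitzOnWith (s := uIcc x y)).absolutelyContinuousOnInterval.integral_deriv_eq_sub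
  have hii : ∀ x y : ℝ, IntervalIntegrable (deriv φ) volume x y := fun x y =>
    (hL.lipschitzOnWith (s := uIcc x y)).absolutelyContinuousOnInterval.intervalIntegrable_deriv
  rw [lintegral_indicator hSclosed.measurableSet, hSIcc]
  rw [← ofReal_integral_eq_lintegral_ofReal]
  · congr 1
    rw [integral_Icc_eq_integral_Ioc, ← intervalIntegral.integral_of_le (hats.trans htsb),
      ← intervalIntegral.integral_add_adjacent_intervals (b := ts) (hii a ts).abs (hii ts b).abs]
    have e1 : ∫ t in a..ts, |deriv φ t| = ∫ t in a..ts, - deriv φ t := by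
      rw [intervalIntegral.integral_of_le hats, intervalIntegral.integral_of_le hats,
        integral_Ioc_eq_integral_Ioo, integral_Ioc_eq_integral_Ioo]
      apply setIntegral_congr_fun measurableSet_Ioo
      intro t ht
      exact abs_of_nonpos (hneg t ht.2)
    have e2 : ∫ t in ts..b, |deriv φ t| = ∫ t in ts..b, deriv φ t := by
      rw [intervalIntegral.integral_of_le htsb, intervalIntegral.integral_of_le htsb,
        integral_Ioc_eq_integral_Ioo, integral_Ioc_eq_integral_Ioo]
      apply setIntegral_congr_fun measurableSet_Ioo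
      intro t ht
      exact abs_of_nonneg (hpos t ht.1)
    rw [e1, e2, intervalIntegral.integral_neg, hint, hint, hφa, hφb]
    ring
  · have := (hii a b).abs
    rw [intervalIntegrable_iff_integrableOn_Icc_of_le (hats.trans htsb)] at this
    exact this
  · exact Filter.Eventually.of_forall fun t => abs_nonneg _

/-- Layer cake for `max (1 - f) 0` when the sublevel sets scale. -/
theorem layer {α : Type*} [MeasurableSpace α] (μ : Measure α) (f : α → ℝ) (m : ℕ)
    (hf : Measurable f) (V : ℝ≥0∞)
    (hV : ∀ r : ℝ, 0 < r → r < 1 → μ {w | f w ≤ r} = ENNReal.ofReal (r ^ m) * V)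
    (h0 : ∀ w, 0 ≤ f w) :
    ∫⁻ w, ENNReal.ofReal (max (1 - f w) 0) ∂μ = ENNReal.ofReal (1 / ((m : ℝ) + 1)) * V := by
  rw [lintegral_eq_lintegral_meas_le μ (f := fun w => max (1 - f w) 0)
    (Filter.Eventually.of_forall fun w => le_max_right _ _)
    ((measurable_const.sub hf).max measurable_const).aemeasurable]
  have h1 : ∀ᵐ s ∂(volume.restrict (Ioi (0:ℝ))), μ {w | s ≤ max (1 - f w) 0} =
      (Ioo (0:ℝ) 1).indicator (fun s => ENNReal.ofReal ((1 - s) ^ m) * V) s := by
    have hne : ∀ᵐ s ∂(volume : Measure ℝ), s ≠ 1 := by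
      simp [ae_iff]
    filter_upwards [ae_restrict_mem measurableSet_Ioi, ae_restrict_of_ae hne] with s hs hs1
    have hs0 : (0:ℝ) < s := hs
    rcases lt_or_gt_of_ne hs1 with h | h
    · rw [indicator_of_mem (show s ∈ Ioo (0:ℝ) 1 from ⟨hs0, h⟩),
        ← hV (1 - s) (by linarith) (by linarith)]
      congr 1
      ext w
      simp only [mem_ofPred_eq]
      constructor
      · intro hw
        rcases le_max_iff.1 hw with h' | h'
        · linarith
        · linarith
      · intro hw
        exact le_max_of_le_left (by linarith)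
    · rw [indicator_of_notMem (by simp; intro; linarith)]
      have : {w | s ≤ max (1 - f w) 0} = ∅ := by
        ext w
        simp only [mem_ofPred_eq, mem_empty_iff_false, iff_false, not_le]
        have := h0 w
        exact max_lt (by linarith) (by linarith)
      rw [this, measure_empty]
  rw [lintegral_congr_ae h1, ← lintegral_indicator measurableSet_Ioi]
  have h2 : (Ioi (0:ℝ)).indicator
      ((Ioo (0:ℝ) 1).indicator (fun s => ENNReal.ofReal ((1 - s) ^ m) * V))
      = (Ioo (0:ℝ) 1).indicator (fun s => ENNReal.ofReal ((1 - s) ^ m) * V) := by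
    rw [indicator_indicator]
    congr 1
    ext s; simp
  have h3 : (fun a => (Ioi (0:ℝ)).indicator
      (fun s => (Ioo (0:ℝ) 1).indicator (fun s => ENNReal.ofReal ((1 - s) ^ m) * V) s) a)
      = (Ioo (0:ℝ) 1).indicator (fun s => ENNReal.ofReal ((1 - s) ^ m) * V) := h2
  rw [h3, lintegral_indicator measurableSet_Ioo, lintegral_mul_const]
  · congr 1
    rw [← ofReal_integral_eq_lintegral_ofReal]
    · congr 1
      rw [← integral_Ioc_eq_integral_Ioo, ← intervalIntegral.integral_of_le zero_le_one]
      have := intervalIntegral.integral_comp_sub_left (fun x : ℝ => x ^ m) (a := 0) (b := 1) 1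
      rw [this]
      simp [integral_pow]
    · have hcont : Continuous fun s : ℝ => (1 - s) ^ m := by fun_prop
      exact (hcont.continuousOn (s := Icc 0 1)).integrableOn_Icc.mono_set Ioo_subset_Icc_self
    · filter_upwards [ae_restrict_mem measurableSet_Ioo] with s hs
      exact pow_nonneg (by linarith [hs.2]) _
  · have hcont : Continuous fun s : ℝ => (1 - s) ^ m := by fun_prop
    exact hcont.measurable.ennreal_ofReal

/-- The map `(w, t) ↦ (t, w)` into `ℝ^{m+1}`. -/
noncomputable def cns (m : ℕ) (p : E m × ℝ) : E (m + 1) :=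
  WithLp.toLp 2 (Fin.cons p.2 (WithLp.ofLp p.1) : Fin (m + 1) → ℝ)

theorem cns_mp (m : ℕ) :
    MeasurePreserving (cns m) ((volume : Measure (E m)).prod (volume : Measure ℝ)) volume := by
  have h1 : MeasurePreserving (Prod.swap : E m × ℝ → ℝ × E m)
      ((volume : Measure (E m)).prod (volume : Measure ℝ))
      ((volume : Measure ℝ).prod (volume : Measure (E m))) := Measure.measurePreserving_swap
  have h2 : MeasurePreserving (Prod.map id (@WithLp.ofLp 2 (Fin m → ℝ)))
      ((volume : Measure ℝ).prod (volume : Measure (E m)))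
      ((volume : Measure ℝ).prod (volume : Measure (Fin m → ℝ))) :=
    (MeasurePreserving.id _).prod (PiLp.volume_preserving_ofLp (Fin m))
  have h3 : MeasurePreserving (MeasurableEquiv.piFinSuccAbove (fun _ : Fin (m + 1) => ℝ) 0).symm
      ((volume : Measure ℝ).prod (volume : Measure (Fin m → ℝ))) volume :=
    (volume_preserving_piFinSuccAbove (fun _ : Fin (m + 1) => ℝ) 0).symm _
  have h4 := PiLp.volume_preserving_toLp (Fin (m + 1))
  have h5 := h4.comp (h3.comp (h2.comp h1))
  have h6 : cns m = (@WithLp.toLp 2 (Fin (m + 1) → ℝ)) ∘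
      ((MeasurableEquiv.piFinSuccAbove (fun _ : Fin (m + 1) => ℝ) 0).symm ∘
      (Prod.map id (@WithLp.ofLp 2 (Fin m → ℝ)) ∘ Prod.swap)) := by
    funext p
    simp [cns, Fin.insertNthEquiv, MeasurableEquiv.piFinSuccAbove]
  rw [h6]
  exact h5

theorem cns_zero (m : ℕ) (p : E m × ℝ) : (cns m p) 0 = p.2 := rfl

theorem cns_succ (m : ℕ) (p : E m × ℝ) (i : Fin m) : (cns m p) i.succ = p.1 i := rfl

theorem cns_add (m : ℕ) (w w' : E m) (t t' : ℝ) :
    cns m (w + w', t + t') = cns m (w, t) + cns m (w', t') := by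
  ext i
  refine Fin.cases ?_ (fun i => ?_) i
  · simp [cns_zero]
  · simp [cns_succ]

theorem cns_smul (m : ℕ) (w : E m) (r t : ℝ) :
    cns m (r • w, r * t) = r • cns m (w, t) := by
  ext i
  refine Fin.cases ?_ (fun i => ?_) i
  · simp [cns_zero]
  · simp [cns_succ]

theorem cns_surj (m : ℕ) (x : E (m + 1)) : ∃ p, cns m p = x := by
  refine ⟨(WithLp.toLp 2 (fun i : Fin m => x i.succ), x 0), ?_⟩
  ext i
  refine Fin.cases ?_ (fun i => ?_) i
  · simp [cns_zero]
  · simp [cns_succ]

/-- the first basis vector. -/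
noncomputable def e0 (m : ℕ) : E (m + 1) := EuclideanSpace.single 0 1

theorem cns_line (m : ℕ) (w : E m) (t : ℝ) : cns m (w, t) = cns m (w, 0) + t • e0 m := by
  ext i
  refine Fin.cases ?_ (fun i => ?_) i
  · simp [cns_zero, e0]
  · simp [cns_succ, e0]

theorem norm_cns_sq (m : ℕ) (w : E m) (t : ℝ) : ‖cns m (w, t)‖ ^ 2 = t ^ 2 + ‖w‖ ^ 2 := by
  rw [EuclideanSpace.norm_sq_eq, EuclideanSpace.norm_sq_eq, Fin.sum_univ_succ]
  simp [cns_zero, cns_succ]

theorem abs_le_norm_cns (m : ℕ) (w : E m) (t : ℝ) : |t| ≤ ‖cns m (w, t)‖ := by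
  rw [← sq_le_sq₀ (abs_nonneg _) (norm_nonneg _), norm_cns_sq, sq_abs]
  linarith [sq_nonneg ‖w‖]

theorem continuous_cns (m : ℕ) : Continuous (cns m) := by
  unfold cns
  fun_prop

/-- Projection of the ball along the first axis. -/
def P {m : ℕ} (G : E (m + 1) → ℝ) (r : ℝ) : Set (E m) := {w | ∃ t, G (cns m (w, t)) ≤ r}

theorem exists_min {m : ℕ} {G : E (m + 1) → ℝ} (hG : IsNormF G) (w : E m) :
    ∃ ts, ∀ t, G (cns m (w, ts)) ≤ G (cns m (w, t)) := by
  obtain ⟨c, hc, hlow⟩ := hG.exists_lower
  refine Continuous.exists_forall_le (hG.continuous.comp ((continuous_cns m).comp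
    (Continuous.prodMk continuous_const continuous_id))) ?_
  have h1 : Filter.Tendsto (fun t : ℝ => c * ‖t‖) (Filter.cocompact ℝ) Filter.atTop :=
    Filter.Tendsto.const_mul_atTop hc (tendsto_norm_cocompact_atTop (E := ℝ))
  refine Filter.tendsto_atTop_mono (fun t => ?_) h1
  refine le_trans ?_ (hlow _)
  exact mul_le_mul_of_nonneg_left (abs_le_norm_cns m w t) hc.le

theorem P_smul {m : ℕ} {G : E (m + 1) → ℝ} (hG : IsNormF G) {r : ℝ} (hr : 0 < r) :
    P G r = r • P G 1 := by
  ext w
  rw [Set.mem_smul_set_iff_inv_smul_mem₀ hr.ne']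
  constructor
  · rintro ⟨t, ht⟩
    refine ⟨r⁻¹ * t, ?_⟩
    rw [cns_smul, hG.smul_pos (by positivity)]
    rw [inv_mul_le_iff₀ hr, mul_one]
    exact ht
  · rintro ⟨t, ht⟩
    refine ⟨r * t, ?_⟩
    have h1 : cns m (w, r * t) = r • cns m (r⁻¹ • w, t) := by
      rw [← cns_smul, smul_smul, mul_inv_cancel₀ hr.ne', one_smul]
    rw [h1, hG.smul_pos hr.le]
    calc r * G (cns m (r⁻¹ • w, t)) ≤ r * 1 := mul_le_mul_of_nonneg_left ht hr.le
      _ = r := mul_one r

theorem lint_eq {m : ℕ} {G : E (m + 1) → ℝ} (hG : IsNormF G) :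
    ENNReal.ofReal (M G (e0 m)) = ENNReal.ofReal (2 / ((m : ℝ) + 1)) * volume (P G 1) := by
  choose τ hτ using exists_min hG
  obtain ⟨C, hC⟩ := hG.exists_lipschitz
  obtain ⟨c, hc, hlow⟩ := hG.exists_lower
  set f : E m → ℝ := fun w => G (cns m (w, τ w)) with hf
  -- sublevel sets of `f`
  have hsub : ∀ r : ℝ, {w | f w ≤ r} = P G r := by
    intro r
    ext w
    constructor
    · intro h; exact ⟨τ w, h⟩
    · rintro ⟨t, ht⟩; exact (hτ w t).trans ht
  have hfcont : Continuous f := by
    have h1 : LipschitzWith C f := by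
      have key : ∀ w w', f w - f w' ≤ C * dist w w' := by
        intro w w'
        have h2 := hτ w (τ w')
        have h3 : G (cns m (w, τ w')) - G (cns m (w', τ w')) ≤
            C * dist (cns m (w, τ w')) (cns m (w', τ w')) := by
          have := hC.dist_le_mul (cns m (w, τ w')) (cns m (w', τ w'))
          rw [Real.dist_eq] at this
          exact (le_abs_self _).trans this
        have h4 : dist (cns m (w, τ w')) (cns m (w', τ w')) = dist w w' := by
          rw [dist_eq_norm, dist_eq_norm]
          have h5 : cns m (w, τ w') - cns m (w', τ w') = cns m (w - w', 0) := by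
            have := cns_add m (w - w') w' 0 (τ w')
            rw [sub_add_cancel, zero_add] at this
            rw [this, add_sub_cancel_right]
          rw [h5, ← sq_eq_sq₀ (norm_nonneg _) (norm_nonneg _), norm_cns_sq]
          ring
        rw [h4] at h3
        simp only [hf]
        linarith
      refine LipschitzWith.of_dist_le_mul fun w w' => ?_
      rw [Real.dist_eq, abs_le]
      constructor
      · have := key w' w
        rw [dist_comm w' w] at this
        linarith
      · exact key w w'
    exact h1.continuous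
  have hf0 : ∀ w, 0 ≤ f w := fun w => hG.nonneg _
  -- layer cake
  have hlay := layer volume f m hfcont.measurable (volume (P G 1)) (by
    intro r hr _
    rw [hsub r, P_smul hG hr, Measure.addHaar_smul]
    congr 1
    rw [finrank_euclideanSpace_fin, abs_of_nonneg (by positivity)]) hf0
  -- the integral
  have h1 : ENNReal.ofReal (M G (e0 m)) =
      ∫⁻ x, (ball G).indicator (fun x => ENNReal.ofReal |fderiv ℝ G x (e0 m)|) x := by
    unfold M
    rw [ofReal_integral_eq_lintegral_ofReal (hG.integrableOn_abs_fderiv _)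
      (Filter.Eventually.of_forall fun x => abs_nonneg _),
      lintegral_indicator hG.measurableSet_ball]
  have hmeasF : Measurable
      ((ball G).indicator (fun x => ENNReal.ofReal |fderiv ℝ G x (e0 m)|)) := by
    refine Measurable.indicator ?_ hG.measurableSet_ball
    exact (hG.measurable_fderiv_apply (e0 m)).abs.ennreal_ofReal
  have hprod := lintegral_prod (μ := (volume : Measure (E m))) (ν := (volume : Measure ℝ))
    (fun p : E m × ℝ => (ball G).indicator (fun x => ENNReal.ofReal |fderiv ℝ G x (e0 m)|)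
      (cns m p)) ((hmeasF.comp (cns_mp m).measurable).aemeasurable)
  rw [h1, ← (cns_mp m).lintegral_comp hmeasF, hprod]
  have hae : ∀ᵐ p ∂((volume : Measure (E m)).prod (volume : Measure ℝ)),
      DifferentiableAt ℝ G (cns m p) :=
    (cns_mp m).quasiMeasurePreserving.ae hG.ae_differentiableAt
  have hae2 := Measure.ae_ae_of_ae_prod hae
  have h2 : ∀ᵐ w ∂(volume : Measure (E m)),
      ∫⁻ t, (ball G).indicator (fun x => ENNReal.ofReal |fderiv ℝ G x (e0 m)|) (cns m (w, t))
        = ENNReal.ofReal 2 * ENNReal.ofReal (max (1 - f w) 0) := by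
    filter_upwards [hae2] with w hw
    have hline : ∀ t, cns m (w, t) = cns m (w, 0) + t • e0 m := cns_line m w
    have hconv : ConvexOn ℝ univ (fun t : ℝ => G (cns m (w, t))) := by
      refine ⟨convex_univ, fun s _ t _ a b ha hb hab => ?_⟩
      have h3 : cns m (w, a • s + b • t) = a • cns m (w, s) + b • cns m (w, t) := by
        rw [← cns_smul, ← cns_smul, ← cns_add, ← add_smul, hab, one_smul]
        rfl
      simp only [h3]
      exact hG.convexOn.2 (mem_univ _) (mem_univ _) ha hb hab
    have hLip : LipschitzWith C (fun t : ℝ => G (cns m (w, t))) := by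
      have h3 : LipschitzWith 1 (fun t : ℝ => cns m (w, t)) := by
        refine LipschitzWith.of_dist_le_mul fun s t => ?_
        rw [dist_eq_norm, hline s, hline t, Real.dist_eq]
        have h4 : cns m (w, 0) + s • e0 m - (cns m (w, 0) + t • e0 m) = (s - t) • e0 m := by
          rw [sub_smul]; abel
        rw [h4, norm_smul]
        simp [e0]
      have h4 := hC.comp h3
      rw [mul_one] at h4
      exact h4
    have hb : ∃ A : ℝ, ∀ t, G (cns m (w, t)) ≤ 1 → |t| ≤ A := by
      refine ⟨1 / c, fun t ht => ?_⟩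
      rw [le_div_iff₀ hc]
      have h3 := hlow (cns m (w, t))
      have h4 := abs_le_norm_cns m w t
      have h5 : c * |t| ≤ c * ‖cns m (w, t)‖ := mul_le_mul_of_nonneg_left h4 hc.le
      linarith
    have h3 := oneD (fun t : ℝ => G (cns m (w, t))) hconv C hLip (τ w) (hτ w) hb
    rw [← ENNReal.ofReal_mul (by norm_num), ← h3]
    refine lintegral_congr_ae ?_
    filter_upwards [hw] with t ht
    have h4 : deriv (fun t : ℝ => G (cns m (w, t))) t = fderiv ℝ G (cns m (w, t)) (e0 m) := by
      have h5 : HasDerivAt (fun t : ℝ => cns m (w, t)) (e0 m) t := by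
        have h6 : (fun t : ℝ => cns m (w, t)) = fun t => cns m (w, 0) + t • e0 m :=
          funext hline
        rw [h6]
        have := ((hasDerivAt_id t).smul_const (e0 m)).const_add (cns m (w, 0))
        simpa using this
      exact (ht.hasFDerivAt.comp_hasDerivAt t h5).deriv
    by_cases h6 : G (cns m (w, t)) ≤ 1
    · rw [indicator_of_mem (show cns m (w, t) ∈ ball G from h6),
        indicator_of_mem (show t ∈ {t | G (cns m (w, t)) ≤ 1} from h6), h4]
    · rw [indicator_of_notMem (show cns m (w, t) ∉ ball G from h6),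
        indicator_of_notMem (show t ∉ {t | G (cns m (w, t)) ≤ 1} from h6)]
  have h3 : ∫⁻ w, ∫⁻ t, (ball G).indicator (fun x => ENNReal.ofReal |fderiv ℝ G x (e0 m)|)
      (cns m (w, t)) = ∫⁻ w, ENNReal.ofReal 2 * ENNReal.ofReal (max (1 - f w) 0) :=
    lintegral_congr_ae h2
  have h4 : ∫⁻ (w : E m), ∫⁻ (t : ℝ),
      (fun a => (ball G).indicator (fun x => ENNReal.ofReal |fderiv ℝ G x (e0 m)|) (cns m a)) (w, t)
      = ∫⁻ w, ENNReal.ofReal 2 * ENNReal.ofReal (max (1 - f w) 0) := h3
  have hmf : Measurable (fun w => ENNReal.ofReal (max (1 - f w) 0)) :=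
    ((measurable_const.sub hfcont.measurable).max measurable_const).ennreal_ofReal
  rw [h4, lintegral_const_mul _ hmf, hlay, ← mul_assoc, ← ENNReal.ofReal_mul (by norm_num)]
  congr 2
  ring

theorem finite_P {m : ℕ} {G : E (m + 1) → ℝ} (hG : IsNormF G) : volume (P G 1) ≠ ∞ := by
  obtain ⟨c, hc, hlow⟩ := hG.exists_lower
  have h1 : P G 1 ⊆ Metric.closedBall (0 : E m) (1 / c) := by
    rintro w ⟨t, ht⟩
    rw [mem_closedBall_zero_iff, le_div_iff₀ hc]
    have h2 : ‖w‖ ≤ ‖cns m (w, t)‖ := by
      rw [← sq_le_sq₀ (norm_nonneg _) (norm_nonneg _), norm_cns_sq]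
      linarith [sq_nonneg t]
    have h3 := hlow (cns m (w, t))
    have h5 : c * ‖w‖ ≤ c * ‖cns m (w, t)‖ := mul_le_mul_of_nonneg_left h2 hc.le
    linarith
  exact ((measure_mono h1).trans_lt (isCompact_closedBall _ _).measure_lt_top).ne

theorem M_eq {m : ℕ} {G : E (m + 1) → ℝ} (hG : IsNormF G) :
    M G (e0 m) = 2 / ((m : ℝ) + 1) * (volume (P G 1)).toReal := by
  have h1 := congrArg ENNReal.toReal (lint_eq hG)
  rw [ENNReal.toReal_ofReal (hG.M_nonneg _), ENNReal.toReal_mul,
    ENNReal.toReal_ofReal (by positivity)] at h1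
  exact h1

/-- The case `u = e0`. -/
theorem haus_e0 (m : ℕ) : ∃ κ : ℝ, 0 < κ ∧ ∀ G : E (m + 1) → ℝ, IsNormF G →
    (Measure.hausdorffMeasure (m : ℝ)
      ((fun x : E (m + 1) => x - inner ℝ x (e0 m) • e0 m) '' ball G)).toReal
      = κ * M G (e0 m) := by
  set μ : Measure (E m) := Measure.hausdorffMeasure (m : ℝ) with hμ
  have hμH : μ.IsAddHaarMeasure := inferInstance
  set cst := Measure.addHaarScalarFactor μ (volume : Measure (E m)) with hcst
  have hcpos : 0 < cst := Measure.addHaarScalarFactor_pos_of_isAddHaarMeasure _ _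
  refine ⟨cst * (((m : ℝ) + 1) / 2), by positivity, fun G hG => ?_⟩
  have h1 : (fun x : E (m + 1) => x - inner ℝ x (e0 m) • e0 m) '' ball G
      = (fun w : E m => cns m (w, 0)) '' P G 1 := by
    have h2 : ∀ w t, cns m (w, t) - inner ℝ (cns m (w, t)) (e0 m) • e0 m = cns m (w, 0) := by
      intro w t
      have h3 : inner ℝ (cns m (w, t)) (e0 m) = t := by
        simp [e0, EuclideanSpace.inner_single_right, cns_zero]
      rw [h3, cns_line m w t, add_sub_cancel_right]
    ext y
    constructor
    · rintro ⟨x, hx, rfl⟩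
      obtain ⟨⟨w, t⟩, rfl⟩ := cns_surj m x
      exact ⟨w, ⟨t, hx⟩, (h2 w t).symm⟩
    · rintro ⟨w, ⟨t, ht⟩, rfl⟩
      exact ⟨cns m (w, t), ht, h2 w t⟩
  have hiso : Isometry (fun w : E m => cns m (w, 0)) := by
    refine Isometry.of_dist_eq fun w w' => ?_
    rw [dist_eq_norm, dist_eq_norm]
    have h5 : cns m (w, 0) - cns m (w', 0) = cns m (w - w', 0) := by
      have := cns_add m (w - w') w' 0 0
      rw [sub_add_cancel, zero_add] at this
      rw [this, add_sub_cancel_right]
    rw [h5, ← sq_eq_sq₀ (norm_nonneg _) (norm_nonneg _), norm_cns_sq]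
    ring
  rw [h1, hiso.hausdorffMeasure_image (Or.inl (by positivity)), M_eq hG]
  have h2 : μ (P G 1) = cst * volume (P G 1) := by
    have := Measure.isAddLeftInvariant_eq_smul μ (volume : Measure (E m))
    rw [this]
    simp [hcst]
  rw [h2, ENNReal.toReal_mul]
  have : ((m : ℝ) + 1) ≠ 0 := by positivity
  simp only [ENNReal.coe_toReal]
  field_simp

end Proj

open Proj MeasureTheory Set in
theorem specProj : SpecProj := by
  intro n hn
  obtain ⟨m, rfl⟩ : ∃ m, n = m + 1 := ⟨n - 1, by omega⟩
  obtain ⟨κ, hκ, hmain⟩ := haus_e0 m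
  refine ⟨κ, hκ, fun g hg u hu => ?_⟩
  -- an orthonormal basis starting with `u`
  obtain ⟨b, hb⟩ := Orthonormal.exists_orthonormalBasis_extension_of_card_eq
    (𝕜 := ℝ) (E := E (m + 1)) (ι := Fin (m + 1)) (by simp) (v := fun _ => u) (s := {0}) (by
      rw [orthonormal_iff_ite]
      intro i j
      have : i = j := Subsingleton.elim _ _
      subst this
      simp [hu])
  have hb0 : b 0 = u := hb 0 (by simp)
  set R : E (m + 1) ≃ₗᵢ[ℝ] E (m + 1) := b.repr.symm with hR
  have hRe : R (e0 m) = u := by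
    rw [hR, e0, ← hb0]
    exact b.repr_symm_single 0
  set G : E (m + 1) → ℝ := fun x => g (R x) with hG
  have hGn : IsNormF G := by
    refine ⟨fun t x => ?_, fun x y => ?_, fun x hx => ?_⟩
    · simp only [hG, map_smul]; exact hg.smul _ _
    · simp only [hG, map_add]; exact hg.add _ _
    · exact hg.pos _ (by simpa using hx)
  have hball : ball G = R ⁻¹' ball g := rfl
  have hM : M G (e0 m) = M g u := by
    unfold M
    rw [hball]
    have h1 : ∀ x, fderiv ℝ G x (e0 m) = fderiv ℝ g (R x) u := by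
      intro x
      have h2 : fderiv ℝ (g ∘ R.toContinuousLinearEquiv) x =
          (fderiv ℝ g (R x)).comp (R.toContinuousLinearEquiv : E (m + 1) →L[ℝ] E (m + 1)) :=
        R.toContinuousLinearEquiv.comp_right_fderiv
      have h3 : fderiv ℝ G x = fderiv ℝ (g ∘ R.toContinuousLinearEquiv) x := rfl
      rw [h3, h2, ← hRe]
      rfl
    simp only [h1]
    exact R.measurePreserving.setIntegral_preimage_emb
      R.toHomeomorph.measurableEmbedding (fun y => |fderiv ℝ g y u|) (ball g)
  have himg : (fun x : E (m + 1) => x - inner ℝ x u • u) '' ball g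
      = R '' ((fun x : E (m + 1) => x - inner ℝ x (e0 m) • e0 m) '' ball G) := by
    have h2 : ∀ x, R (x - inner ℝ x (e0 m) • e0 m) = R x - inner ℝ (R x) u • u := by
      intro x
      rw [map_sub, map_smul, hRe, ← hRe, R.inner_map_map]
    ext y
    constructor
    · rintro ⟨x, hx, rfl⟩
      refine ⟨_, ⟨R.symm x, ?_, rfl⟩, ?_⟩
      · rw [hball]; simpa using hx
      · rw [h2, R.apply_symm_apply]
    · rintro ⟨_, ⟨x, hx, rfl⟩, rfl⟩
      exact ⟨R x, hx, (h2 x).symm⟩
  have hexp : (((m + 1 : ℕ) : ℝ) - 1) = (m : ℝ) := by push_cast; ring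
  rw [himg, hexp, R.isometry.hausdorffMeasure_image (Or.inl (by positivity)), hmain G hGn, hM]

end Pool.Agent.Lib.MP_37d555_gt
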