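import Pool.Agent.Lib.MP_37d555_gt.Symm

/-!
# Module PYTH
-/

set_option autoImplicit false

namespace Pool.Agent.Lib.MP_37d555_gt

open MeasureTheory Filter Topology

namespace Pyth

variable {n : ℕ} {g : E n → ℝ}

/-- A pair of nonzero orthogonal vectors (both ways). -/
structure Pair (g : E n → ℝ) (x y : E n) : Prop where
  hx : x ≠ 0
  hy : y ≠ 0
  xy : fderiv ℝ g x y = 0
  yx : fderiv ℝ g y x = 0

theorem Pair.symm {x y : E n} (h : Pair g x y) : Pair g y x := ⟨h.hy, h.hx, h.yx, h.xy⟩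

theorem Pair.of (hsym : Symm g) {x y : E n} (hx : x ≠ 0) (hy : y ≠ 0) (h : fderiv ℝ g x y = 0) :
    Pair g x y := ⟨hx, hy, h, hsym x y hx hy h⟩

theorem Pair.neg_right (hsym : Symm g) {x y : E n} (h : Pair g x y) : Pair g x (-y) :=
  Pair.of hsym h.hx (neg_ne_zero.mpr h.hy) (by rw [map_neg, h.xy, neg_zero])

theorem Pair.smul_right (hsym : Symm g) {x y : E n} (h : Pair g x y) {t : ℝ} (ht : t ≠ 0) :
    Pair g x (t • y) :=
  Pair.of hsym h.hx (smul_ne_zero ht h.hy) (by rw [map_smul, h.xy, smul_zero])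

/-- The value of `q_x` on `x + (something orthogonal)`. -/
theorem q_self (hg : IsNormF g) (hS : Smooth g) {x : E n} (hx : x ≠ 0) :
    0 < fderiv ℝ g x x := by
  rw [Symm.euler hg (hS x hx)]
  exact hg.pos x hx

/-- If `q_x v ≠ 0` then `q_v x ≠ 0`. -/
theorem ne_of_ne (hsym : Symm g) {x v : E n} (hx : x ≠ 0) (hv : v ≠ 0)
    (h : fderiv ℝ g x v ≠ 0) : fderiv ℝ g v x ≠ 0 := fun h' => h (hsym v x hv hx h')

theorem ne_zero_of_q {x v : E n} (h : fderiv ℝ g x v ≠ 0) : v ≠ 0 := by
  rintro rfl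
  exact h (map_zero _)

/-- The ratio. -/
noncomputable def m (g : E n → ℝ) (x y : E n) (t : ℝ) : ℝ :=
  fderiv ℝ g (x + t • y) y / fderiv ℝ g (x + t • y) x

section pair

variable (hg : IsNormF g) (hS : Smooth g) (hsym : Symm g) {x y : E n} (h : Pair g x y)

include hg hS h in
theorem v_ne (t : ℝ) : x + t • y ≠ 0 := by
  apply ne_zero_of_q (g := g) (x := x)
  rw [map_add, map_smul, h.xy, smul_zero, add_zero]
  exact (q_self hg hS h.hx).ne'

include hg hS hsym h in
theorem qy_pos {t : ℝ} (ht : 0 < t) : 0 < fderiv ℝ g (x + t • y) y := by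
  have hv := v_ne hg hS h t
  have h1 : fderiv ℝ g y (x + t • y) ≠ 0 := by
    rw [map_add, map_smul, h.yx, zero_add, smul_eq_mul]
    exact (mul_pos ht (q_self hg hS h.hy)).ne'
  have h2 := ne_of_ne hsym h.hy hv h1
  have h3 := Symm.mono hg (hS _ hv) (hS _ h.hx)
  rw [add_sub_cancel_left, map_smul, map_smul, h.xy, smul_zero, sub_zero, smul_eq_mul] at h3
  have h4 : 0 ≤ fderiv ℝ g (x + t • y) y := by
    by_contra hneg
    push Not at hneg
    nlinarith
  exact lt_of_le_of_ne h4 (Ne.symm h2)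

include hg hS hsym h in
theorem qx_pos {t : ℝ} (ht : 0 < t) : 0 < fderiv ℝ g (x + t • y) x := by
  have hv := v_ne hg hS h t
  have h1 : fderiv ℝ g x (x + t • y) ≠ 0 := by
    rw [map_add, map_smul, h.xy, smul_zero, add_zero]
    exact (q_self hg hS h.hx).ne'
  have h2 := ne_of_ne hsym h.hx hv h1
  have hp := (h.symm.smul_right hsym (t := 1) one_ne_zero)
  have hty : Pair g (t • y) x := (Pair.smul_right hsym h ht.ne').symm
  have h3 := Symm.mono hg (hS _ hv) (hS _ hty.hx)
  rw [add_sub_cancel_right, hty.xy, sub_zero] at h3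
  exact lt_of_le_of_ne h3 (Ne.symm h2)

include hg hS hsym h in
theorem m_pos {t : ℝ} (ht : 0 < t) : 0 < m g x y t :=
  div_pos (qy_pos hg hS hsym h ht) (qx_pos hg hS hsym h ht)

include hg hS hsym h in
theorem m_mono {s t : ℝ} (hs : 0 < s) (hst : s ≤ t) : m g x y s ≤ m g x y t := by
  rcases hst.eq_or_lt with rfl | hlt
  · exact le_rfl
  have ht : 0 < t := hs.trans hlt
  have hvs := v_ne hg hS h s
  have hvt := v_ne hg hS h t
  unfold m
  apply div_le_div₀ (qy_pos hg hS hsym h ht).le _ (qx_pos hg hS hsym h ht)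
  · -- `q_{v_t} x ≤ q_{v_s} x`
    have e1 : s⁻¹ • (x + s • y) = s⁻¹ • x + y := by
      rw [smul_add, smul_smul, inv_mul_cancel₀ hs.ne', one_smul]
    have e2 : t⁻¹ • (x + t • y) = t⁻¹ • x + y := by
      rw [smul_add, smul_smul, inv_mul_cancel₀ ht.ne', one_smul]
    have hs' : s⁻¹ • (x + s • y) ≠ 0 := smul_ne_zero (inv_ne_zero hs.ne') hvs
    have ht' : t⁻¹ • (x + t • y) ≠ 0 := smul_ne_zero (inv_ne_zero ht.ne') hvt
    have h1 := Symm.mono hg (hS _ hs') (hS _ ht')
    have e3 : s⁻¹ • (x + s • y) - t⁻¹ • (x + t • y) = (s⁻¹ - t⁻¹) • x := by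
      rw [e1, e2, sub_smul]; abel
    rw [e3, map_smul, map_smul, Symm.fderiv_smul hg (hS _ hvs) (inv_pos.mpr hs) (hS _ hs'),
      Symm.fderiv_smul hg (hS _ hvt) (inv_pos.mpr ht) (hS _ ht'), smul_eq_mul, smul_eq_mul] at h1
    have h2 : 0 < s⁻¹ - t⁻¹ := sub_pos.mpr (inv_strictAnti₀ hs hlt)
    by_contra hneg
    push Not at hneg
    nlinarith
  · have h1 := Symm.mono hg (hS _ hvt) (hS _ hvs)
    have e3 : x + t • y - (x + s • y) = (t - s) • y := by rw [sub_smul]; abel
    rw [e3, map_smul, map_smul, smul_eq_mul, smul_eq_mul] at h1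
    have h2 : 0 < t - s := sub_pos.mpr hlt
    by_contra hneg
    push Not at hneg
    nlinarith

/-- The direction orthogonal to `v_t` in the plane. -/
theorem u_ne (hg : IsNormF g) (hS : Smooth g) (h : Pair g x y) (a : ℝ) : y - a • x ≠ 0 := by
  apply ne_zero_of_q (g := g) (x := y)
  rw [map_sub, map_smul, h.yx, smul_zero, sub_zero]
  exact (q_self hg hS h.hy).ne'

include hg hS hsym h in
theorem qv_u {t : ℝ} (ht : 0 < t) : fderiv ℝ g (x + t • y) (y - m g x y t • x) = 0 := by
  rw [map_sub, map_smul, smul_eq_mul]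
  unfold m
  rw [div_mul_cancel₀ _ (qx_pos hg hS hsym h ht).ne', sub_self]

include hg hS hsym h in
theorem qu_v {t : ℝ} (ht : 0 < t) : fderiv ℝ g (y - m g x y t • x) (x + t • y) = 0 :=
  hsym _ _ (v_ne hg hS h t) (u_ne hg hS h _) (qv_u hg hS hsym h ht)

end pair

/-- KEY: `m` does not see the third coordinate. -/
theorem key (hg : IsNormF g) (hS : Smooth g) (hsym : Symm g) {x y z : E n} (hxy : Pair g x y)
    (hxz : Pair g x z) (hyz : Pair g y z) {t : ℝ} (ht : 0 < t) (c s : ℝ) 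
    (hne : c • (x + t • y) + s • z ≠ 0) :
    fderiv ℝ g (c • (x + t • y) + s • z) y = m g x y t * fderiv ℝ g (c • (x + t • y) + s • z) x := by
  have hu := u_ne hg hS hxy (m g x y t)
  have h1 := qu_v hg hS hsym hxy ht
  have h2 : fderiv ℝ g z (y - m g x y t • x) = 0 := by
    rw [map_sub, map_smul, hyz.yx, hxz.yx, smul_zero, sub_zero]
  have h3 := hsym z _ hxz.hy hu h2
  have h4 : fderiv ℝ g (y - m g x y t • x) (c • (x + t • y) + s • z) = 0 := by
    rw [map_add, map_smul, map_smul, h1, h3, smul_zero, smul_zero, add_zero]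
  have h5 := hsym _ _ hu hne h4
  rw [map_sub, map_smul, smul_eq_mul] at h5
  linarith

/-- Multiplicativity. -/
theorem mult (hg : IsNormF g) (hS : Smooth g) (hsym : Symm g) {x y z : E n} (hxy : Pair g x y)
    (hxz : Pair g x z) (hyz : Pair g y z) {r t : ℝ} (hr : 0 < r) (ht : 0 < t) :
    m g x z (r * t) = m g y z r * m g x y t := by
  set v : E n := x + t • y + (r * t) • z with hv
  have hqx : fderiv ℝ g x v = fderiv ℝ g x x := by
    rw [hv, map_add, map_add, map_smul, map_smul, hxy.xy, hxz.xy, smul_zero, smul_zero, add_zero,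
      add_zero]
  have hqx' : fderiv ℝ g x v ≠ 0 := by
    rw [hqx]; exact (q_self hg hS hxy.hx).ne'
  have hvne : v ≠ 0 := ne_zero_of_q hqx'
  have hqv : fderiv ℝ g v x ≠ 0 := ne_of_ne hsym hxy.hx hvne hqx'
  have e1 : v = (1 : ℝ) • (x + t • y) + (r * t) • z := by rw [hv, one_smul]
  have e2 : v = (1 : ℝ) • (x + (r * t) • z) + t • y := by rw [hv, one_smul]; abel
  have e3 : v = t • (y + r • z) + (1 : ℝ) • x := by
    rw [hv, smul_add, smul_smul, one_smul, mul_comm t r]; abel
  have k1 := key hg hS hsym hxy hxz hyz ht 1 (r * t) (e1 ▸ hvne)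
  have k2 := key hg hS hsym hxz hxy hyz.symm (mul_pos hr ht) 1 t (e2 ▸ hvne)
  have k3 := key hg hS hsym hyz hxy.symm hxz.symm hr t 1 (e3 ▸ hvne)
  rw [← e1] at k1
  rw [← e2] at k2
  rw [← e3] at k3
  have : m g x z (r * t) * fderiv ℝ g v x = (m g y z r * m g x y t) * fderiv ℝ g v x := by
    rw [← k2, k3, k1]; ring
  exact mul_right_cancel₀ hqv this

/-- A monotone multiplicative involution-like function is the identity. -/
theorem id_of_mult {f : ℝ → ℝ} (hpos : ∀ t, 0 < t → 0 < f t)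
    (hmono : ∀ s t, 0 < s → s ≤ t → f s ≤ f t) (hff : ∀ t, 0 < t → f (f t) = t) (t : ℝ)
    (ht : 0 < t) : f t = t := by
  rcases lt_trichotomy (f t) t with h | h | h
  · have := hmono (f t) t (hpos t ht) h.le
    rw [hff t ht] at this
    linarith
  · exact h
  · have := hmono t (f t) ht h.le
    rw [hff t ht] at this
    linarith

/-- The ratio is linear. -/
theorem m_linear (hg : IsNormF g) (hS : Smooth g) (hsym : Symm g) {x y z : E n}
    (hxy : Pair g x y) (hxz : Pair g x z) (hyz : Pair g y z) (t : ℝ) (ht : 0 < t) :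
    m g x y t = m g x y 1 * t := by
  have h1 : (0 : ℝ) < 1 := one_pos
  have hC := m_pos hg hS hsym hxz h1
  set f : ℝ → ℝ := fun t => m g x z t / m g x z 1 with hf
  have hfpos : ∀ t, 0 < t → 0 < f t := fun t ht => div_pos (m_pos hg hS hsym hxz ht) hC
  have hfmono : ∀ s t, 0 < s → s ≤ t → f s ≤ f t := fun s t hs hst =>
    div_le_div_of_nonneg_right (m_mono hg hS hsym hxz hs hst) hC.le
  -- `m x y = m x y 1 * f`, for `y` and for `-y`
  have hrep : ∀ w : E n, Pair g x w → Pair g w z → ∀ t, 0 < t → m g x w t = m g x w 1 * f t := by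
    intro w hxw hwz t ht
    have a1 := mult hg hS hsym hxw hxz hwz h1 ht
    have a2 := mult hg hS hsym hxw hxz hwz h1 h1
    rw [one_mul] at a1 a2
    have hwz1 := m_pos hg hS hsym hwz h1
    have hxw1 := m_pos hg hS hsym hxw h1
    rw [hf]
    simp only
    rw [a1, a2]
    field_simp
  have hmul : ∀ r t, 0 < r → 0 < t → f (r * t) = f r * f t := by
    intro r t hr ht
    have a0 := mult hg hS hsym hxy hxz hyz hr ht
    have a1 := mult hg hS hsym hxy hxz hyz hr h1
    have a2 := mult hg hS hsym hxy hxz hyz h1 ht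
    have a3 := mult hg hS hsym hxy hxz hyz h1 h1
    rw [mul_one] at a1 a3
    rw [one_mul] at a2
    have hyz1 := m_pos hg hS hsym hyz h1
    have hxy1 := m_pos hg hS hsym hxy h1
    rw [hf]
    simp only
    rw [a0, a1, a2, a3]
    field_simp
  have hf1 : f 1 = 1 := by
    rw [hf]; exact div_self hC.ne'
  have hyn : Pair g x (-y) := hxy.neg_right hsym
  have hynz : Pair g (-y) z := (hyz.symm.neg_right hsym).symm
  set a := m g x y 1 with ha
  set b := m g x (-y) 1 with hb
  have hapos : 0 < a := m_pos hg hS hsym hxy h1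
  have hbpos : 0 < b := m_pos hg hS hsym hyn h1
  have hmy := hrep y hxy hyz
  have hmn := hrep (-y) hyn hynz
  -- planar symmetry
  have hplan : ∀ t, 0 < t → m g x (-y) (m g x y t)⁻¹ = t⁻¹ := by
    intro t ht
    have hmt := m_pos hg hS hsym hxy ht
    have b1 := qu_v hg hS hsym hxy ht
    -- `u = -m • (x + m⁻¹ • (-y))`
    have e1 : y - m g x y t • x = (-(m g x y t)) • (x + (m g x y t)⁻¹ • (-y)) := by
      rw [smul_add, smul_smul, neg_mul, mul_inv_cancel₀ hmt.ne']
      simp only [neg_smul, smul_neg, one_smul, neg_neg]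
      abel
    have hne2 : x + (m g x y t)⁻¹ • (-y) ≠ 0 := v_ne hg hS hyn _
    have hvt := v_ne hg hS hxy t
    have b2 := qv_u hg hS hsym hxy ht
    rw [e1, map_smul, smul_eq_mul] at b2
    have b3 : fderiv ℝ g (x + t • y) (x + (m g x y t)⁻¹ • (-y)) = 0 := by
      rcases mul_eq_zero.mp b2 with h | h
      · exact absurd h (neg_ne_zero.mpr hmt.ne')
      · exact h
    have b4 := hsym _ _ hvt hne2 b3
    have hq := qx_pos hg hS hsym hyn (inv_pos.mpr hmt)
    have hq' := qy_pos hg hS hsym hyn (inv_pos.mpr hmt)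
    have b5 : fderiv ℝ g (x + (m g x y t)⁻¹ • (-y)) x =
        t * fderiv ℝ g (x + (m g x y t)⁻¹ • (-y)) (-y) := by
      rw [map_add, map_smul, smul_eq_mul] at b4
      rw [map_neg]
      linarith
    have : m g x (-y) (m g x y t)⁻¹ = fderiv ℝ g (x + (m g x y t)⁻¹ • (-y)) (-y) /
        fderiv ℝ g (x + (m g x y t)⁻¹ • (-y)) x := rfl
    rw [this, b5, mul_comm t, div_mul_eq_div_div, div_self hq'.ne', one_div]
  -- `f (f t) = t`
  have hinv : ∀ c, 0 < c → f c⁻¹ = (f c)⁻¹ := by
    intro c hc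
    have := hmul c c⁻¹ hc (inv_pos.mpr hc)
    rw [mul_inv_cancel₀ hc.ne', hf1] at this
    exact eq_inv_of_mul_eq_one_right this.symm
  have hff0 : ∀ t, 0 < t → b * (f a)⁻¹ * (f (f t))⁻¹ = t⁻¹ := by
    intro t ht
    have c1 := hplan t ht
    rw [hmn _ (inv_pos.mpr (m_pos hg hS hsym hxy ht)), hmy t ht,
      hinv _ (mul_pos hapos (hfpos t ht)), hmul a (f t) hapos (hfpos t ht), mul_inv] at c1
    rw [← c1]; ring
  have hba : b * (f a)⁻¹ = 1 := by
    have := hff0 1 one_pos
    rw [hf1, hf1] at this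
    simpa using this
  have hff : ∀ t, 0 < t → f (f t) = t := by
    intro t ht
    have := hff0 t ht
    rw [hba, one_mul] at this
    exact inv_injective this
  rw [hmy t ht, id_of_mult hfpos hfmono hff t ht]

/-- The common kernel. -/
theorem exists_third (hn : 3 ≤ n) (hg : IsNormF g) (hsym : Symm g) {x y : E n}
    (h : Pair g x y) : ∃ z, Pair g x z ∧ Pair g y z := by
  let F : E n →ₗ[ℝ] (Fin 2 → ℝ) := LinearMap.pi
    ![(fderiv ℝ g x : E n →ₗ[ℝ] ℝ), (fderiv ℝ g y : E n →ₗ[ℝ] ℝ)]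
  have hF : LinearMap.ker F ≠ ⊥ := by
    apply LinearMap.ker_ne_bot_of_finrank_lt
    rw [Module.finrank_fin_fun, finrank_euclideanSpace_fin]
    omega
  obtain ⟨z, hz, hz0⟩ := Submodule.exists_mem_ne_zero_of_ne_bot hF
  have hz' := LinearMap.mem_ker.mp hz
  have h0 : fderiv ℝ g x z = 0 := congrFun hz' 0
  have h1 : fderiv ℝ g y z = 0 := congrFun hz' 1
  exact ⟨z, Pair.of hsym h.hx hz0 h0, Pair.of hsym h.hy hz0 h1⟩

end Pyth

open Pyth in
theorem specPyth : SpecPyth := by
  intro n g hn hg hS hsym x y hx hxy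
  by_cases hy : y = 0
  · rw [hy, add_zero, Symm.zero hg]; ring
  have hP : Pair g x y := Pair.of hsym hx hy hxy
  obtain ⟨z, hxz, hyz⟩ := exists_third hn hg hsym hP
  have hlin := m_linear hg hS hsym hP hxz hyz
  set a := m g x y 1 with ha
  have hapos : 0 < a := m_pos hg hS hsym hP one_pos
  -- the function `U`
  have hU : ∀ t : ℝ, HasDerivAt (fun t : ℝ => g (x + t • y)) (fderiv ℝ g (x + t • y) y) t :=
    fun t => Symm.hasDerivAt_line' (hS _ (v_ne hg hS hP t))
  have hrel : ∀ t : ℝ, 0 ≤ t →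
      (1 + a * t ^ 2) * fderiv ℝ g (x + t • y) y = a * t * g (x + t • y) := by
    intro t ht
    rcases ht.eq_or_lt with rfl | ht
    · simp [hP.xy]
    · have h1 := hlin t ht
      have hqx := qx_pos hg hS hsym hP ht
      have h2 : fderiv ℝ g (x + t • y) y = a * t * fderiv ℝ g (x + t • y) x := by
        rw [← h1]
        unfold m
        rw [div_mul_cancel₀ _ hqx.ne']
      have h3 := Symm.euler hg (hS _ (v_ne hg hS hP t))
      rw [map_add, map_smul, smul_eq_mul] at h3
      rw [← h3, h2]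
      ring
  have hden : ∀ t : ℝ, 0 < 1 + a * t ^ 2 := fun t => by positivity
  have hW : ∀ t : ℝ, 0 ≤ t →
      HasDerivAt (fun t : ℝ => g (x + t • y) ^ 2 / (1 + a * t ^ 2)) 0 t := by
    intro t ht
    have h1 : HasDerivAt (fun t : ℝ => g (x + t • y) ^ 2)
        (2 * g (x + t • y) * fderiv ℝ g (x + t • y) y) t := by
      have := (hasDerivAt_pow 2 (g (x + t • y))).comp t (hU t)
      exact this.congr_deriv (by simp)
    have h2 : HasDerivAt (fun t : ℝ => 1 + a * t ^ 2) (2 * a * t) t := by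
      have := ((hasDerivAt_pow 2 t).const_mul a).const_add 1
      exact this.congr_deriv (by simp; ring)
    have h3 := h1.div h2 (hden t).ne'
    refine h3.congr_deriv ?_
    rw [div_eq_zero_iff]
    left
    have := hrel t ht
    have e : 2 * g (x + t • y) * fderiv ℝ g (x + t • y) y * (1 + a * t ^ 2) =
        2 * g (x + t • y) * ((1 + a * t ^ 2) * fderiv ℝ g (x + t • y) y) := by ring
    rw [e, this]
    ring
  have hconst : ∀ t : ℝ, 0 ≤ t → g (x + t • y) ^ 2 = g x ^ 2 * (1 + a * t ^ 2) := by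
    intro t ht
    have h1 := constant_of_has_deriv_right_zero
      (f := fun t : ℝ => g (x + t • y) ^ 2 / (1 + a * t ^ 2)) (a := 0) (b := t)
      (fun s hs => (hW s hs.1).continuousAt.continuousWithinAt)
      (fun s hs => (hW s hs.1).hasDerivWithinAt) t ⟨ht, le_rfl⟩
    simp only [zero_smul, add_zero] at h1
    have h2 : g (x + t • y) ^ 2 / (1 + a * t ^ 2) = g x ^ 2 := by
      rw [h1]; simp
    rw [div_eq_iff (hden t).ne'] at h2
    exact h2
  -- the limit at infinity
  have hlim : g y ^ 2 = g x ^ 2 * a := by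
    have hc := Symm.continuous hg
    have t1 : Tendsto (fun t : ℝ => g (t⁻¹ • x + y) ^ 2) atTop (𝓝 (g y ^ 2)) := by
      have e0 : Tendsto (fun t : ℝ => t⁻¹ • x + y) atTop (𝓝 y) := by
        have := (tendsto_inv_atTop_zero (𝕜 := ℝ)).smul_const x
        have := this.add_const y
        simpa using this
      exact ((hc.tendsto y).comp e0).pow 2
    have t2 : Tendsto (fun t : ℝ => g x ^ 2 * (t⁻¹ ^ 2 + a)) atTop (𝓝 (g x ^ 2 * a)) := by
      have e0 : Tendsto (fun t : ℝ => t⁻¹ ^ 2 + a) atTop (𝓝 (0 ^ 2 + a)) :=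
        ((tendsto_inv_atTop_zero (𝕜 := ℝ)).pow 2).add_const a
      have := e0.const_mul (g x ^ 2)
      simpa using this
    refine tendsto_nhds_unique t1 (t2.congr' ?_)
    filter_upwards [eventually_gt_atTop (0 : ℝ)] with t ht
    have e1 : x + t • y = t • (t⁻¹ • x + y) := by
      rw [smul_add, smul_smul, mul_inv_cancel₀ ht.ne', one_smul]
    have h1 := hconst t ht.le
    rw [e1, hg.smul, abs_of_pos ht, mul_pow] at h1
    have ht2 : t ^ 2 ≠ 0 := (pow_pos ht 2).ne'
    apply mul_left_cancel₀ ht2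
    rw [h1]
    field_simp
    try ring
  have h1 := hconst 1 zero_le_one
  rw [one_smul] at h1
  rw [h1, hlim]
  ring

end Pool.Agent.Lib.MP_37d555_gt
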