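import Pool.Agent.Lib.MP_37d555_gt.Defs

/-! Specifications of the modules for MP_37d555_gt (S13019). See `/team-store/MP_37d555_gt_PROOF.md`. -/

set_option autoImplicit false

namespace Pool.Agent.Lib.MP_37d555_gt

open MeasureTheory

/-- Module GAUGE. -/
def SpecGauge : Prop :=
  ∀ (n : ℕ) (K : Set (E n)), IsCompact K → Convex ℝ K → (interior K).Nonempty → (∀ x ∈ K, -x ∈ K) →
    IsNormF (gauge K) ∧ ball (gauge K) = K

/-- Module PROJ: the projection formula `λ_{n-1}(K | u^⊥) = (n/2) ∫_K |∂_u g|`, up to the normalisation of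
the Hausdorff measure. -/
def SpecProj : Prop :=
  ∀ n : ℕ, 1 ≤ n → ∃ κ : ℝ, 0 < κ ∧ ∀ g : E n → ℝ, IsNormF g → ∀ u : E n, ‖u‖ = 1 →
    (Measure.hausdorffMeasure ((n : ℝ) - 1)
      ((fun x : E n => x - inner ℝ x u • u) '' ball g)).toReal = κ * M g u

/-- Module WULFF: the hypothesis of the problem gives `M g = c g`. -/
def SpecWulff : Prop :=
  ∀ (n : ℕ) (g : E n → ℝ), 1 ≤ n → IsNormF g → ∀ (κ c : ℝ) (t : E n), 0 < κ → 0 < c →
    {y : E n | ∀ u : E n, ‖u‖ = 1 → inner ℝ y u ≤ κ * M g u}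
      = (fun y : E n => c • y + t) '' {y : E n | ∀ x ∈ ball g, inner ℝ x y ≤ 1} →
    ∃ c' : ℝ, 0 < c' ∧ ∀ u : E n, M g u = c' * g u

/-- Module HALF: `∫_K sign(L x) ∂_e g dx = 0` when `L e = 0`. -/
def SpecHalf : Prop :=
  ∀ (n : ℕ) (g : E n → ℝ), IsNormF g → ∀ (L : E n →L[ℝ] ℝ) (e : E n), L e = 0 →
    ∫ x in ball g, Real.sign (L x) * fderiv ℝ g x e = 0

/-- Module SIGN (may assume `SpecHalf`): the integral identity and its equality case. -/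
def SpecSign : Prop :=
  ∀ (n : ℕ) (g : E n → ℝ), 1 ≤ n → IsNormF g → (∃ c : ℝ, 0 < c ∧ ∀ u : E n, M g u = c * g u) →
    Dense {y : E n | Star g y}

/-- Module SMOOTH. -/
def SpecSmooth : Prop :=
  ∀ (n : ℕ) (g : E n → ℝ), 3 ≤ n → IsNormF g → Dense {y : E n | Star g y} → Smooth g

/-- Module SYMM. -/
def SpecSymm : Prop :=
  ∀ (n : ℕ) (g : E n → ℝ), 1 ≤ n → IsNormF g → Dense {y : E n | Star g y} → Smooth g → Symm g

/-- Module PYTH. -/
def SpecPyth : Prop :=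
  ∀ (n : ℕ) (g : E n → ℝ), 3 ≤ n → IsNormF g → Smooth g → Symm g → Pyth g

/-- Module ELL. -/
def SpecEll : Prop :=
  ∀ (n : ℕ) (g : E n → ℝ), 1 ≤ n → IsNormF g → Smooth g → Symm g → Pyth g →
    ∃ A : E n ≃L[ℝ] E n, ∀ x : E n, g (A x) = ‖x‖

end Pool.Agent.Lib.MP_37d555_gt
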