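import Pool.Agent.Lib.MP_37d555_gt.Basic
import Pool.Agent.Lib.MP_37d555_gt.Spec

/-!
Module SIGN (MP_37d555_gt): the integral identity and its equality case.
-/

set_option autoImplicit false

open MeasureTheory Filter Topology Set

namespace Pool.Agent.Lib.MP_37d555_gt

namespace Sign

variable {n : ℕ} {g : E n → ℝ}

lemma measurable_sign : Measurable Real.sign := by
  have h : Real.sign = fun r : ℝ => if r < 0 then (-1 : ℝ) else if 0 < r then 1 else 0 := by
    funext r
    rfl
  rw [h]
  exact Measurable.ite measurableSet_Iio measurable_const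
    (Measurable.ite measurableSet_Ioi measurable_const measurable_const)

lemma abs_sign_le (r : ℝ) : |Real.sign r| ≤ 1 := by
  rcases Real.sign_apply_eq r with h | h | h <;> rw [h] <;> norm_num

lemma sign_mul_le (r s : ℝ) : Real.sign r * s ≤ |s| := by
  calc Real.sign r * s ≤ |Real.sign r * s| := le_abs_self _
    _ = |Real.sign r| * |s| := abs_mul _ _
    _ ≤ 1 * |s| := mul_le_mul_of_nonneg_right (abs_sign_le r) (abs_nonneg s)
    _ = |s| := one_mul _

lemma sign_mul_self (r : ℝ) : Real.sign r * r = |r| := by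
  rcases lt_trichotomy r 0 with h | h | h
  · rw [Real.sign_of_neg h, abs_of_neg h]; ring
  · subst h; simp
  · rw [Real.sign_of_pos h, abs_of_pos h]; ring

/-- joint measurability of the derivative -/
lemma measurable_pair (g : E n → ℝ) :
    Measurable fun p : E n × E n => fderiv ℝ g p.2 p.1 := by
  have h : (fun p : E n × E n => fderiv ℝ g p.2 p.1) = fun p : E n × E n =>
      ∑ i : Fin n, p.1 i * fderiv ℝ g p.2 (EuclideanSpace.single i (1 : ℝ)) := by
    funext p
    have hx : p.1 = ∑ i : Fin n, p.1 i • EuclideanSpace.single i (1 : ℝ) := by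
      ext j
      simp [Finset.sum_apply, Pi.single_apply]
    conv_lhs => rw [hx]
    rw [map_sum]
    refine Finset.sum_congr rfl fun i _ => ?_
    rw [map_smul, smul_eq_mul]
  rw [h]
  refine Finset.measurable_sum _ fun i _ => ?_
  refine Measurable.mul ?_ ?_
  · have h1 : Continuous fun p : E n × E n => p.1 i := by fun_prop
    exact h1.measurable
  · exact (measurable_fderiv_apply_const ℝ g _).comp measurable_snd

lemma finite_restrict (hg : IsNormF g) : IsFiniteMeasure (volume.restrict (ball g)) :=
  ⟨by rw [Measure.restrict_apply_univ]; exact hg.measure_ball_lt_top⟩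

lemma norm_F_le (hg : IsNormF g) (e u x : E n) :
    ‖fderiv ℝ g u e * (Real.sign (fderiv ℝ g x u) * fderiv ℝ g x e)‖ ≤ g e * (1 * g e) := by
  rw [norm_mul, norm_mul, Real.norm_eq_abs, Real.norm_eq_abs, Real.norm_eq_abs]
  have h0 := hg.nonneg e
  exact mul_le_mul (hg.abs_fderiv_le u e)
    (mul_le_mul (abs_sign_le _) (hg.abs_fderiv_le x e) (abs_nonneg _) zero_le_one)
    (by positivity) h0

lemma integrable_F (hg : IsNormF g) (e : E n) :
    Integrable (Function.uncurry fun u x : E n =>
      fderiv ℝ g u e * (Real.sign (fderiv ℝ g x u) * fderiv ℝ g x e))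
      ((volume.restrict (ball g)).prod (volume.restrict (ball g))) := by
  have := finite_restrict hg
  refine Integrable.of_bound (C := g e * (1 * g e)) ?_ (Eventually.of_forall fun p => ?_)
  · refine Measurable.aestronglyMeasurable ?_
    refine Measurable.mul ?_ (Measurable.mul ?_ ?_)
    · exact (hg.measurable_fderiv_apply e).comp measurable_fst
    · exact measurable_sign.comp (measurable_pair g)
    · exact (hg.measurable_fderiv_apply e).comp measurable_snd
  · exact norm_F_le hg e p.1 p.2

lemma integrable_sign_mul (hg : IsNormF g) (u e : E n) :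
    Integrable (fun x => Real.sign (fderiv ℝ g x u) * fderiv ℝ g x e)
      (volume.restrict (ball g)) := by
  have := finite_restrict hg
  refine Integrable.of_bound (C := 1 * g e) ?_ (Eventually.of_forall fun x => ?_)
  · exact ((measurable_sign.comp (hg.measurable_fderiv_apply u)).mul
      (hg.measurable_fderiv_apply e)).aestronglyMeasurable
  · rw [norm_mul, Real.norm_eq_abs, Real.norm_eq_abs]
    exact mul_le_mul (abs_sign_le _) (hg.abs_fderiv_le x e) (abs_nonneg _) zero_le_one

lemma integrable_sign_mul' (hg : IsNormF g) (x e : E n) :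
    Integrable (fun u => Real.sign (fderiv ℝ g x u) * fderiv ℝ g u e)
      (volume.restrict (ball g)) := by
  have := finite_restrict hg
  refine Integrable.of_bound (C := 1 * g e) ?_ (Eventually.of_forall fun u => ?_)
  · exact ((measurable_sign.comp (fderiv ℝ g x).continuous.measurable).mul
      (hg.measurable_fderiv_apply e)).aestronglyMeasurable
  · rw [norm_mul, Real.norm_eq_abs, Real.norm_eq_abs]
    exact mul_le_mul (abs_sign_le _) (hg.abs_fderiv_le u e) (abs_nonneg _) zero_le_one

/-- formula (A) -/
lemma formula_A (hg : IsNormF g) {c : ℝ} (hc : 0 < c) (hM : ∀ u : E n, M g u = c * g u)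
    {u : E n} (hu : DifferentiableAt ℝ g u) (v : E n) :
    c * fderiv ℝ g u v = ∫ x in ball g, Real.sign (fderiv ℝ g x u) * fderiv ℝ g x v := by
  let p : E n →ₗ[ℝ] ℝ :=
    { toFun := fun v => c⁻¹ * ∫ x in ball g, Real.sign (fderiv ℝ g x u) * fderiv ℝ g x v
      map_add' := by
        intro v w
        have h0 : (∫ x in ball g, Real.sign (fderiv ℝ g x u) * fderiv ℝ g x (v + w)) =
            (∫ x in ball g, Real.sign (fderiv ℝ g x u) * fderiv ℝ g x v) +
            ∫ x in ball g, Real.sign (fderiv ℝ g x u) * fderiv ℝ g x w := by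
          have e1 := integral_add (integrable_sign_mul hg u v) (integrable_sign_mul hg u w)
          rw [← e1]
          refine integral_congr_ae (Eventually.of_forall fun x => ?_)
          change Real.sign (fderiv ℝ g x u) * fderiv ℝ g x (v + w) =
            Real.sign (fderiv ℝ g x u) * fderiv ℝ g x v +
            Real.sign (fderiv ℝ g x u) * fderiv ℝ g x w
          rw [map_add]
          ring
        rw [h0]
        ring
      map_smul' := by
        intro t v
        have h0 : (∫ x in ball g, Real.sign (fderiv ℝ g x u) * fderiv ℝ g x (t • v)) =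
            t * ∫ x in ball g, Real.sign (fderiv ℝ g x u) * fderiv ℝ g x v := by
          have e1 := integral_const_mul (μ := volume.restrict (ball g)) t
            (fun x => Real.sign (fderiv ℝ g x u) * fderiv ℝ g x v)
          rw [← e1]
          refine integral_congr_ae (Eventually.of_forall fun x => ?_)
          change Real.sign (fderiv ℝ g x u) * fderiv ℝ g x (t • v) =
            t * (Real.sign (fderiv ℝ g x u) * fderiv ℝ g x v)
          rw [map_smul, smul_eq_mul]
          ring
        rw [h0, RingHom.id_apply, smul_eq_mul]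
        ring }
  have h1 : ∀ z, p z ≤ g z := by
    intro z
    change c⁻¹ * _ ≤ g z
    rw [inv_mul_le_iff₀ hc, ← hM z]
    unfold M
    exact integral_mono (integrable_sign_mul hg u z) (hg.integrableOn_abs_fderiv z)
      fun x => sign_mul_le _ _
  have h2 : p u = g u := by
    change c⁻¹ * _ = g u
    rw [inv_mul_eq_iff_eq_mul₀ hc.ne', ← hM u]
    unfold M
    exact integral_congr_ae (Eventually.of_forall fun x => sign_mul_self _)
  have h3 := hg.eq_fderiv' hu p h1 h2 v
  rw [← h3]
  change c * (c⁻¹ * _) = _
  rw [← mul_assoc, mul_inv_cancel₀ hc.ne', one_mul]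

/-- the inner integral -/
lemma inner_eq (hHalf : SpecHalf) (hg : IsNormF g) {x : E n} (hx : DifferentiableAt ℝ g x)
    (hx0 : x ≠ 0) (e : E n) :
    ∫ u in ball g, Real.sign (fderiv ℝ g x u) * fderiv ℝ g u e =
      fderiv ℝ g x e / g x * ∫ u in ball g, Real.sign (fderiv ℝ g x u) * fderiv ℝ g u x := by
  have hgx := hg.pos x hx0
  set t : ℝ := fderiv ℝ g x e / g x with ht
  have h1 := hHalf n g hg (fderiv ℝ g x) (e - t • x) (by
    rw [map_sub, map_smul, hg.fderiv_self hx, smul_eq_mul, ht]
    field_simp
    ring)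
  have h2 : ∫ u in ball g, Real.sign (fderiv ℝ g x u) * fderiv ℝ g u (e - t • x) =
      (∫ u in ball g, Real.sign (fderiv ℝ g x u) * fderiv ℝ g u e) -
        t * ∫ u in ball g, Real.sign (fderiv ℝ g x u) * fderiv ℝ g u x := by
    rw [← integral_const_mul, ← integral_sub (integrable_sign_mul' hg x e)
      ((integrable_sign_mul' hg x x).const_mul t)]
    refine integral_congr_ae (Eventually.of_forall fun u => ?_)
    simp only [map_sub, map_smul, smul_eq_mul]
    ring
  rw [h2] at h1
  linarith

/-- the Fubini identity -/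
lemma fubini (hg : IsNormF g) {c : ℝ} (hc : 0 < c) (hM : ∀ u : E n, M g u = c * g u) (e : E n) :
    ∫ x in ball g, c * fderiv ℝ g x e ^ 2 = ∫ x in ball g, fderiv ℝ g x e *
      ∫ u in ball g, Real.sign (fderiv ℝ g x u) * fderiv ℝ g u e := by
  have := finite_restrict hg
  have h1 : ∫ u in ball g, c * fderiv ℝ g u e ^ 2 = ∫ u in ball g, ∫ x in ball g,
      fderiv ℝ g u e * (Real.sign (fderiv ℝ g x u) * fderiv ℝ g x e) := by
    refine integral_congr_ae ?_
    filter_upwards [ae_restrict_of_ae hg.ae_differentiableAt] with u hu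
    rw [integral_const_mul, ← formula_A hg hc hM hu]
    ring
  rw [h1, integral_integral_swap (integrable_F hg e)]
  refine integral_congr_ae (Eventually.of_forall fun x => ?_)
  simp only
  rw [← integral_const_mul]
  refine integral_congr_ae (Eventually.of_forall fun u => ?_)
  ring

lemma integrable_outer (hg : IsNormF g) (e : E n) :
    Integrable (fun x => fderiv ℝ g x e *
      ∫ u in ball g, Real.sign (fderiv ℝ g x u) * fderiv ℝ g u e)
      (volume.restrict (ball g)) := by
  have := finite_restrict hg
  have h1 := (integrable_F hg e).integral_prod_right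
  refine h1.congr (Eventually.of_forall fun x => ?_)
  simp only [Function.uncurry]
  rw [← integral_const_mul]
  refine integral_congr_ae (Eventually.of_forall fun u => ?_)
  ring

/-- the sign property for almost all points -/
lemma ae_sign (hHalf : SpecHalf) (hn : 1 ≤ n) (hg : IsNormF g) {c : ℝ} (hc : 0 < c)
    (hM : ∀ u : E n, M g u = c * g u) :
    ∀ᵐ x ∂(volume.restrict (ball g)), DifferentiableAt ℝ g x ∧
      ∀ᵐ u ∂(volume.restrict (ball g)),
        |fderiv ℝ g u x| = Real.sign (fderiv ℝ g x u) * fderiv ℝ g u x := by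
  have := finite_restrict hg
  have hTle : ∀ x : E n, ∫ u in ball g, Real.sign (fderiv ℝ g x u) * fderiv ℝ g u x ≤ c * g x := by
    intro x
    rw [← hM x]
    exact integral_mono (integrable_sign_mul' hg x x) (hg.integrableOn_abs_fderiv x)
      fun u => sign_mul_le _ _
  have key : ∀ e : E n, ∀ᵐ x ∂(volume.restrict (ball g)), c * fderiv ℝ g x e ^ 2 -
      fderiv ℝ g x e * ∫ u in ball g, Real.sign (fderiv ℝ g x u) * fderiv ℝ g u e = 0 := by
    intro e
    have hi1 : Integrable (fun x => c * fderiv ℝ g x e ^ 2) (volume.restrict (ball g)) := by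
      refine Integrable.of_bound (C := c * g e ^ 2) ?_ (Eventually.of_forall fun x => ?_)
      · exact (((hg.measurable_fderiv_apply e).pow_const 2).const_mul c).aestronglyMeasurable
      · rw [Real.norm_eq_abs, abs_of_nonneg (by positivity)]
        refine mul_le_mul_of_nonneg_left ?_ hc.le
        rw [← sq_abs]
        exact pow_le_pow_left₀ (abs_nonneg _) (hg.abs_fderiv_le x e) 2
    have hnn : 0 ≤ᵐ[volume.restrict (ball g)] fun x => c * fderiv ℝ g x e ^ 2 -
        fderiv ℝ g x e * ∫ u in ball g, Real.sign (fderiv ℝ g x u) * fderiv ℝ g u e := by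
      filter_upwards [ae_restrict_of_ae hg.ae_differentiableAt] with x hx
      have hx0 := hg.ne_zero_of_differentiableAt hn hx
      have hgx := hg.pos x hx0
      simp only [Pi.zero_apply]
      rw [inner_eq hHalf hg hx hx0 e]
      have h1 := hTle x
      have h2 : fderiv ℝ g x e ^ 2 / g x *
          (∫ u in ball g, Real.sign (fderiv ℝ g x u) * fderiv ℝ g u x) ≤
          fderiv ℝ g x e ^ 2 / g x * (c * g x) :=
        mul_le_mul_of_nonneg_left h1 (by positivity)
      have h3 : fderiv ℝ g x e ^ 2 / g x * (c * g x) = c * fderiv ℝ g x e ^ 2 := by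
        field_simp
      have h4 : fderiv ℝ g x e * (fderiv ℝ g x e / g x *
          ∫ u in ball g, Real.sign (fderiv ℝ g x u) * fderiv ℝ g u x) =
          fderiv ℝ g x e ^ 2 / g x *
          ∫ u in ball g, Real.sign (fderiv ℝ g x u) * fderiv ℝ g u x := by
        ring
      rw [h4]
      linarith
    have h0 := (integral_eq_zero_iff_of_nonneg_ae hnn (hi1.sub (integrable_outer hg e))).1 (by
      rw [integral_sub hi1 (integrable_outer hg e), fubini hg hc hM e, sub_self])
    exact h0
  have hall : ∀ᵐ x ∂(volume.restrict (ball g)), ∀ i : Fin n,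
      c * fderiv ℝ g x (EuclideanSpace.single i (1 : ℝ)) ^ 2 -
      fderiv ℝ g x (EuclideanSpace.single i (1 : ℝ)) * ∫ u in ball g,
        Real.sign (fderiv ℝ g x u) * fderiv ℝ g u (EuclideanSpace.single i (1 : ℝ)) = 0 :=
    ae_all_iff.2 fun i => key _
  filter_upwards [hall, ae_restrict_of_ae hg.ae_differentiableAt] with x hx hd
  refine ⟨hd, ?_⟩
  have hx0 := hg.ne_zero_of_differentiableAt hn hd
  have hgx := hg.pos x hx0
  set T : ℝ := ∫ u in ball g, Real.sign (fderiv ℝ g x u) * fderiv ℝ g u x with hT
  have hTeq : T = c * g x := by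
    by_contra hne
    have hlt : T < c * g x := lt_of_le_of_ne (hTle x) hne
    have hz : ∀ i : Fin n, fderiv ℝ g x (EuclideanSpace.single i (1 : ℝ)) = 0 := by
      intro i
      have h1 := hx i
      rw [inner_eq hHalf hg hd hx0, ← hT] at h1
      by_contra hi
      have h2 : 0 < fderiv ℝ g x (EuclideanSpace.single i (1 : ℝ)) ^ 2 := by positivity
      have h3 : fderiv ℝ g x (EuclideanSpace.single i (1 : ℝ)) ^ 2 * (c * g x - T) = 0 := by
        have h4 : g x * (c * fderiv ℝ g x (EuclideanSpace.single i (1 : ℝ)) ^ 2 -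
            fderiv ℝ g x (EuclideanSpace.single i (1 : ℝ)) *
            (fderiv ℝ g x (EuclideanSpace.single i (1 : ℝ)) / g x * T)) = 0 := by
          rw [h1, mul_zero]
        rw [← h4]
        field_simp
      have h4 := (mul_eq_zero.1 h3).resolve_left h2.ne'
      linarith
    have h5 : fderiv ℝ g x x = 0 := by
      have hxs : x = ∑ i : Fin n, x i • EuclideanSpace.single i (1 : ℝ) := by
        ext j
        simp [Finset.sum_apply, Pi.single_apply]
      have h6 : fderiv ℝ g x (∑ i : Fin n, x i • EuclideanSpace.single i (1 : ℝ)) = 0 := by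
        rw [map_sum]
        refine Finset.sum_eq_zero fun i _ => ?_
        rw [map_smul, hz i, smul_zero]
      rwa [← hxs] at h6
    rw [hg.fderiv_self hd] at h5
    exact hgx.ne' h5
  have hnn : 0 ≤ᵐ[volume.restrict (ball g)] fun u => |fderiv ℝ g u x| -
      Real.sign (fderiv ℝ g x u) * fderiv ℝ g u x :=
    Eventually.of_forall fun u => sub_nonneg.2 (sign_mul_le _ _)
  have h0 := (integral_eq_zero_iff_of_nonneg_ae hnn
    ((hg.integrableOn_abs_fderiv x).sub (integrable_sign_mul' hg x x))).1 (by
      rw [integral_sub (hg.integrableOn_abs_fderiv x) (integrable_sign_mul' hg x x), ← hT, hTeq,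
        ← hM x]
      unfold M
      exact sub_self _)
  filter_upwards [h0] with u hu
  have hu' : |fderiv ℝ g u x| - Real.sign (fderiv ℝ g x u) * fderiv ℝ g u x = 0 := hu
  linarith

/-- a point with the sign property is a star point -/
lemma star_of_sign (hn : 1 ≤ n) (hg : IsNormF g) {y : E n} (hy : DifferentiableAt ℝ g y)
    (hs : ∀ᵐ x ∂(volume.restrict (ball g)),
      |fderiv ℝ g x y| = Real.sign (fderiv ℝ g y x) * fderiv ℝ g x y) : Star g y := by
  refine ⟨hy, ?_⟩
  have hy0 := hg.ne_zero_of_differentiableAt hn hy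
  have hgy := hg.pos y hy0
  have hgc := hg.continuous
  -- the case of small vectors
  have small : ∀ w : E n, fderiv ℝ g y w = 0 → g w < 1 → ∀ s : ℝ, g w ≤ g (w + s • y) := by
    intro w hw hw1 s
    have hdense : Dense {x : E n | x ∈ ball g → (DifferentiableAt ℝ g x ∧
        |fderiv ℝ g x y| = Real.sign (fderiv ℝ g y x) * fderiv ℝ g x y)} := by
      apply Measure.dense_of_ae (μ := volume)
      have h1 := (ae_restrict_iff' hg.measurableSet_ball).1 hs
      filter_upwards [h1, hg.ae_differentiableAt] with x hx hd hm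
      exact ⟨hd, hx hm⟩
    have hclosed : IsClosed {x : E n | g x ≤ g (x + s • y)} :=
      isClosed_le hgc (hgc.comp (by fun_prop))
    rcases le_or_gt 0 s with hs0 | hs0
    · have hopen : IsOpen {x : E n | g x < 1 ∧ 0 < fderiv ℝ g y x} :=
        (isOpen_lt hgc continuous_const).inter
          (isOpen_lt continuous_const (fderiv ℝ g y).continuous)
      have hw2 : w ∈ closure {x : E n | g x < 1 ∧ 0 < fderiv ℝ g y x} := by
        have h1 : Tendsto (fun δ : ℝ => w + δ • y) (𝓝[>] 0) (𝓝 w) := by
          have : ContinuousWithinAt (fun δ : ℝ => w + δ • y) (Ioi 0) 0 := by fun_prop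
          simpa using this.tendsto
        refine mem_closure_of_tendsto h1 ?_
        have h2 : ∀ᶠ δ in 𝓝[>] (0 : ℝ), g (w + δ • y) < 1 := by
          have h3 : ∀ᶠ z in 𝓝 w, g z < 1 := (isOpen_lt hgc continuous_const).mem_nhds hw1
          exact h1.eventually h3
        filter_upwards [h2, self_mem_nhdsWithin] with δ hδ hδ0
        refine ⟨hδ, ?_⟩
        rw [map_add, hw, map_smul, hg.fderiv_self hy, zero_add, smul_eq_mul]
        exact mul_pos hδ0 hgy
      have hw3 := closure_mono (hdense.open_subset_closure_inter hopen) hw2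
      rw [closure_closure] at hw3
      refine closure_minimal ?_ hclosed hw3
      rintro x ⟨⟨hx1, hx2⟩, hx3⟩
      obtain ⟨hd, hx4⟩ := hx3 (show x ∈ ball g from hx1.le)
      rw [Real.sign_of_pos hx2, one_mul] at hx4
      have h5 : 0 ≤ fderiv ℝ g x y := by rw [← hx4]; exact abs_nonneg _
      have h6 := hg.add_fderiv_le hd (s • y)
      rw [map_smul, smul_eq_mul] at h6
      have h7 : 0 ≤ s * fderiv ℝ g x y := mul_nonneg hs0 h5
      change g x ≤ g (x + s • y)
      linarith
    · have hopen : IsOpen {x : E n | g x < 1 ∧ fderiv ℝ g y x < 0} :=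
        (isOpen_lt hgc continuous_const).inter
          (isOpen_lt (fderiv ℝ g y).continuous continuous_const)
      have hw2 : w ∈ closure {x : E n | g x < 1 ∧ fderiv ℝ g y x < 0} := by
        have h1 : Tendsto (fun δ : ℝ => w - δ • y) (𝓝[>] 0) (𝓝 w) := by
          have : ContinuousWithinAt (fun δ : ℝ => w - δ • y) (Ioi 0) 0 := by fun_prop
          simpa using this.tendsto
        refine mem_closure_of_tendsto h1 ?_
        have h2 : ∀ᶠ δ in 𝓝[>] (0 : ℝ), g (w - δ • y) < 1 := by
          have h3 : ∀ᶠ z in 𝓝 w, g z < 1 := (isOpen_lt hgc continuous_const).mem_nhds hw1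
          exact h1.eventually h3
        filter_upwards [h2, self_mem_nhdsWithin] with δ hδ hδ0
        refine ⟨hδ, ?_⟩
        rw [map_sub, hw, map_smul, hg.fderiv_self hy, zero_sub, smul_eq_mul, neg_lt_zero]
        exact mul_pos hδ0 hgy
      have hw3 := closure_mono (hdense.open_subset_closure_inter hopen) hw2
      rw [closure_closure] at hw3
      refine closure_minimal ?_ hclosed hw3
      rintro x ⟨⟨hx1, hx2⟩, hx3⟩
      obtain ⟨hd, hx4⟩ := hx3 (show x ∈ ball g from hx1.le)
      rw [Real.sign_of_neg hx2] at hx4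
      have h5 : fderiv ℝ g x y ≤ 0 := by
        have := abs_nonneg (fderiv ℝ g x y)
        linarith
      have h6 := hg.add_fderiv_le hd (s • y)
      rw [map_smul, smul_eq_mul] at h6
      have h7 : 0 ≤ s * fderiv ℝ g x y := mul_nonneg_of_nonpos_of_nonpos hs0.le h5
      change g x ≤ g (x + s • y)
      linarith
  intro w hw s
  -- scaling
  set t : ℝ := (1 + g w)⁻¹ with ht
  have hgw := hg.nonneg w
  have ht0 : 0 < t := by positivity
  have h1 : g (t • w) < 1 := by
    rw [hg.smul_pos ht0.le, ht, inv_mul_lt_iff₀ (by positivity)]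
    linarith
  have h2 := small (t • w) (by rw [map_smul, hw, smul_zero]) h1 (t * s)
  rw [mul_smul, ← smul_add, hg.smul_pos ht0.le, hg.smul_pos ht0.le] at h2
  exact le_of_mul_le_mul_left h2 ht0

lemma star_smul (hg : IsNormF g) {y : E n} (h : Star g y) {t : ℝ} (ht : 0 < t) :
    Star g (t • y) := by
  obtain ⟨hd, hs⟩ := h
  refine ⟨hg.differentiableAt_smul hd ht, fun w hw s => ?_⟩
  rw [hg.fderiv_smul_pos hd ht] at hw
  rw [smul_smul]
  exact hs w hw (s * t)

end Sign

theorem specSign (hHalf : SpecHalf) : SpecSign := by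
  intro n g hn hg ⟨c, hc, hM⟩
  have h1 := Sign.ae_sign hHalf hn hg hc hM
  have h2 : ∀ᵐ x : E n, x ∈ ball g → Star g x := by
    have h3 := (ae_restrict_iff' hg.measurableSet_ball).1 h1
    filter_upwards [h3] with x hx hm
    obtain ⟨hd, hs⟩ := hx hm
    exact Sign.star_of_sign hn hg hd hs
  have h3 : Dense {x : E n | x ∈ ball g → Star g x} := Measure.dense_of_ae h2
  have hgc := hg.continuous
  rw [dense_iff_inter_open]
  intro U hU ⟨z, hz⟩
  -- a small multiple
  set t : ℝ := (1 + g z)⁻¹ with ht
  have hgz := hg.nonneg z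
  have ht0 : 0 < t := by positivity
  have h4 : g (t • z) < 1 := by
    rw [hg.smul_pos ht0.le, ht, inv_mul_lt_iff₀ (by positivity)]
    linarith
  have hV : IsOpen ({x : E n | t⁻¹ • x ∈ U} ∩ {x : E n | g x < 1}) :=
    (hU.preimage (by fun_prop)).inter (isOpen_lt hgc continuous_const)
  obtain ⟨x, ⟨hx1, hx2⟩, hx3⟩ := h3.inter_open_nonempty _ hV ⟨t • z, by
    refine ⟨?_, h4⟩
    change t⁻¹ • t • z ∈ U
    rwa [smul_smul, inv_mul_cancel₀ ht0.ne', one_smul]⟩
  have hx4 : g x < 1 := hx2
  have hx5 : g x ≤ 1 := le_of_lt hx4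
  exact ⟨t⁻¹ • x, hx1, Sign.star_smul hg (hx3 hx5) (inv_pos.2 ht0)⟩

end Pool.Agent.Lib.MP_37d555_gt
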