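import Pool.Agent.Lib.MP_37d555_gt.Spec
import Pool.Agent.Lib.MP_37d555_gt.Basic

/-! MP_37d555_gt, module SMOOTH: for `n ≥ 3`, if the points `y` with `Star g y` are dense then `g` is
differentiable away from the origin. -/

set_option autoImplicit false

namespace Pool.Agent.Lib.MP_37d555_gt

namespace SmoothMod

open MeasureTheory Filter Topology

variable {n : ℕ} {g : E n → ℝ}

/-- `p` is a subgradient of `g` at `x`. -/
def Sub (g : E n → ℝ) (x : E n) (p : E n →L[ℝ] ℝ) : Prop := (∀ z, p z ≤ g z) ∧ p x = g x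

theorem sub_fderiv (hg : IsNormF g) {x : E n} (hx : DifferentiableAt ℝ g x) :
    Sub g x (fderiv ℝ g x) :=
  ⟨fun z => hg.fderiv_le x z, hg.fderiv_self hx⟩

/-- Existence of a subgradient with large value in a given direction. -/
theorem exists_sub (hg : IsNormF g) (x v : E n) (d : ℝ)
    (h : ∀ t : ℝ, 0 < t → t * d ≤ g (x + t • v) - g x) :
    ∃ p : E n →L[ℝ] ℝ, Sub g x p ∧ d ≤ p v := by
  obtain ⟨C, hC, hCg⟩ := hg.exists_upper
  let t : ℕ → ℝ := fun k => 1 / ((k : ℝ) + 1)
  have ht : ∀ k, 0 < t k := fun k => by positivity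
  have htlim : Tendsto t atTop (𝓝 0) := tendsto_one_div_add_atTop_nhds_zero_nat
  have hz : ∀ k, ∃ z : E n, DifferentiableAt ℝ g z ∧ ‖z - (x + t k • v)‖ < t k ^ 2 := by
    intro k
    obtain ⟨z, hz1, hz2⟩ := hg.dense_differentiableAt.exists_dist_lt (x + t k • v)
      (show (0:ℝ) < t k ^ 2 by have := ht k; positivity)
    refine ⟨z, hz1, ?_⟩
    rw [← dist_eq_norm, dist_comm]
    exact hz2
  choose z hzd hzn using hz
  have hzlim : Tendsto z atTop (𝓝 x) := by
    have h1 : Tendsto (fun k => x + t k • v) atTop (𝓝 x) := by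
      have : Tendsto (fun k => x + t k • v) atTop (𝓝 (x + (0:ℝ) • v)) :=
        tendsto_const_nhds.add (htlim.smul_const v)
      simpa using this
    have h2 : Tendsto (fun k => z k - (x + t k • v)) atTop (𝓝 0) := by
      rw [tendsto_zero_iff_norm_tendsto_zero]
      refine squeeze_zero (fun _ => norm_nonneg _) (fun k => (hzn k).le) ?_
      have : Tendsto (fun k => t k ^ 2) atTop (𝓝 (0 ^ 2)) := htlim.pow 2
      simpa using this
    have h3 := h2.add h1
    simpa using h3
  have hbd : ∀ k, ‖fderiv ℝ g (z k)‖ ≤ C := by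
    intro k
    refine ContinuousLinearMap.opNorm_le_bound _ hC.le fun w => ?_
    rw [Real.norm_eq_abs]
    exact (hg.abs_fderiv_le _ _).trans (hCg w)
  obtain ⟨p, _, φ, hφ, hlim⟩ := tendsto_subseq_of_bounded
    (Metric.isBounded_closedBall (x := (0 : E n →L[ℝ] ℝ)) (r := C))
    (fun k => by simpa using hbd k : ∀ k, fderiv ℝ g (z k) ∈ Metric.closedBall 0 C)
  have hlim' : Tendsto (fun k => fderiv ℝ g (z (φ k))) atTop (𝓝 p) := hlim
  have hev : ∀ w : E n, Tendsto (fun k => fderiv ℝ g (z (φ k)) w) atTop (𝓝 (p w)) := fun w =>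
    ((ContinuousLinearMap.apply ℝ ℝ w).continuous.tendsto p).comp hlim
  have hzφ : Tendsto (fun k => z (φ k)) atTop (𝓝 x) := hzlim.comp hφ.tendsto_atTop
  refine ⟨p, ⟨fun w => le_of_tendsto (hev w) (Eventually.of_forall fun k => hg.fderiv_le _ _), ?_⟩, ?_⟩
  · have h1 : Tendsto (fun k => fderiv ℝ g (z (φ k)) (z (φ k))) atTop (𝓝 (p x)) := by
      have hc := (isBoundedBilinearMap_apply (𝕜 := ℝ) (E := E n) (F := ℝ)).continuous.tendsto (p, x)
      exact hc.comp (hlim'.prodMk_nhds hzφ)
    have h2 : Tendsto (fun k => fderiv ℝ g (z (φ k)) (z (φ k))) atTop (𝓝 (g x)) := by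
      have : (fun k => fderiv ℝ g (z (φ k)) (z (φ k))) = fun k => g (z (φ k)) := by
        funext k
        exact hg.fderiv_self (hzd _)
      rw [this]
      exact (hg.continuous.tendsto x).comp hzφ
    exact tendsto_nhds_unique h1 h2
  · have h1 : ∀ k, d ≤ fderiv ℝ g (z k) v + 2 * C * t k := by
      intro k
      have e1 := h (t k) (ht k)
      set q := fderiv ℝ g (z k)
      set r := z k - (x + t k • v) with hr
      have e2 : g (x + t k • v) - g (z k) ≤ C * t k ^ 2 := by
        have := hg.sub_le (x + t k • v) (z k)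
        have h3 : x + t k • v - z k = -r := by rw [hr]; abel
        rw [h3, hg.neg] at this
        have h4 := hCg r
        have h5 : C * ‖r‖ ≤ C * t k ^ 2 := mul_le_mul_of_nonneg_left (hzn k).le hC.le
        linarith
      have e3 : q x ≤ g x := hg.fderiv_le _ _
      have e4 : q (z k) = g (z k) := hg.fderiv_self (hzd k)
      have e5 : q (z k) = q x + t k * q v + q r := by
        have : z k = x + t k • v + r := by rw [hr]; abel
        conv_lhs => rw [this]
        simp
      have e6 : q r ≤ C * t k ^ 2 := by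
        have h4 := (hg.fderiv_le (z k) r).trans (hCg r)
        have h5 : C * ‖r‖ ≤ C * t k ^ 2 := mul_le_mul_of_nonneg_left (hzn k).le hC.le
        linarith
      have e7 : t k * d ≤ t k * (q v + 2 * C * t k) := by nlinarith
      exact le_of_mul_le_mul_left e7 (ht k)
    have h2 : Tendsto (fun k => fderiv ℝ g (z (φ k)) v + 2 * C * t (φ k)) atTop
        (𝓝 (p v + 2 * C * 0)) :=
      (hev v).add ((htlim.comp hφ.tendsto_atTop).const_mul (2 * C))
    rw [mul_zero, add_zero] at h2
    exact ge_of_tendsto' h2 fun k => h1 _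

/-- A point of non-differentiability has two subgradients. -/
theorem exists_two (hg : IsNormF g) {x : E n} (hx : ¬ DifferentiableAt ℝ g x) :
    ∃ p1 p2 : E n →L[ℝ] ℝ, ∃ v : E n, Sub g x p1 ∧ Sub g x p2 ∧ p2 v < p1 v := by
  by_contra hcon
  push Not at hcon
  -- a subgradient
  obtain ⟨C, hC, hCg⟩ := hg.exists_upper
  obtain ⟨p, hp, _⟩ := exists_sub hg x 0 0 (fun t ht => by simp)
  have huniq : ∀ p' : E n →L[ℝ] ℝ, Sub g x p' → ∀ v, p' v ≤ p v := fun p' hp' v =>
    hcon p' p v hp' hp
  apply hx
  have hconv : ∀ v : E n, ∀ s t : ℝ, 0 < s → s ≤ t →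
      t * (g (x + s • v) - g x) ≤ s * (g (x + t • v) - g x) := by
    intro v s t hs hst
    have ht : 0 < t := hs.trans_le hst
    have h1 : x + s • v = (1 - s / t) • x + (s / t) • (x + t • v) := by
      rw [smul_add, smul_smul, div_mul_cancel₀ _ ht.ne', ← add_assoc, ← add_smul]
      simp
    have h2 : g (x + s • v) ≤ (1 - s / t) * g x + (s / t) * g (x + t • v) := by
      conv_lhs => rw [h1]
      have h3 : s / t ≤ 1 := (div_le_one ht).2 hst
      exact hg.convexOn.2 (Set.mem_univ x) (Set.mem_univ (x + t • v)) (by linarith)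
        (by positivity) (by ring)
    have h4 : t * g (x + s • v) ≤ (t - s) * g x + s * g (x + t • v) := by
      have h5 := mul_le_mul_of_nonneg_left h2 ht.le
      have h6 : t * ((1 - s / t) * g x + s / t * g (x + t • v))
          = (t - s) * g x + s * g (x + t • v) := by field_simp
      linarith
    nlinarith
  have key : ∀ v : E n, ∀ ε > 0, ∃ δ > 0, ∀ s : ℝ, 0 < s → s ≤ δ →
      g (x + s • v) - g x ≤ s * (p v + ε) := by
    intro v ε hε
    by_contra hno
    push Not at hno
    have h1 : ∀ t : ℝ, 0 < t → t * (p v + ε) ≤ g (x + t • v) - g x := by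
      intro t ht
      obtain ⟨s, hs, hst, hs2⟩ := hno t ht
      have h3 := hconv v s t hs hst
      have h4 : t * (s * (p v + ε)) ≤ s * (g (x + t • v) - g x) :=
        (mul_le_mul_of_nonneg_left hs2.le ht.le).trans h3
      have h5 : s * (t * (p v + ε)) ≤ s * (g (x + t • v) - g x) := by linarith
      exact le_of_mul_le_mul_left h5 hs
    obtain ⟨p', hp', hd⟩ := exists_sub hg x v _ h1
    have := huniq p' hp' v
    linarith
  have hline : ∀ v : E n, HasLineDerivAt ℝ g (p v) x v := by
    intro v
    unfold HasLineDerivAt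
    rw [hasDerivAt_iff_isLittleO, Asymptotics.isLittleO_iff]
    intro ε hε
    obtain ⟨δ1, hδ1, h1⟩ := key v ε hε
    obtain ⟨δ2, hδ2, h2⟩ := key (-v) ε hε
    have hlow : ∀ t : ℝ, g x + t * p v ≤ g (x + t • v) := by
      intro t
      have h3 := hp.1 (x + t • v)
      rw [map_add, map_smul, hp.2, smul_eq_mul] at h3
      exact h3
    filter_upwards [Metric.ball_mem_nhds (0:ℝ) (lt_min hδ1 hδ2)] with t ht
    rw [Metric.mem_ball, dist_zero_right, Real.norm_eq_abs, lt_min_iff] at ht
    simp only [zero_smul, add_zero, sub_zero, smul_eq_mul, Real.norm_eq_abs]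
    have h3 := hlow t
    rcases lt_trichotomy t 0 with hneg | hz | hpos
    · have h4 := h2 (-t) (by linarith) (by rw [abs_of_neg hneg] at ht; exact ht.2.le)
      rw [smul_neg, neg_smul, neg_neg, map_neg] at h4
      rw [abs_of_neg hneg, abs_of_nonneg (by linarith)]
      nlinarith
    · subst hz
      simp
    · have h4 := h1 t hpos (by rw [abs_of_pos hpos] at ht; exact ht.1.le)
      rw [abs_of_pos hpos, abs_of_nonneg (by linarith)]
      nlinarith
  obtain ⟨K, hK⟩ := hg.exists_lipschitz
  have := hK.hasFDerivAt_of_hasLineDerivAt_of_closure (s := Set.univ) (L := p)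
    (by simp) (fun v _ => hline v)
  exact this.differentiableAt

/-- The basic sign lemma. -/
theorem star_sub (hg : IsNormF g) (hn : 1 ≤ n) {y z : E n} (hy : Star g y) {p : E n →L[ℝ] ℝ}
    (hp : Sub g z p) : 0 ≤ fderiv ℝ g y z * p y := by
  have hy0 : 0 < g y := hg.pos y (hg.ne_zero_of_differentiableAt hn hy.1)
  set t := fderiv ℝ g y z / g y with ht
  have h1 : fderiv ℝ g y (z - t • y) = 0 := by
    rw [map_sub, map_smul, hg.fderiv_self hy.1, smul_eq_mul, ht, div_mul_cancel₀ _ hy0.ne', sub_self]
  have h2 := hy.2 _ h1 t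
  rw [sub_add_cancel] at h2
  have h3 := hp.1 (z - t • y)
  rw [map_sub, map_smul, hp.2, smul_eq_mul] at h3
  have h4 : 0 ≤ t * p y := by linarith
  have h5 : fderiv ℝ g y z * p y = g y * (t * p y) := by
    rw [ht]; field_simp
  rw [h5]
  positivity

theorem star_zero (hg : IsNormF g) {y z : E n} (hy : Star g y) (hz : DifferentiableAt ℝ g z)
    (h : fderiv ℝ g y z = 0) : fderiv ℝ g z y = 0 := by
  have h1 := hg.hasDerivAt_line hz y
  have h2 : IsLocalMin (fun t : ℝ => g (z + t • y)) 0 := by
    refine Eventually.of_forall fun t => ?_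
    have := hy.2 z h t
    simpa using this
  exact h2.hasDerivAt_eq_zero h1

theorem main (hn : 3 ≤ n) (hg : IsNormF g) (hS : Dense {y : E n | Star g y}) : Smooth g := by
  have hn1 : 1 ≤ n := by omega
  intro x hx
  by_contra hnd
  obtain ⟨p1, p2, v, hp1, hp2, hv⟩ := exists_two hg hnd
  have hgx : 0 < g x := hg.pos x hx
  obtain ⟨C, hC, hCg⟩ := hg.exists_upper
  -- the common kernel
  obtain ⟨e, he0, he1, he2⟩ : ∃ e : E n, e ≠ 0 ∧ p1 e = 0 ∧ p2 e = 0 := by
    let f : E n →ₗ[ℝ] ℝ × ℝ := (p1 : E n →ₗ[ℝ] ℝ).prod (p2 : E n →ₗ[ℝ] ℝ)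
    have hker : LinearMap.ker f ≠ ⊥ := by
      apply LinearMap.ker_ne_bot_of_finrank_lt
      rw [Module.finrank_prod]
      simp only [Module.finrank_self, finrank_euclideanSpace, Fintype.card_fin]
      omega
    obtain ⟨e, he, hne⟩ := Submodule.exists_mem_ne_zero_of_ne_bot hker
    rw [LinearMap.mem_ker] at he
    have h1 := congrArg Prod.fst he
    have h2 := congrArg Prod.snd he
    exact ⟨e, hne, h1, h2⟩
  -- the wedge
  let W : Set (E n) := {y | 0 < p1 y ∧ p2 y < 0}
  have hWopen : IsOpen W :=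
    (isOpen_lt continuous_const p1.continuous).inter (isOpen_lt p2.continuous continuous_const)
  obtain ⟨y0, hy0⟩ : W.Nonempty := by
    refine ⟨v - ((p1 v + p2 v) / (2 * g x)) • x, ?_, ?_⟩
    · rw [map_sub, map_smul, hp1.2, smul_eq_mul]
      have : (p1 v + p2 v) / (2 * g x) * g x = (p1 v + p2 v) / 2 := by field_simp
      rw [this]; linarith
    · rw [map_sub, map_smul, hp2.2, smul_eq_mul]
      have : (p1 v + p2 v) / (2 * g x) * g x = (p1 v + p2 v) / 2 := by field_simp
      rw [this]; linarith
  have hWS : W ⊆ closure (W ∩ {y : E n | Star g y}) := hS.open_subset_closure_inter hWopen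
  -- Step 2
  have step2 : ∀ y ∈ W, Star g y → fderiv ℝ g y x = 0 := by
    intro y hy hs
    have h1 := star_sub hg hn1 hs hp1
    have h2 := star_sub hg hn1 hs hp2
    have h3 : 0 ≤ fderiv ℝ g y x := nonneg_of_mul_nonneg_left h1 hy.1
    have h4 : fderiv ℝ g y x ≤ 0 := by
      by_contra h5
      push Not at h5
      have := mul_neg_of_pos_of_neg h5 hy.2
      linarith
    linarith
  have step2' : ∀ y ∈ W, ∀ b : ℝ, g y ≤ g (y + b • x) := by
    intro y hy b
    have hcl : IsClosed {y : E n | g y ≤ g (y + b • x)} :=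
      isClosed_le hg.continuous (hg.continuous.comp (continuous_id.add continuous_const))
    have hsub : W ∩ {y : E n | Star g y} ⊆ {y : E n | g y ≤ g (y + b • x)} := by
      rintro y ⟨hy1, hy2⟩
      have h1 := hg.add_fderiv_le hy2.1 (b • x)
      rw [map_smul, step2 y hy1 hy2, smul_zero, add_zero] at h1
      exact h1
    exact closure_minimal hsub hcl (hWS hy)
  have step2'' : ∀ y ∈ W, ∀ b : ℝ, y + b • x ∈ W → g (y + b • x) = g y := by
    intro y hy b hb
    refine le_antisymm ?_ (step2' y hy b)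
    have := step2' _ hb (-b)
    rwa [neg_smul, add_neg_cancel_right] at this
  -- Step 3
  have step3 : ∀ z : E n, Star g z → 0 < fderiv ℝ g z x → fderiv ℝ g z e = 0 := by
    intro z hz hzx
    have claim_a : ∀ y ∈ W, Star g y → ∀ b1 b2 : ℝ, y + b1 • x ∈ W → y + b2 • x ∈ W →
        fderiv ℝ g z (y + b1 • x) < 0 → 0 < fderiv ℝ g z (y + b2 • x) → False := by
      intro y hy hys b1 b2 hb1 hb2 hn1' hp2'
      let O : Set (E n) := {y' | y' ∈ W ∧ y' + b1 • x ∈ W ∧ y' + b2 • x ∈ W ∧
        fderiv ℝ g z (y' + b1 • x) < 0 ∧ 0 < fderiv ℝ g z (y' + b2 • x)}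
      have hOopen : IsOpen O := by
        have c1 : Continuous fun y' : E n => y' + b1 • x := continuous_id.add continuous_const
        have c2 : Continuous fun y' : E n => y' + b2 • x := continuous_id.add continuous_const
        exact hWopen.inter ((hWopen.preimage c1).inter ((hWopen.preimage c2).inter
          ((isOpen_lt ((fderiv ℝ g z).continuous.comp c1) continuous_const).inter
            (isOpen_lt continuous_const ((fderiv ℝ g z).continuous.comp c2)))))
      have hyO : y ∈ O := ⟨hy, hb1, hb2, hn1', hp2'⟩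
      have hO'open : IsOpen (O ∩ {y' : E n | fderiv ℝ g z y' ≠ 0}) :=
        hOopen.inter ((isOpen_compl_singleton (x := (0:ℝ))).preimage (fderiv ℝ g z).continuous)
      have hO'ne : (O ∩ {y' : E n | fderiv ℝ g z y' ≠ 0}).Nonempty := by
        by_cases h0 : fderiv ℝ g z y = 0
        · have hc : Tendsto (fun s : ℝ => y + s • x) (𝓝 0) (𝓝 y) := by
            have : Tendsto (fun s : ℝ => y + s • x) (𝓝 0) (𝓝 (y + (0:ℝ) • x)) :=
              tendsto_const_nhds.add (tendsto_id.smul_const x)
            simpa using this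
          have h1 : ∀ᶠ s : ℝ in 𝓝[>] 0, y + s • x ∈ O :=
            (hc.eventually (hOopen.mem_nhds hyO)).filter_mono nhdsWithin_le_nhds
          obtain ⟨s, hs1, hs2⟩ := (h1.and self_mem_nhdsWithin).exists
          refine ⟨_, hs1, ?_⟩
          have hs : 0 < s := hs2
          show fderiv ℝ g z (y + s • x) ≠ 0
          rw [map_add, map_smul, h0, zero_add, smul_eq_mul]
          exact (mul_pos hs hzx).ne'
        · exact ⟨y, hyO, h0⟩
      obtain ⟨y', ⟨⟨hy'W, hb1', hb2', hneg, hpos⟩, hne⟩, hy'S⟩ := hS.inter_open_nonempty _ hO'open hO'ne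
      have hpx := step2 y' hy'W hy'S
      have hsub : ∀ b : ℝ, y' + b • x ∈ W → Sub g (y' + b • x) (fderiv ℝ g y') := by
        intro b hb
        refine ⟨fun w => hg.fderiv_le _ _, ?_⟩
        rw [map_add, map_smul, hpx, smul_zero, add_zero, hg.fderiv_self hy'S.1,
          step2'' y' hy'W b hb]
      have s1 := star_sub hg hn1 hz (hsub b1 hb1')
      have s2 := star_sub hg hn1 hz (hsub b2 hb2')
      have h3 : 0 ≤ fderiv ℝ g y' z := nonneg_of_mul_nonneg_right s2 hpos
      have h4 : fderiv ℝ g y' z ≤ 0 := by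
        by_contra h5
        push Not at h5
        have := mul_neg_of_neg_of_pos hneg h5
        linarith
      exact hne (star_zero hg hy'S hz.1 (le_antisymm h4 h3))
    set k := fderiv ℝ g z x / g x with hk
    have hkpos : 0 < k := div_pos hzx hgx
    have hkx : fderiv ℝ g z x = k * g x := by rw [hk]; field_simp
    have memW : ∀ (y : E n) (b : ℝ), 0 < p1 y + b * g x → p2 y + b * g x < 0 → y + b • x ∈ W := by
      intro y b h1 h2
      refine ⟨?_, ?_⟩
      · rw [map_add, map_smul, hp1.2, smul_eq_mul]; exact h1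
      · rw [map_add, map_smul, hp2.2, smul_eq_mul]; exact h2
    have claim_b : ∀ y ∈ W, Star g y →
        y ∈ {y : E n | k * p1 y ≤ fderiv ℝ g z y} ∪ {y : E n | fderiv ℝ g z y ≤ k * p2 y} := by
      intro y hy hys
      by_contra hno
      rw [Set.mem_union, not_or] at hno
      obtain ⟨h1, h2⟩ := hno
      simp only [Set.mem_ofPred_eq, not_le] at h1 h2
      have hy1 : 0 < p1 y := hy.1
      have hy2 : p2 y < 0 := hy.2
      -- two admissible translates
      set w := p1 y - p2 y with hw
      have hwpos : 0 < w := by linarith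
      obtain ⟨s, hs, hs1, hs2, hs3⟩ : ∃ s : ℝ, 0 < s ∧ s < w ∧
          s * k < k * p1 y - fderiv ℝ g z y ∧ s * k < fderiv ℝ g z y - k * p2 y := by
        have hA : 0 < k * p1 y - fderiv ℝ g z y := by linarith
        have hB : 0 < fderiv ℝ g z y - k * p2 y := by linarith
        refine ⟨min w (min ((k * p1 y - fderiv ℝ g z y) / k)
          ((fderiv ℝ g z y - k * p2 y) / k)) / 2, by positivity, ?_, ?_, ?_⟩
        · have := min_le_left w (min ((k * p1 y - fderiv ℝ g z y) / k)
            ((fderiv ℝ g z y - k * p2 y) / k))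
          linarith
        · have h3 := (min_le_right w (min ((k * p1 y - fderiv ℝ g z y) / k)
            ((fderiv ℝ g z y - k * p2 y) / k))).trans (min_le_left _ _)
          rw [← lt_div_iff₀ hkpos]
          have : 0 < (k * p1 y - fderiv ℝ g z y) / k := by positivity
          linarith
        · have h3 := (min_le_right w (min ((k * p1 y - fderiv ℝ g z y) / k)
            ((fderiv ℝ g z y - k * p2 y) / k))).trans (min_le_right _ _)
          rw [← lt_div_iff₀ hkpos]
          have : 0 < (fderiv ℝ g z y - k * p2 y) / k := by positivity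
          linarith
      have m1 : y + ((-p1 y + s) / g x) • x ∈ W := by
        apply memW
        · rw [div_mul_cancel₀ _ hgx.ne']; linarith
        · rw [div_mul_cancel₀ _ hgx.ne']; linarith
      have m2 : y + ((-p2 y - s) / g x) • x ∈ W := by
        apply memW
        · rw [div_mul_cancel₀ _ hgx.ne']; linarith
        · rw [div_mul_cancel₀ _ hgx.ne']; linarith
      refine claim_a y hy hys _ _ m1 m2 ?_ ?_
      · rw [map_add, map_smul, smul_eq_mul, hkx]
        have : (-p1 y + s) / g x * (k * g x) = k * (-p1 y + s) := by field_simp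
        rw [this]; nlinarith
      · rw [map_add, map_smul, smul_eq_mul, hkx]
        have : (-p2 y - s) / g x * (k * g x) = k * (-p2 y - s) := by field_simp
        rw [this]; nlinarith
    have claim_c : ∀ y ∈ W, fderiv ℝ g z y ≠ 0 := by
      intro y hy
      have hcl : IsClosed ({y : E n | k * p1 y ≤ fderiv ℝ g z y} ∪
          {y : E n | fderiv ℝ g z y ≤ k * p2 y}) :=
        (isClosed_le (continuous_const.mul p1.continuous) (fderiv ℝ g z).continuous).union
          (isClosed_le (fderiv ℝ g z).continuous (continuous_const.mul p2.continuous))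
      have hsub : W ∩ {y : E n | Star g y} ⊆ {y : E n | k * p1 y ≤ fderiv ℝ g z y} ∪
          {y : E n | fderiv ℝ g z y ≤ k * p2 y} := fun y hy => claim_b y hy.1 hy.2
      rcases closure_minimal hsub hcl (hWS hy) with h | h
      · have h1 : k * p1 y ≤ fderiv ℝ g z y := h
        have h2 : 0 < k * p1 y := mul_pos hkpos hy.1
        linarith
      · have h1 : fderiv ℝ g z y ≤ k * p2 y := h
        have h2 : k * p2 y < 0 := mul_neg_of_pos_of_neg hkpos hy.2
        linarith
    by_contra hne
    have hmem : y0 + (-(fderiv ℝ g z y0) / fderiv ℝ g z e) • e ∈ W := by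
      refine ⟨?_, ?_⟩
      · rw [map_add, map_smul, he1, smul_zero, add_zero]; exact hy0.1
      · rw [map_add, map_smul, he2, smul_zero, add_zero]; exact hy0.2
    apply claim_c _ hmem
    rw [map_add, map_smul, smul_eq_mul, div_mul_cancel₀ _ hne]
    ring
  -- Step 4
  have hge : 0 < g e := hg.pos e he0
  set a := g e / (6 * g x) with ha
  have hapos : 0 < a := by positivity
  have hax : a * g x = g e / 6 := by rw [ha]; field_simp
  set r := g x / (4 * C) with hr
  have hrpos : 0 < r := by positivity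
  have near : ∀ z : E n, Star g z → ‖z - x‖ < r → g x / 2 ≤ fderiv ℝ g z x := by
    intro z hz hzr
    have h1 : fderiv ℝ g z x = fderiv ℝ g z z - fderiv ℝ g z (z - x) := by
      rw [← map_sub]; congr 1; abel
    rw [h1, hg.fderiv_self hz.1]
    have h2 := hg.fderiv_le z (z - x)
    have h3 := hg.sub_le x z
    rw [← hg.neg (x - z), neg_sub] at h3
    have h4 := hCg (z - x)
    have h5 : C * ‖z - x‖ ≤ C * r := mul_le_mul_of_nonneg_left hzr.le hC.le
    have h6 : C * r = g x / 4 := by rw [hr]; field_simp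
    linarith
  -- choose y near e + a x
  obtain ⟨y, hyS, hyd⟩ := hS.exists_dist_lt (e + a • x)
    (show (0:ℝ) < a * g x / (4 * C) by positivity)
  have hyS : Star g y := hyS
  set δ := y - e - a • x with hδ
  have hgδ : g δ < a * g x / 2 := by
    have h1 := hCg δ
    have h2 : ‖δ‖ < a * g x / (4 * C) := by
      rw [dist_comm, dist_eq_norm] at hyd
      have : δ = y - (e + a • x) := by rw [hδ]; abel
      rw [this]; exact hyd
    have h3 : C * ‖δ‖ < C * (a * g x / (4 * C)) := mul_lt_mul_of_pos_left h2 hC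
    have h4 : C * (a * g x / (4 * C)) = a * g x / 4 := by field_simp
    have h5 : 0 < a * g x := by positivity
    linarith
  have hyeq : y = e + a • x + δ := by rw [hδ]; abel
  have hpos : ∀ z : E n, Star g z → ‖z - x‖ < r → 0 ≤ fderiv ℝ g y z := by
    intro z hz hzr
    have h1 := near z hz hzr
    have h2 := step3 z hz (by linarith)
    have h3 : 0 < fderiv ℝ g z y := by
      rw [hyeq, map_add, map_add, map_smul, h2, zero_add, smul_eq_mul]
      have h4 : -g δ ≤ fderiv ℝ g z δ := (abs_le.mp (hg.abs_fderiv_le z δ)).1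
      have h5 : a * (g x / 2) ≤ a * fderiv ℝ g z x := mul_le_mul_of_nonneg_left h1 hapos.le
      linarith
    have h6 := star_sub hg hn1 hz (sub_fderiv hg hyS.1)
    exact nonneg_of_mul_nonneg_right h6 h3
  have hpos' : ∀ z ∈ Metric.ball x r, 0 ≤ fderiv ℝ g y z := by
    intro z hz
    have hsub : Metric.ball x r ∩ {y : E n | Star g y} ⊆ {z : E n | 0 ≤ fderiv ℝ g y z} := by
      rintro z ⟨hz1, hz2⟩
      rw [Metric.mem_ball, dist_eq_norm] at hz1
      exact hpos z hz2 hz1
    have hcl : IsClosed {z : E n | 0 ≤ fderiv ℝ g y z} :=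
      isClosed_le continuous_const (fderiv ℝ g y).continuous
    exact closure_minimal hsub hcl (hS.open_subset_closure_inter Metric.isOpen_ball hz)
  have hyne : y ≠ 0 := hg.ne_zero_of_differentiableAt hn1 hyS.1
  have hgy : 0 < g y := hg.pos y hyne
  have hyx : 0 < fderiv ℝ g y x := by
    have hny : 0 < ‖y‖ := norm_pos_iff.mpr hyne
    have h1 : x - (r / (2 * ‖y‖)) • y ∈ Metric.ball x r := by
      rw [Metric.mem_ball, dist_eq_norm]
      have : x - (r / (2 * ‖y‖)) • y - x = -((r / (2 * ‖y‖)) • y) := by abel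
      rw [this, norm_neg, norm_smul, Real.norm_eq_abs, abs_of_pos (by positivity)]
      have : r / (2 * ‖y‖) * ‖y‖ = r / 2 := by field_simp
      rw [this]; linarith
    have h2 := hpos' _ h1
    rw [map_sub, map_smul, hg.fderiv_self hyS.1, smul_eq_mul] at h2
    have h3 : 0 < r / (2 * ‖y‖) * g y := by positivity
    linarith
  have hye := step3 y hyS hyx
  have h1 : fderiv ℝ g y e = g y - fderiv ℝ g y (y - e) := by
    rw [← hg.fderiv_self hyS.1, ← map_sub]; congr 1; abel
  have h2 := hg.fderiv_le y (y - e)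
  have h3 : g (y - e) ≤ a * g x + g δ := by
    have : y - e = a • x + δ := by rw [hδ]; abel
    rw [this]
    refine (hg.add _ _).trans ?_
    rw [hg.smul_pos hapos.le]
  have h4 := hg.sub_le e y
  rw [← hg.neg (e - y), neg_sub] at h4
  linarith

end SmoothMod

theorem specSmooth : SpecSmooth := fun _n _g hn hg hS => SmoothMod.main hn hg hS

end Pool.Agent.Lib.MP_37d555_gt
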