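import Pool.Agent.Lib.MP_37d555_gt.Spec

/-!
# Module SYMM (and elementary lemmas on norms used by PYTH and ELL)
-/

set_option autoImplicit false

namespace Pool.Agent.Lib.MP_37d555_gt

open MeasureTheory Filter Topology

namespace Symm

variable {n : ℕ} {g : E n → ℝ}

theorem zero (hg : IsNormF g) : g 0 = 0 := by
  have := hg.smul 0 0
  simpa using this

theorem neg (hg : IsNormF g) (x : E n) : g (-x) = g x := by
  have := hg.smul (-1) x
  simpa using this

theorem nonneg (hg : IsNormF g) (x : E n) : 0 ≤ g x := by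
  by_cases h : x = 0
  · rw [h, zero hg]
  · exact (hg.pos x h).le

theorem convex (hg : IsNormF g) : ConvexOn ℝ Set.univ g := by
  refine ⟨convex_univ, ?_⟩
  intro x _ y _ a b ha hb _
  calc g (a • x + b • y) ≤ g (a • x) + g (b • y) := hg.add _ _
    _ = a • g x + b • g y := by
      rw [hg.smul, hg.smul, abs_of_nonneg ha, abs_of_nonneg hb, smul_eq_mul, smul_eq_mul]

theorem continuous (hg : IsNormF g) : Continuous g := by
  have := (convex hg).continuousOn isOpen_univ
  exact continuousOn_univ.mp this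

/-- The derivative along a line. -/
theorem hasDerivAt_line {x : E n} (h : DifferentiableAt ℝ g x) (v : E n) :
    HasDerivAt (fun t : ℝ => g (x + t • v)) (fderiv ℝ g x v) 0 := by
  have h1 : HasFDerivAt g (fderiv ℝ g x) (x + (0 : ℝ) • v) := by
    rw [zero_smul, add_zero]
    exact h.hasFDerivAt
  have h2 : HasDerivAt (fun t : ℝ => x + t • v) v 0 := by
    have := ((hasDerivAt_id (0 : ℝ)).smul_const v).const_add x
    simpa using this
  exact h1.comp_hasDerivAt (0 : ℝ) h2

/-- The derivative along a line, at time `s`. -/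
theorem hasDerivAt_line' {x v : E n} {s : ℝ} (h : DifferentiableAt ℝ g (x + s • v)) :
    HasDerivAt (fun t : ℝ => g (x + t • v)) (fderiv ℝ g (x + s • v) v) s := by
  have h2 : HasDerivAt (fun t : ℝ => x + t • v) v s := by
    have := ((hasDerivAt_id s).smul_const v).const_add x
    simpa using this
  exact h.hasFDerivAt.comp_hasDerivAt s h2

/-- Subgradient inequality. -/
theorem subgrad (hg : IsNormF g) {x : E n} (h : DifferentiableAt ℝ g x) (z : E n) :
    g x + fderiv ℝ g x (z - x) ≤ g z := by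
  have h1 := hasDerivAt_line h (z - x)
  have h2 : Tendsto (fun t : ℝ => t⁻¹ • (g (x + t • (z - x)) - g x)) (𝓝[>] 0)
      (𝓝 (fderiv ℝ g x (z - x))) := by
    have := h1.tendsto_slope_zero_right
    simpa using this
  have h3 : fderiv ℝ g x (z - x) ≤ g z - g x := by
    refine le_of_tendsto h2 ?_
    have : Set.Ioc (0 : ℝ) 1 ∈ 𝓝[>] (0 : ℝ) := Ioc_mem_nhdsGT one_pos
    filter_upwards [this] with t ht
    have h4 : g (x + t • (z - x)) ≤ (1 - t) * g x + t * g z := by
      have := (convex hg).2 (Set.mem_univ x) (Set.mem_univ z) (sub_nonneg.mpr ht.2) ht.1.le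
        (by ring : (1 - t) + t = 1)
      simp only [smul_eq_mul] at this
      have e : x + t • (z - x) = (1 - t) • x + t • z := by
        rw [smul_sub, sub_smul, one_smul]; abel
      rw [e]; exact this
    rw [smul_eq_mul, inv_mul_le_iff₀ ht.1]
    linarith
  linarith

/-- Euler's identity. -/
theorem euler (hg : IsNormF g) {x : E n} (h : DifferentiableAt ℝ g x) :
    fderiv ℝ g x x = g x := by
  have h1 := hasDerivAt_line h x
  have h2 : HasDerivAt (fun t : ℝ => (1 + t) * g x) (g x) 0 := by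
    have := ((hasDerivAt_id (0 : ℝ)).const_add 1).mul_const (g x)
    simpa using this
  have h3 : (fun t : ℝ => g (x + t • x)) =ᶠ[𝓝 0] (fun t : ℝ => (1 + t) * g x) := by
    have : Set.Ioi (-1 : ℝ) ∈ 𝓝 (0 : ℝ) := Ioi_mem_nhds (by norm_num)
    filter_upwards [this] with t ht
    have e : x + t • x = (1 + t) • x := by rw [add_smul, one_smul]
    have ht' : (0 : ℝ) ≤ 1 + t := by
      have : (-1 : ℝ) < t := ht
      linarith
    rw [e, hg.smul, abs_of_nonneg ht']
  exact (h1.congr_of_eventuallyEq h3.symm).unique h2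

/-- `q_x z ≤ g z`. -/
theorem fderiv_le (hg : IsNormF g) {x : E n} (h : DifferentiableAt ℝ g x) (z : E n) :
    fderiv ℝ g x z ≤ g z := by
  have h1 := subgrad hg h z
  rw [map_sub, euler hg h] at h1
  linarith

/-- Homogeneity of degree zero. -/
theorem fderiv_smul (hg : IsNormF g) {x : E n} (h : DifferentiableAt ℝ g x) {t : ℝ} (ht : 0 < t)
    (h' : DifferentiableAt ℝ g (t • x)) (v : E n) : fderiv ℝ g (t • x) v = fderiv ℝ g x v := by
  have h1 := hasDerivAt_line h v
  have h2 := hasDerivAt_line h' (t • v)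
  have h3 : (fun s : ℝ => g (t • x + s • (t • v))) = fun s : ℝ => t * g (x + s • v) := by
    funext s
    have : t • x + s • (t • v) = t • (x + s • v) := by
      rw [smul_add, smul_comm]
    rw [this, hg.smul, abs_of_pos ht]
  rw [h3] at h2
  have h4 := h2.unique (h1.const_mul t)
  rw [map_smul, smul_eq_mul] at h4
  exact mul_left_cancel₀ ht.ne' h4

/-- Monotonicity. -/
theorem mono (hg : IsNormF g) {x y : E n} (hx : DifferentiableAt ℝ g x)
    (hy : DifferentiableAt ℝ g y) : 0 ≤ fderiv ℝ g x (x - y) - fderiv ℝ g y (x - y) := by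
  have h1 := subgrad hg hx y
  have h2 := subgrad hg hy x
  have e : fderiv ℝ g x (y - x) = -fderiv ℝ g x (x - y) := by
    rw [← map_neg, neg_sub]
  rw [e] at h1
  linarith

/-- Upper semicontinuity of the derivatives. -/
theorem limsup_le (hg : IsNormF g) {x : E n} (hx : DifferentiableAt ℝ g x) (v : E n)
    {u : ℕ → E n} (hu : Tendsto u atTop (𝓝 x)) (hd : ∀ k, DifferentiableAt ℝ g (u k))
    {ε : ℝ} (hε : 0 < ε) : ∀ᶠ k in atTop, fderiv ℝ g (u k) v < fderiv ℝ g x v + ε := by
  have h1 := hasDerivAt_line hx v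
  have h2 : Tendsto (fun t : ℝ => t⁻¹ • (g (x + t • v) - g x)) (𝓝[>] 0)
      (𝓝 (fderiv ℝ g x v)) := by
    have := h1.tendsto_slope_zero_right
    simpa using this
  have h3 : ∀ᶠ t : ℝ in 𝓝[>] 0, t⁻¹ • (g (x + t • v) - g x) < fderiv ℝ g x v + ε / 2 :=
    h2.eventually (gt_mem_nhds (by linarith))
  obtain ⟨t, ht1, ht2⟩ := (h3.and self_mem_nhdsWithin).exists
  have ht0 : (0 : ℝ) < t := ht2
  have hc := continuous hg
  have h4 : Tendsto (fun k => t⁻¹ • (g (u k + t • v) - g (u k))) atTop
      (𝓝 (t⁻¹ • (g (x + t • v) - g x))) := by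
    have e1 : Tendsto (fun k => g (u k + t • v)) atTop (𝓝 (g (x + t • v))) :=
      (hc.tendsto _).comp (hu.add_const _)
    have e2 : Tendsto (fun k => g (u k)) atTop (𝓝 (g x)) := (hc.tendsto _).comp hu
    exact (e1.sub e2).const_smul _
  have h5 : ∀ᶠ k in atTop, t⁻¹ • (g (u k + t • v) - g (u k)) < fderiv ℝ g x v + ε :=
    h4.eventually (gt_mem_nhds (by linarith))
  filter_upwards [h5] with k hk
  refine lt_of_le_of_lt ?_ hk
  have h6 := subgrad hg (hd k) (u k + t • v)
  rw [add_sub_cancel_left, map_smul, smul_eq_mul] at h6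
  rw [smul_eq_mul, le_inv_mul_iff₀ ht0]
  linarith

/-- Continuity of the derivatives. -/
theorem tendsto_fderiv (hg : IsNormF g) {x : E n} (hx : DifferentiableAt ℝ g x) (v : E n)
    {u : ℕ → E n} (hu : Tendsto u atTop (𝓝 x)) (hd : ∀ k, DifferentiableAt ℝ g (u k)) :
    Tendsto (fun k => fderiv ℝ g (u k) v) atTop (𝓝 (fderiv ℝ g x v)) := by
  rw [Metric.tendsto_atTop]
  intro ε hε
  have h1 := limsup_le hg hx v hu hd hε
  have h2 := limsup_le hg hx (-v) hu hd hε
  have h3 := h1.and h2
  rw [eventually_atTop] at h3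
  obtain ⟨N, hN⟩ := h3
  refine ⟨N, fun k hk => ?_⟩
  obtain ⟨a1, a2⟩ := hN k hk
  rw [map_neg, map_neg] at a2
  rw [Real.dist_eq, abs_lt]
  constructor <;> linarith

/-- Star points everywhere. -/
theorem star_all (hg : IsNormF g) (hD : Dense {y : E n | Star g y}) (hS : Smooth g) (x : E n)
    (hx : x ≠ 0) : Star g x := by
  refine ⟨hS x hx, ?_⟩
  intro w hw s
  obtain ⟨u, hu1, hu2⟩ := mem_closure_iff_seq_limit.mp (hD x)
  have hc := continuous hg
  have hq : Tendsto (fun k => fderiv ℝ g (u k) w) atTop (𝓝 0) := by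
    have := tendsto_fderiv hg (hS x hx) w hu2 (fun k => (hu1 k).1)
    rw [hw] at this
    exact this
  have hgu : Tendsto (fun k => g (u k)) atTop (𝓝 (g x)) := (hc.tendsto _).comp hu2
  have hgx : g x ≠ 0 := (hg.pos x hx).ne'
  have hw' : Tendsto (fun k => w - (fderiv ℝ g (u k) w / g (u k)) • u k) atTop (𝓝 w) := by
    have h1 : Tendsto (fun k => fderiv ℝ g (u k) w / g (u k)) atTop (𝓝 (0 / g x)) :=
      hq.div hgu hgx
    have h2 := (tendsto_const_nhds (x := w)).sub (h1.smul hu2)
    simpa using h2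
  have h3 : Tendsto (fun k => g (w - (fderiv ℝ g (u k) w / g (u k)) • u k)) atTop (𝓝 (g w)) :=
    (hc.tendsto _).comp hw'
  have h4 : Tendsto (fun k => g (w - (fderiv ℝ g (u k) w / g (u k)) • u k + s • u k)) atTop
      (𝓝 (g (w + s • x))) :=
    (hc.tendsto _).comp (hw'.add (hu2.const_smul s))
  refine le_of_tendsto_of_tendsto h3 h4 ?_
  have hne : ∀ᶠ k in atTop, g (u k) ≠ 0 := hgu.eventually_ne hgx
  filter_upwards [hne] with k hk
  refine (hu1 k).2 _ ?_ s
  rw [map_sub, map_smul, euler hg (hu1 k).1, smul_eq_mul, div_mul_cancel₀ _ hk, sub_self]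

end Symm

open Symm in
theorem specSymm : SpecSymm := by
  intro n g _ hg hD hS x y hx hy hxy
  have hst := star_all hg hD hS x hx
  have h1 : ∀ s : ℝ, g y ≤ g (y + s • x) := hst.2 y hxy
  have h2 := hasDerivAt_line (hS y hy) x
  have h3 : IsLocalMin (fun t : ℝ => g (y + t • x)) 0 := by
    apply Filter.Eventually.of_forall
    intro s
    show g (y + (0 : ℝ) • x) ≤ g (y + s • x)
    rw [zero_smul, add_zero]
    exact h1 s
  exact h3.hasDerivAt_eq_zero h2

end Pool.Agent.Lib.MP_37d555_gt
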