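import Pool.Agent.Lib.MP_37d555_gt.Spec

/-!
# WULFF: from the convex body to the support function
-/

set_option autoImplicit false

namespace Pool.Agent.Lib.MP_37d555_gt

open MeasureTheory Topology

namespace Wulff

variable {n : ℕ} {g : E n → ℝ}

theorem g_zero (hg : IsNormF g) : g 0 = 0 := by
  have := hg.smul 0 0
  simpa using this

theorem g_neg (hg : IsNormF g) (x : E n) : g (-x) = g x := by
  have := hg.smul (-1) x
  simpa using this

theorem g_nonneg (hg : IsNormF g) (x : E n) : 0 ≤ g x := by
  by_cases h : x = 0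
  · rw [h, g_zero hg]
  · exact (hg.pos x h).le

theorem g_sum (hg : IsNormF g) {ι : Type*} (s : Finset ι) (f : ι → E n) :
    g (∑ i ∈ s, f i) ≤ ∑ i ∈ s, g (f i) := by
  classical
  induction s using Finset.induction_on with
  | empty => simp [g_zero hg]
  | insert a s ha ih =>
    rw [Finset.sum_insert ha, Finset.sum_insert ha]
    exact (hg.add _ _).trans (by linarith)

theorem g_le (hg : IsNormF g) : ∃ C : ℝ, 0 ≤ C ∧ ∀ x, g x ≤ C * ‖x‖ := by
  set b := EuclideanSpace.basisFun (Fin n) ℝ with hb
  refine ⟨∑ i, g (b i), Finset.sum_nonneg fun i _ => g_nonneg hg _, fun x => ?_⟩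
  have h1 : x = ∑ i, (b.repr x i) • b i := (b.sum_repr x).symm
  calc g x = g (∑ i, (b.repr x i) • b i) := by rw [← h1]
    _ ≤ ∑ i, g ((b.repr x i) • b i) := g_sum hg _ _
    _ = ∑ i, |b.repr x i| * g (b i) := by simp only [hg.smul]
    _ ≤ ∑ i, g (b i) * ‖x‖ := by
        apply Finset.sum_le_sum
        intro i _
        rw [mul_comm]
        apply mul_le_mul_of_nonneg_left _ (g_nonneg hg _)
        have h2 := PiLp.norm_apply_le (b.repr x) i
        rw [Real.norm_eq_abs, b.repr.norm_map] at h2
        exact h2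
    _ = _ := by rw [Finset.sum_mul]

theorem g_lip (hg : IsNormF g) : ∃ C : NNReal, LipschitzWith C g := by
  obtain ⟨C, hC, h⟩ := g_le hg
  refine ⟨⟨C, hC⟩, LipschitzWith.of_dist_le_mul fun x y => ?_⟩
  rw [Real.dist_eq, dist_eq_norm]
  have h1 : g x ≤ g (x - y) + g y := by
    have := hg.add (x - y) y
    rwa [sub_add_cancel] at this
  have h2 : g y ≤ g (x - y) + g x := by
    have := hg.add (y - x) x
    rw [sub_add_cancel, ← neg_sub, g_neg hg] at this
    exact this
  have h3 := h (x - y)
  rw [abs_le]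
  constructor
  · show -(C * ‖x - y‖) ≤ _
    linarith
  · show _ ≤ C * ‖x - y‖
    linarith

theorem g_lower (hg : IsNormF g) : ∃ a : ℝ, 0 < a ∧ ∀ x, a * ‖x‖ ≤ g x := by
  obtain ⟨C, hC⟩ := g_lip hg
  by_cases hne : (Metric.sphere (0 : E n) 1).Nonempty
  · obtain ⟨x₀, hx₀, hmin⟩ := (isCompact_sphere (0 : E n) 1).exists_isMinOn hne
      hC.continuous.continuousOn
    have hx₀' : x₀ ≠ 0 := by
      rintro rfl
      simp at hx₀
    refine ⟨g x₀, hg.pos _ hx₀', fun x => ?_⟩
    by_cases hx : x = 0
    · rw [hx, norm_zero, mul_zero, g_zero hg]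
    · have hn : 0 < ‖x‖ := norm_pos_iff.2 hx
      have h1 : ‖x‖⁻¹ • x ∈ Metric.sphere (0 : E n) 1 := by
        rw [mem_sphere_zero_iff_norm, norm_smul, norm_inv, norm_norm, inv_mul_cancel₀ hn.ne']
      have h2 : g x₀ ≤ g (‖x‖⁻¹ • x) := hmin h1
      rw [hg.smul, abs_of_pos (inv_pos.2 hn), inv_mul_eq_div, le_div_iff₀ hn] at h2
      exact h2
  · refine ⟨1, one_pos, fun x => ?_⟩
    by_cases hx : x = 0
    · rw [hx, norm_zero, mul_zero, g_zero hg]
    · exfalso
      apply hne
      have hn : 0 < ‖x‖ := norm_pos_iff.2 hx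
      exact ⟨‖x‖⁻¹ • x, by
        rw [mem_sphere_zero_iff_norm, norm_smul, norm_inv, norm_norm, inv_mul_cancel₀ hn.ne']⟩

theorem ball_bounded (hg : IsNormF g) : Bornology.IsBounded (ball g) := by
  obtain ⟨a, ha, h⟩ := g_lower hg
  rw [isBounded_iff_forall_norm_le]
  refine ⟨a⁻¹, fun x hx => ?_⟩
  have h1 : a * ‖x‖ ≤ 1 := (h x).trans hx
  rw [← one_div, le_div_iff₀ ha, mul_comm]
  exact h1

theorem ball_finite (hg : IsNormF g) : volume (ball g) < ⊤ := (ball_bounded hg).measure_lt_top

theorem ball_meas (hg : IsNormF g) : MeasurableSet (ball g) := by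
  obtain ⟨C, hC⟩ := g_lip hg
  exact measurableSet_le hC.continuous.measurable measurable_const

/-- `x ↦ sign (q_x u) * q_x v` is integrable on the ball. -/
theorem integrable_sign (hg : IsNormF g) (u v : E n) :
    IntegrableOn (fun x => Real.sign (fderiv ℝ g x u) * fderiv ℝ g x v) (ball g) := by
  obtain ⟨C, hC⟩ := g_lip hg
  have hm : ∀ w : E n, Measurable fun x => fderiv ℝ g x w := fun w =>
    measurable_fderiv_apply_const ℝ g w
  have hsm : Measurable Real.sign := by
    have : Real.sign = fun x => if x < 0 then (-1 : ℝ) else if 0 < x then 1 else 0 := rfl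
    rw [this]
    exact Measurable.ite measurableSet_Iio measurable_const
      (Measurable.ite measurableSet_Ioi measurable_const measurable_const)
  refine Measure.integrableOn_of_bounded (M := C * ‖v‖) (ball_finite hg).ne
    ((hsm.comp (hm u)).mul (hm v)).aestronglyMeasurable (Filter.Eventually.of_forall fun x => ?_)
  rw [norm_mul]
  have h1 : ‖Real.sign (fderiv ℝ g x u)‖ ≤ 1 := by
    rcases Real.sign_apply_eq (fderiv ℝ g x u) with h | h | h <;> rw [h] <;> norm_num
  have h2 : ‖fderiv ℝ g x v‖ ≤ C * ‖v‖ :=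
    (ContinuousLinearMap.le_opNorm _ _).trans
      (mul_le_mul_of_nonneg_right (norm_fderiv_le_of_lipschitz ℝ hC) (norm_nonneg _))
  calc _ ≤ 1 * (C * ‖v‖) := mul_le_mul h1 h2 (norm_nonneg _) zero_le_one
    _ = _ := one_mul _

theorem integrable_abs (hg : IsNormF g) (v : E n) :
    IntegrableOn (fun x => |fderiv ℝ g x v|) (ball g) := by
  have h := integrable_sign hg v v
  refine h.congr (Filter.Eventually.of_forall fun x => ?_)
  show Real.sign (fderiv ℝ g x v) * fderiv ℝ g x v = |fderiv ℝ g x v|
  rcases lt_trichotomy (fderiv ℝ g x v) 0 with h | h | h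
  · rw [Real.sign_of_neg h, abs_of_neg h]
    ring
  · rw [h]
    simp
  · rw [Real.sign_of_pos h, abs_of_pos h]
    ring

theorem M_smul (t : ℝ) (u : E n) : M g (t • u) = |t| * M g u := by
  unfold M
  rw [← integral_const_mul]
  congr 1
  funext x
  rw [map_smul, smul_eq_mul, abs_mul]

theorem M_neg (u : E n) : M g (-u) = M g u := by
  have := M_smul (g := g) (-1) u
  simpa using this

end Wulff

open Wulff in
theorem specWulff : SpecWulff := by
  intro n g _ hg κ c t hκ hc H
  set W : Set (E n) := {y : E n | ∀ u : E n, ‖u‖ = 1 → inner ℝ y u ≤ κ * M g u} with hW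
  set P : Set (E n) := {y : E n | ∀ x ∈ ball g, inner ℝ x y ≤ 1} with hP
  have hWneg : ∀ y ∈ W, -y ∈ W := by
    intro y hy u hu
    have h1 := hy (-u) (by rwa [norm_neg])
    rwa [inner_neg_right, M_neg, ← inner_neg_left] at h1
  have hPneg : ∀ y ∈ P, -y ∈ P := by
    intro y hy x hx
    have h1 := hy (-x) (by
      show g (-x) ≤ 1
      rw [g_neg hg]
      exact hx)
    rwa [inner_neg_left, ← inner_neg_right] at h1
  -- `t = 0`
  have hstep : ∀ k ∈ P, k + (2 / c) • t ∈ P := by
    intro k hk
    have h1 : c • k + t ∈ W := by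
      rw [H]
      exact ⟨k, hk, rfl⟩
    have h2 := hWneg _ h1
    rw [H] at h2
    obtain ⟨k', hk', h3⟩ := h2
    have h4 : -k' = k + (2 / c) • t := by
      have h5 : c • (-k') = c • (k + (2 / c) • t) := by
        have h6 : c • k' + t = -(c • k + t) := h3
        rw [smul_neg, smul_add, smul_smul, mul_div_cancel₀ _ hc.ne', two_smul]
        have h7 : c • k' = -(c • k + t) - t := eq_sub_of_add_eq h6
        rw [h7]
        abel
      exact smul_right_injective _ hc.ne' h5
    rw [← h4]
    exact hPneg _ hk'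
  have hiter : ∀ m : ℕ, ((m : ℝ) * (2 / c)) • t ∈ P := by
    intro m
    induction m with
    | zero =>
      intro x _
      simp
    | succ m ih =>
      have h1 := hstep _ ih
      have h2 : ((m : ℝ) * (2 / c)) • t + (2 / c) • t = (((m + 1 : ℕ) : ℝ) * (2 / c)) • t := by
        rw [← add_smul]
        congr 1
        push_cast
        ring
      rwa [h2] at h1
  have ht : t = 0 := by
    by_contra hne
    have hgt := hg.pos t hne
    have hx : (g t)⁻¹ • t ∈ ball g := by
      show g _ ≤ 1
      rw [hg.smul, abs_of_pos (inv_pos.2 hgt), inv_mul_cancel₀ hgt.ne']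
    have hpos : 0 < (2 / c) * ((g t)⁻¹ * ‖t‖ ^ 2) := by
      have := norm_pos_iff.2 hne
      positivity
    obtain ⟨m, hm⟩ := exists_nat_gt (1 / ((2 / c) * ((g t)⁻¹ * ‖t‖ ^ 2)))
    have h1 := hiter m _ hx
    rw [inner_smul_left, inner_smul_right, real_inner_self_eq_norm_sq] at h1
    rw [div_lt_iff₀ hpos] at hm
    simp only [conj_trivial] at h1
    nlinarith
  subst ht
  have hWP : ∀ k ∈ P, c • k ∈ W := by
    intro k hk
    rw [H]
    exact ⟨k, hk, by simp⟩
  have hPW : ∀ y ∈ W, ∃ k ∈ P, y = c • k := by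
    intro y hy
    rw [H] at hy
    obtain ⟨k, hk, h⟩ := hy
    exact ⟨k, hk, by rw [← h]; simp⟩
  -- homogeneity
  have hWall : ∀ y ∈ W, ∀ v : E n, inner ℝ y v ≤ κ * M g v := by
    intro y hy v
    by_cases hv : v = 0
    · rw [hv, inner_zero_right]
      have : M g 0 = 0 := by
        have := M_smul (g := g) 0 0
        simpa using this
      rw [this, mul_zero]
    · have hn := norm_pos_iff.2 hv
      have h1 := hy (‖v‖⁻¹ • v) (by
        rw [norm_smul, norm_inv, norm_norm, inv_mul_cancel₀ hn.ne'])
      rw [inner_smul_right, M_smul, abs_of_pos (inv_pos.2 hn)] at h1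
      have h2 : ‖v‖⁻¹ * inner ℝ y v ≤ ‖v‖⁻¹ * (κ * M g v) := by
        calc _ ≤ _ := h1
          _ = _ := by ring
      exact le_of_mul_le_mul_left h2 (inv_pos.2 hn)
  have hPall : ∀ k ∈ P, ∀ v : E n, inner ℝ v k ≤ g v := by
    intro k hk v
    by_cases hv : v = 0
    · rw [hv, inner_zero_left, g_zero hg]
    · have hgv := hg.pos v hv
      have h1 := hk ((g v)⁻¹ • v) (by
        show g _ ≤ 1
        rw [hg.smul, abs_of_pos (inv_pos.2 hgv), inv_mul_cancel₀ hgv.ne'])
      rw [inner_smul_left] at h1
      simp only [conj_trivial] at h1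
      rwa [inv_mul_le_iff₀ hgv, mul_one] at h1
  refine ⟨c / κ, by positivity, fun u => ?_⟩
  apply le_antisymm
  · -- (ii)
    set F : E n →ₗ[ℝ] ℝ :=
      { toFun := fun v => κ * ∫ x in ball g, Real.sign (fderiv ℝ g x u) * fderiv ℝ g x v
        map_add' := fun v w => by
          rw [← mul_add, ← integral_add (integrable_sign hg u v) (integrable_sign hg u w)]
          congr 2
          funext x
          rw [map_add, mul_add]
        map_smul' := fun s v => by
          have h1 : ∫ x in ball g, Real.sign (fderiv ℝ g x u) * fderiv ℝ g x (s • v) =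
              s * ∫ x in ball g, Real.sign (fderiv ℝ g x u) * fderiv ℝ g x v := by
            rw [← integral_const_mul]
            congr 1
            funext x
            rw [map_smul, smul_eq_mul]
            ring
          rw [h1, RingHom.id_apply, smul_eq_mul]
          ring } with hF
    set y : E n := (InnerProductSpace.toDual ℝ (E n)).symm (LinearMap.toContinuousLinearMap F)
      with hy
    have hyv : ∀ v, inner ℝ y v = F v := by
      intro v
      rw [hy, InnerProductSpace.toDual_symm_apply]
      rfl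
    have hle : ∀ v, F v ≤ κ * M g v := by
      intro v
      apply mul_le_mul_of_nonneg_left _ hκ.le
      apply integral_mono (integrable_sign hg u v) (integrable_abs hg v)
      intro x
      show Real.sign (fderiv ℝ g x u) * fderiv ℝ g x v ≤ |fderiv ℝ g x v|
      rcases Real.sign_apply_eq (fderiv ℝ g x u) with h | h | h <;> rw [h]
      · rw [neg_one_mul]; exact neg_le_abs _
      · rw [zero_mul]; exact abs_nonneg _
      · rw [one_mul]; exact le_abs_self _
    have hFu : F u = κ * M g u := by
      show κ * _ = κ * _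
      congr 1
      unfold M
      congr 1
      funext x
      rcases lt_trichotomy (fderiv ℝ g x u) 0 with h | h | h
      · rw [Real.sign_of_neg h, abs_of_neg h]
        ring
      · rw [h]
        simp
      · rw [Real.sign_of_pos h, abs_of_pos h]
        ring
    obtain ⟨k, hk, hyk⟩ := hPW y (fun v _ => by rw [hyv]; exact hle v)
    have h1 : κ * M g u = c * inner ℝ k u := by
      rw [← hFu, ← hyv, hyk, inner_smul_left]
      rfl
    have h2 := hPall k hk u
    rw [real_inner_comm] at h2
    rw [div_mul_eq_mul_div, le_div_iff₀ hκ, mul_comm, h1]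
    exact mul_le_mul_of_nonneg_left h2 hc.le
  · -- (i)
    have hf : ∃ f : E n →ₗ[ℝ] ℝ, f u = g u ∧ ∀ x, f x ≤ g x := by
      by_cases hu : u = 0
      · exact ⟨0, by rw [hu, g_zero hg]; simp, fun x => g_nonneg hg x⟩
      · obtain ⟨f, hf1, hf2⟩ := exists_extension_of_le_sublinear
          (LinearPMap.mkSpanSingleton u (g u) hu) g
          (fun s hs x => by rw [hg.smul, abs_of_pos hs]) hg.add (by
            rintro ⟨x, hx⟩
            obtain ⟨s, rfl⟩ := Submodule.mem_span_singleton.1 hx
            rw [LinearPMap.mkSpanSingleton'_apply, RingHom.id_apply, smul_eq_mul]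
            show s * g u ≤ g (s • u)
            rw [hg.smul]
            exact mul_le_mul_of_nonneg_right (le_abs_self s) (g_nonneg hg u))
        refine ⟨f, ?_, hf2⟩
        have h1 := hf1 ⟨u, Submodule.mem_span_singleton_self u⟩
        rw [LinearPMap.mkSpanSingleton_apply ℝ ℝ hu (g u)] at h1
        exact h1
    obtain ⟨f, hfu, hfg⟩ := hf
    set k : E n := (InnerProductSpace.toDual ℝ (E n)).symm (LinearMap.toContinuousLinearMap f)
      with hk
    have hkv : ∀ v, inner ℝ k v = f v := by
      intro v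
      rw [hk, InnerProductSpace.toDual_symm_apply]
      rfl
    have hkP : k ∈ P := by
      intro x hx
      rw [real_inner_comm, hkv]
      exact (hfg x).trans hx
    have h1 := hWall _ (hWP k hkP) u
    rw [inner_smul_left, hkv, hfu] at h1
    simp only [conj_trivial] at h1
    rw [div_mul_eq_mul_div, div_le_iff₀ hκ, mul_comm (M g u)]
    exact h1

end Pool.Agent.Lib.MP_37d555_gt
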